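import Mathlib

/-!
The core argument: there is no monotone, volume preserving map on the compact convex subsets of
`ℝ² × ℝᵐ` with values in the sets that are symmetric under `(w, y) ↦ (-w, σ y)` and which fixes
those sets.
-/

namespace Pool.Agent.Lib.MP_b62b68_gt

open MeasureTheory Set

/-- The linear form `αX + βY`. -/
def lf (α β : ℝ) (w : ℝ × ℝ) : ℝ := α * w.1 + β * w.2

theorem continuous_lf (α β : ℝ) : Continuous (lf α β) := by
  unfold lf; fun_prop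

/-- Area of a parallelogram. -/
theorem area_parallelogram (a b α β : ℝ) (hdet : a * β - b * α ≠ 0) (p q r s : ℝ) :
    volume {w : ℝ × ℝ | (p ≤ lf a b w ∧ lf a b w ≤ q) ∧ (r ≤ lf α β w ∧ lf α β w ≤ s)} =
      ENNReal.ofReal |(a * β - b * α)⁻¹| * (ENNReal.ofReal (q - p) * ENNReal.ofReal (s - r)) := by
  set L : (ℝ × ℝ) →ₗ[ℝ] (ℝ × ℝ) :=
    Matrix.toLin (Module.Basis.finTwoProd ℝ) (Module.Basis.finTwoProd ℝ) !![a, b; α, β] with hL
  have hdetL : LinearMap.det L = a * β - b * α := by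
    rw [hL, LinearMap.det_toLin, Matrix.det_fin_two_of]
  have happ : ∀ w, L w = (lf a b w, lf α β w) := by
    intro w
    rw [hL, Matrix.toLin_finTwoProd_apply]
    rfl
  have hset : {w : ℝ × ℝ | (p ≤ lf a b w ∧ lf a b w ≤ q) ∧ (r ≤ lf α β w ∧ lf α β w ≤ s)} =
      L ⁻¹' (Icc p q ×ˢ Icc r s) := by
    ext w
    rw [mem_preimage, happ]
    rfl
  rw [hset, Measure.addHaar_preimage_linearMap _ (by rw [hdetL]; exact hdet), hdetL,
    Measure.volume_eq_prod, Measure.prod_prod, Real.volume_Icc, Real.volume_Icc]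

/-- The key planar estimate. -/
theorem exists_point {m : ℕ} {B : Set (Fin m → ℝ)} (hBpos : volume B ≠ 0) (hBfin : volume B ≠ ⊤)
    {M : Set ((ℝ × ℝ) × (Fin m → ℝ))} (hMc : IsCompact M) (hMconv : Convex ℝ M)
    (hMB : ∀ x ∈ M, x.2 ∈ B) (hsymm : ∀ x ∈ M, ∃ y ∈ M, y.1 = -x.1) (h0 : ∃ x ∈ M, x.1 = 0)
    {α β c t : ℝ} (hc : 0 < c) (ht : 0 < t)
    (hvol : ENNReal.ofReal (4 * c * t) * volume B ≤
      volume (M ∩ {x | |lf α β x.1| ≤ c})) :
    ∃ x ∈ M, x.1 = (t * β, -(t * α)) := by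
  by_contra hcon
  push Not at hcon
  set M₂ : Set (ℝ × ℝ) := Prod.fst '' M with hM₂
  have hM₂c : IsCompact M₂ := hMc.image continuous_fst
  have hM₂conv : Convex ℝ M₂ := hMconv.linear_image (LinearMap.fst ℝ (ℝ × ℝ) (Fin m → ℝ))
  have hnot : ((t * β, -(t * α)) : ℝ × ℝ) ∉ M₂ := by
    rintro ⟨x, hx, hx'⟩
    exact hcon x hx hx'
  obtain ⟨f, u, hf, hu⟩ := geometric_hahn_banach_closed_point hM₂conv hM₂c.isClosed hnot
  have hu0 : 0 < u := by
    obtain ⟨x, hx, hx'⟩ := h0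
    have := hf x.1 ⟨x, hx, rfl⟩
    rw [hx', map_zero] at this
    exact this
  set a := f (1, 0) with ha
  set b := f (0, 1) with hb
  have hfw : ∀ w, f w = lf a b w := by
    intro w
    have : w = w.1 • ((1 : ℝ), (0 : ℝ)) + w.2 • ((0 : ℝ), (1 : ℝ)) := by
      ext <;> simp
    conv_lhs => rw [this]
    rw [map_add, map_smul, map_smul, smul_eq_mul, smul_eq_mul, lf]
    ring
  have hdet : u / t < a * β - b * α := by
    rw [hfw, lf] at hu
    simp only at hu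
    rw [div_lt_iff₀ ht]
    linarith
  have hdetpos : 0 < a * β - b * α := lt_trans (div_pos hu0 ht) hdet
  have hsub : M ∩ {x | |lf α β x.1| ≤ c} ⊆
      {w : ℝ × ℝ | (-u ≤ lf a b w ∧ lf a b w ≤ u) ∧ (-c ≤ lf α β w ∧ lf α β w ≤ c)} ×ˢ B := by
    rintro x ⟨hx, hx'⟩
    refine ⟨⟨⟨?_, ?_⟩, abs_le.1 hx'⟩, hMB x hx⟩
    · obtain ⟨y, hy, hyx⟩ := hsymm x hx
      have := hf y.1 ⟨y, hy, rfl⟩
      rw [hyx, map_neg, hfw] at this
      linarith
    · have := hf x.1 ⟨x, hx, rfl⟩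
      rw [hfw] at this
      exact this.le
  have h1 := hvol.trans (measure_mono hsub)
  rw [Measure.volume_eq_prod, Measure.prod_prod, area_parallelogram _ _ _ _ hdetpos.ne'] at h1
  rw [ENNReal.mul_le_mul_iff_left hBpos hBfin, ← ENNReal.ofReal_mul (by linarith),
    ← ENNReal.ofReal_mul (abs_nonneg _), ENNReal.ofReal_le_ofReal_iff
      (mul_nonneg (abs_nonneg _) (mul_nonneg (by linarith) (by linarith))),
    abs_of_pos (inv_pos.2 hdetpos)] at h1
  have h2 : (a * β - b * α)⁻¹ < (u / t)⁻¹ := inv_strictAnti₀ (div_pos hu0 ht) hdet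
  have h3 : (a * β - b * α)⁻¹ * ((u - -u) * (c - -c)) < (u / t)⁻¹ * ((u - -u) * (c - -c)) :=
    mul_lt_mul_of_pos_right h2 (by nlinarith)
  have h4 : (u / t)⁻¹ * ((u - -u) * (c - -c)) = 4 * c * t := by
    field_simp
    ring
  linarith

/-- The reflection `(w, y) ↦ (-w, σ y)`, where `σ` changes some signs. -/
def refl {m : ℕ} (s : Fin m → ℝ) (x : (ℝ × ℝ) × (Fin m → ℝ)) : (ℝ × ℝ) × (Fin m → ℝ) :=
  (-x.1, fun k => s k * x.2 k)

/-- The unit cube. -/
def cubeB (m : ℕ) : Set (Fin m → ℝ) := Icc (fun _ => -1) (fun _ => 1)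

theorem volume_cubeB (m : ℕ) : volume (cubeB m) ≠ 0 ∧ volume (cubeB m) ≠ ⊤ := by
  unfold cubeB
  rw [Real.volume_Icc_pi]
  constructor
  · rw [Finset.prod_ne_zero_iff]
    intro i _
    rw [Ne, ENNReal.ofReal_eq_zero]
    norm_num
  · exact ENNReal.prod_ne_top fun i _ => ENNReal.ofReal_ne_top

/-- A right triangle that contains the square `[-1,1]²`. -/
def tri : Set (ℝ × ℝ) := {w | -1 ≤ w.1 ∧ -1 ≤ w.2 ∧ w.1 + w.2 ≤ 2}

/-- A box around the triangle. -/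
def box (p q : ℝ) : Set (ℝ × ℝ) := Icc (-p) p ×ˢ Icc (-q) q

theorem tri_subset : tri ⊆ box 3 3 := by
  rintro ⟨x, y⟩ ⟨h1, h2, h3⟩
  simp only at h1 h2 h3
  refine ⟨⟨?_, ?_⟩, ⟨?_, ?_⟩⟩ <;> simp only <;> linarith

theorem isCompact_tri : IsCompact tri := by
  have hbox : IsCompact (box 3 3) := isCompact_Icc.prod isCompact_Icc
  refine hbox.of_isClosed_subset ?_ tri_subset
  have h1 : IsClosed {w : ℝ × ℝ | -1 ≤ w.1} := isClosed_le continuous_const continuous_fst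
  have h2 : IsClosed {w : ℝ × ℝ | -1 ≤ w.2} := isClosed_le continuous_const continuous_snd
  have h3 : IsClosed {w : ℝ × ℝ | w.1 + w.2 ≤ 2} :=
    isClosed_le (continuous_fst.add continuous_snd) continuous_const
  exact h1.inter (h2.inter h3)

theorem convex_lf (α β c : ℝ) : Convex ℝ {w : ℝ × ℝ | lf α β w ≤ c} := by
  have : IsLinearMap ℝ (lf α β) := by
    constructor
    · intro x y; simp only [lf, Prod.fst_add, Prod.snd_add]; ring
    · intro r x; simp only [lf, Prod.smul_fst, Prod.smul_snd, smul_eq_mul]; ring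
  exact convex_halfSpace_le this c

theorem convex_tri : Convex ℝ tri := by
  have h1 := convex_lf (-1) 0 1
  have h2 := convex_lf 0 (-1) 1
  have h3 := convex_lf 1 1 2
  have : tri = {w : ℝ × ℝ | lf (-1) 0 w ≤ 1} ∩ ({w : ℝ × ℝ | lf 0 (-1) w ≤ 1} ∩
      {w : ℝ × ℝ | lf 1 1 w ≤ 2}) := by
    ext w
    simp only [tri, lf, mem_inter_iff, mem_ofPred_eq]
    constructor
    · rintro ⟨a, b, c⟩
      refine ⟨by linarith, by linarith, by linarith⟩
    · rintro ⟨a, b, c⟩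
      refine ⟨by linarith, by linarith, by linarith⟩
  rw [this]
  exact h1.inter (h2.inter h3)

/-- A strip in the box. -/
def strip (α β c : ℝ) : Set (ℝ × ℝ) := {w | |lf α β w| ≤ c} ∩ box 3 3

theorem isCompact_strip (α β c : ℝ) : IsCompact (strip α β c) := by
  have hbox : IsCompact (box 3 3) := isCompact_Icc.prod isCompact_Icc
  refine hbox.of_isClosed_subset ?_ inter_subset_right
  exact (isClosed_le (continuous_abs.comp (continuous_lf α β)) continuous_const).inter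
    hbox.isClosed

theorem convex_strip (α β c : ℝ) : Convex ℝ (strip α β c) := by
  have h1 := convex_lf α β c
  have h2 := convex_lf (-α) (-β) c
  have : strip α β c = ({w : ℝ × ℝ | lf α β w ≤ c} ∩ {w : ℝ × ℝ | lf (-α) (-β) w ≤ c}) ∩
      box 3 3 := by
    ext w
    simp only [strip, lf, mem_inter_iff, mem_ofPred_eq, abs_le]
    constructor
    · rintro ⟨⟨a, b⟩, c⟩
      exact ⟨⟨b, by linarith⟩, c⟩
    · rintro ⟨⟨a, b⟩, c⟩
      exact ⟨⟨by linarith, a⟩, c⟩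
  rw [this]
  exact (h1.inter h2).inter ((convex_Icc _ _).prod (convex_Icc _ _))

theorem neg_strip {α β c : ℝ} {w : ℝ × ℝ} (hw : w ∈ strip α β c) : -w ∈ strip α β c := by
  obtain ⟨h1, ⟨h2, h3⟩, ⟨h4, h5⟩⟩ := hw
  have e : lf α β (-w) = -lf α β w := by
    simp only [lf, Prod.fst_neg, Prod.snd_neg]; ring
  refine ⟨?_, ⟨?_, ?_⟩, ⟨?_, ?_⟩⟩
  · change |lf α β (-w)| ≤ c
    rw [e, abs_neg]; exact h1
  all_goals simp only [Prod.fst_neg, Prod.snd_neg]; linarith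

theorem area1 : ENNReal.ofReal (4 * (1 / 2) * (7 / 12)) ≤ volume (tri ∩ strip 1 3 (1 / 2)) := by
  have h := area_parallelogram 1 0 1 3 (by norm_num) (-1) (5 / 2) (-(1 / 2)) (1 / 2)
  rw [← ENNReal.ofReal_mul (by norm_num), ← ENNReal.ofReal_mul (abs_nonneg _)] at h
  have e : |((1 : ℝ) * 3 - 0 * 1)⁻¹| * ((5 / 2 - -1) * (1 / 2 - -(1 / 2))) =
      4 * (1 / 2) * (7 / 12) := by norm_num
  rw [e] at h
  rw [← h]
  apply measure_mono
  rintro ⟨x, y⟩ ⟨⟨h1, h2⟩, h3, h4⟩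
  simp only [lf] at h1 h2 h3 h4
  refine ⟨⟨?_, ?_, ?_⟩, ⟨?_, ⟨?_, ?_⟩, ⟨?_, ?_⟩⟩⟩
  · simp only; linarith
  · simp only; linarith
  · simp only; linarith
  · change |lf 1 3 (x, y)| ≤ 1 / 2
    rw [abs_le]; simp only [lf]; constructor <;> linarith
  all_goals simp only; linarith

theorem area2 : ENNReal.ofReal (4 * (1 / 2) * (7 / 12)) ≤ volume (tri ∩ strip 3 1 (1 / 2)) := by
  have h := area_parallelogram 0 1 3 1 (by norm_num) (-1) (5 / 2) (-(1 / 2)) (1 / 2)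
  rw [← ENNReal.ofReal_mul (by norm_num), ← ENNReal.ofReal_mul (abs_nonneg _)] at h
  have e : |((0 : ℝ) * 1 - 1 * 3)⁻¹| * ((5 / 2 - -1) * (1 / 2 - -(1 / 2))) =
      4 * (1 / 2) * (7 / 12) := by norm_num
  rw [e] at h
  rw [← h]
  apply measure_mono
  rintro ⟨x, y⟩ ⟨⟨h1, h2⟩, h3, h4⟩
  simp only [lf] at h1 h2 h3 h4
  refine ⟨⟨?_, ?_, ?_⟩, ⟨?_, ⟨?_, ?_⟩, ⟨?_, ?_⟩⟩⟩
  · simp only; linarith
  · simp only; linarith
  · simp only; linarith
  · change |lf 3 1 (x, y)| ≤ 1 / 2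
    rw [abs_le]; simp only [lf]; constructor <;> linarith
  all_goals simp only; linarith

theorem refl_refl {m : ℕ} {s : Fin m → ℝ} (hs : ∀ k, s k = 1 ∨ s k = -1)
    (x : (ℝ × ℝ) × (Fin m → ℝ)) : refl s (refl s x) = x := by
  unfold refl
  ext k
  · simp
  · simp
  · rcases hs k with h | h <;> simp [h]

theorem refl_image {m : ℕ} {s : Fin m → ℝ} (hs : ∀ k, s k = 1 ∨ s k = -1)
    {A : Set ((ℝ × ℝ) × (Fin m → ℝ))} (hA : ∀ x ∈ A, refl s x ∈ A) : refl s '' A = A := by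
  apply Subset.antisymm
  · rintro _ ⟨x, hx, rfl⟩; exact hA x hx
  · intro x hx; exact ⟨refl s x, hA x hx, refl_refl hs x⟩

theorem refl_cube {m : ℕ} {s : Fin m → ℝ} (hs : ∀ k, s k = 1 ∨ s k = -1) {y : Fin m → ℝ}
    (hy : y ∈ cubeB m) : (fun k => s k * y k) ∈ cubeB m := by
  obtain ⟨h1, h2⟩ := hy
  refine ⟨fun k => ?_, fun k => ?_⟩
  · have a := h1 k; have b := h2 k
    simp only at a b ⊢
    rcases hs k with h | h <;> rw [h] <;> linarith
  · have a := h1 k; have b := h2 k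
    simp only at a b ⊢
    rcases hs k with h | h <;> rw [h] <;> linarith

theorem refl_prod {m : ℕ} {s : Fin m → ℝ} (hs : ∀ k, s k = 1 ∨ s k = -1) {S : Set (ℝ × ℝ)}
    (hS : ∀ w ∈ S, -w ∈ S) : refl s '' (S ×ˢ cubeB m) = S ×ˢ cubeB m := by
  apply refl_image hs
  rintro ⟨w, y⟩ ⟨hw, hy⟩
  exact ⟨hS w hw, refl_cube hs hy⟩

theorem isCompact_cubeB (m : ℕ) : IsCompact (cubeB m) := isCompact_Icc

theorem convex_cubeB (m : ℕ) : Convex ℝ (cubeB m) := convex_Icc _ _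

theorem zero_mem_cubeB (m : ℕ) : (0 : Fin m → ℝ) ∈ cubeB m :=
  ⟨fun _ => by simp, fun _ => by simp⟩

/-- There is no monotone volume preserving map with symmetric values that fixes symmetric sets. -/
theorem core {m : ℕ} {s : Fin m → ℝ} (hs : ∀ k, s k = 1 ∨ s k = -1)
    (Φ : Set ((ℝ × ℝ) × (Fin m → ℝ)) → Set ((ℝ × ℝ) × (Fin m → ℝ)))
    (hc : ∀ A, IsCompact A → Convex ℝ A → A.Nonempty →
      IsCompact (Φ A) ∧ Convex ℝ (Φ A) ∧ refl s '' (Φ A) = Φ A)
    (hmono : ∀ A A', IsCompact A → Convex ℝ A → A.Nonempty → IsCompact A' → Convex ℝ A' →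
      A'.Nonempty → A ⊆ A' → Φ A ⊆ Φ A')
    (hvol : ∀ A, IsCompact A → Convex ℝ A → A.Nonempty → volume (Φ A) = volume A)
    (hfix : ∀ A, IsCompact A → Convex ℝ A → A.Nonempty → refl s '' A = A → Φ A = A) : False := by
  obtain ⟨hB0, hBtop⟩ := volume_cubeB m
  have hBc := isCompact_cubeB m
  have hBv := convex_cubeB m
  have hB00 := zero_mem_cubeB m
  set K : Set ((ℝ × ℝ) × (Fin m → ℝ)) := tri ×ˢ cubeB m with hK
  have hKc : IsCompact K := isCompact_tri.prod hBc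
  have hKv : Convex ℝ K := convex_tri.prod hBv
  have htri0 : (0 : ℝ × ℝ) ∈ tri := by
    refine ⟨?_, ?_, ?_⟩ <;> norm_num
  have hKn : K.Nonempty := ⟨(0, 0), htri0, hB00⟩
  set M := Φ K with hM
  obtain ⟨hMc, hMv, hMs⟩ : IsCompact M ∧ Convex ℝ M ∧ refl s '' M = M := hc K hKc hKv hKn
  -- the effect of symmetric cuts
  have hcut : ∀ S : Set (ℝ × ℝ), IsCompact S → Convex ℝ S → (0 : ℝ × ℝ) ∈ S →
      (∀ w ∈ S, -w ∈ S) → volume (tri ∩ S) * volume (cubeB m) ≤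
        volume (M ∩ (S ×ˢ cubeB m)) := by
    intro S hSc hSv hS0 hSn
    have c1 : IsCompact ((tri ∩ S) ×ˢ cubeB m) :=
      (isCompact_tri.inter hSc).prod hBc
    have c2 : Convex ℝ ((tri ∩ S) ×ˢ cubeB m) := (convex_tri.inter hSv).prod hBv
    have c3 : ((tri ∩ S) ×ˢ cubeB m).Nonempty := ⟨(0, 0), ⟨htri0, hS0⟩, hB00⟩
    rw [← Measure.prod_prod, ← Measure.volume_eq_prod, ← hvol _ c1 c2 c3]
    apply measure_mono
    apply subset_inter
    · exact hmono _ _ c1 c2 c3 hKc hKv hKn (prod_mono inter_subset_left Subset.rfl)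
    · have d1 : IsCompact (S ×ˢ cubeB m) := hSc.prod hBc
      have d2 : Convex ℝ (S ×ˢ cubeB m) := hSv.prod hBv
      have d3 : (S ×ˢ cubeB m).Nonempty := ⟨(0, 0), hS0, hB00⟩
      calc Φ ((tri ∩ S) ×ˢ cubeB m) ⊆ Φ (S ×ˢ cubeB m) :=
            hmono _ _ c1 c2 c3 d1 d2 d3 (prod_mono inter_subset_right Subset.rfl)
        _ = S ×ˢ cubeB m := hfix _ d1 d2 d3 (refl_prod hs hSn)
  have hboxc : ∀ p q, IsCompact (box p q) := fun p q => isCompact_Icc.prod isCompact_Icc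
  have hboxv : ∀ p q, Convex ℝ (box p q) := fun p q => (convex_Icc _ _).prod (convex_Icc _ _)
  have hboxn : ∀ p q, ∀ w ∈ box p q, -w ∈ box p q := by
    rintro p q w ⟨⟨h2, h3⟩, ⟨h4, h5⟩⟩
    refine ⟨⟨?_, ?_⟩, ⟨?_, ?_⟩⟩ <;> simp only [Prod.fst_neg, Prod.snd_neg] <;> linarith
  have hbox0 : ∀ p q : ℝ, 0 ≤ p → 0 ≤ q → (0 : ℝ × ℝ) ∈ box p q := by
    intro p q hp hq
    refine ⟨⟨?_, ?_⟩, ⟨?_, ?_⟩⟩ <;> simp <;> linarith
  have hMbox : M ⊆ box 3 3 ×ˢ cubeB m := by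
    have d1 : IsCompact (box 3 3 ×ˢ cubeB m) := (hboxc 3 3).prod hBc
    have d2 : Convex ℝ (box 3 3 ×ˢ cubeB m) := (hboxv 3 3).prod hBv
    have d3 : (box 3 3 ×ˢ cubeB m).Nonempty :=
      ⟨(0, 0), hbox0 3 3 (by norm_num) (by norm_num), hB00⟩
    calc M ⊆ Φ (box 3 3 ×ˢ cubeB m) :=
          hmono _ _ hKc hKv hKn d1 d2 d3 (prod_mono tri_subset Subset.rfl)
      _ = box 3 3 ×ˢ cubeB m := hfix _ d1 d2 d3 (refl_prod hs (hboxn 3 3))
  have hMsymm : ∀ x ∈ M, ∃ y ∈ M, y.1 = -x.1 := by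
    intro x hx
    refine ⟨refl s x, ?_, rfl⟩
    rw [← hMs]; exact ⟨x, hx, rfl⟩
  have hM0 : (0 : (ℝ × ℝ) × (Fin m → ℝ)) ∈ M := by
    have e : refl s '' ({0} : Set ((ℝ × ℝ) × (Fin m → ℝ))) = {0} := by
      apply refl_image hs
      intro x hx
      rw [mem_singleton_iff] at hx ⊢
      subst hx
      unfold refl
      ext k <;> simp
    have := hmono {0} K isCompact_singleton (convex_singleton _) (singleton_nonempty _) hKc hKv
      hKn (by rw [singleton_subset_iff]; exact ⟨htri0, hB00⟩)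
    rw [hfix {0} isCompact_singleton (convex_singleton _) (singleton_nonempty _) e] at this
    exact this rfl
  -- the two points
  have hpt : ∀ α β : ℝ, ENNReal.ofReal (4 * (1 / 2) * (7 / 12)) ≤
      volume (tri ∩ strip α β (1 / 2)) → ∃ x ∈ M, x.1 = (7 / 12 * β, -(7 / 12 * α)) := by
    intro α β harea
    refine exists_point hB0 hBtop hMc hMv (fun x hx => (hMbox hx).2) hMsymm ⟨0, hM0, rfl⟩
      (c := 1 / 2) (by norm_num) (by norm_num) ?_
    calc _ ≤ volume (tri ∩ strip α β (1 / 2)) * volume (cubeB m) := mul_le_mul_left harea _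
      _ ≤ volume (M ∩ (strip α β (1 / 2) ×ˢ cubeB m)) :=
        hcut _ (isCompact_strip _ _ _) (convex_strip _ _ _)
          ⟨by simp [lf], hbox0 3 3 (by norm_num) (by norm_num)⟩ (fun w hw => neg_strip hw)
      _ ≤ _ := by
        apply measure_mono
        apply inter_subset_inter_right
        rintro x ⟨hx, _⟩
        exact hx.1
  obtain ⟨p₁, hp₁, e₁⟩ := hpt 1 3 area1
  obtain ⟨p₂, hp₂, e₂⟩ := hpt 3 1 area2
  -- the midpoint
  obtain ⟨P, hP, hP1⟩ : ∃ P ∈ M, P.1 = ((7 / 6 : ℝ), (-(7 / 6) : ℝ)) := by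
    refine ⟨(1 / 2 : ℝ) • p₁ + (1 / 2 : ℝ) • p₂,
      hMv hp₁ hp₂ (by norm_num) (by norm_num) (by norm_num), ?_⟩
    rw [Prod.fst_add, Prod.smul_fst, Prod.smul_fst, e₁, e₂]
    ext <;> simp <;> norm_num
  -- inclusion-exclusion
  have hfinK : volume K ≠ ⊤ := hKc.measure_lt_top.ne
  have hposK : volume K ≠ 0 := by
    have : volume (box 1 1 ×ˢ cubeB m) ≤ volume K := by
      apply measure_mono
      apply prod_mono _ Subset.rfl
      rintro ⟨x, y⟩ ⟨⟨h2, h3⟩, ⟨h4, h5⟩⟩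
      simp only at h2 h3 h4 h5
      refine ⟨?_, ?_, ?_⟩ <;> simp only <;> linarith
    intro h0
    rw [h0, nonpos_iff_eq_zero, Measure.volume_eq_prod, Measure.prod_prod] at this
    rcases mul_eq_zero.1 this with h | h
    · unfold box at h
      rw [Measure.volume_eq_prod, Measure.prod_prod, Real.volume_Icc] at h
      norm_num at h
    · exact hB0 h
  have hmeas : ∀ p q, MeasurableSet (box p q ×ˢ cubeB m) := fun p q =>
    ((hboxc p q).prod hBc).measurableSet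
  have hMm : MeasurableSet M := hMc.measurableSet
  have hKm : MeasurableSet K := hKc.measurableSet
  have hMK : volume M = volume K := hvol K hKc hKv hKn
  have hie : volume K ≤ volume (M ∩ ((box 1 3 ×ˢ cubeB m) ∪ (box 3 1 ×ˢ cubeB m))) := by
    have a1 : volume (K ∩ (box 1 3 ×ˢ cubeB m)) ≤ volume (M ∩ (box 1 3 ×ˢ cubeB m)) := by
      calc _ = volume (tri ∩ box 1 3) * volume (cubeB m) := by
            rw [hK, prod_inter_prod, inter_self, Measure.volume_eq_prod, Measure.prod_prod]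
        _ ≤ _ := hcut _ (hboxc 1 3) (hboxv 1 3) (hbox0 _ _ (by norm_num) (by norm_num))
          (hboxn 1 3)
    have a2 : volume (K ∩ (box 3 1 ×ˢ cubeB m)) ≤ volume (M ∩ (box 3 1 ×ˢ cubeB m)) := by
      calc _ = volume (tri ∩ box 3 1) * volume (cubeB m) := by
            rw [hK, prod_inter_prod, inter_self, Measure.volume_eq_prod, Measure.prod_prod]
        _ ≤ _ := hcut _ (hboxc 3 1) (hboxv 3 1) (hbox0 _ _ (by norm_num) (by norm_num))
          (hboxn 3 1)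
    have a3 : volume (M ∩ (box 1 3 ×ˢ cubeB m) ∩ (M ∩ (box 3 1 ×ˢ cubeB m))) ≤
        volume (K ∩ (box 1 3 ×ˢ cubeB m) ∩ (K ∩ (box 3 1 ×ˢ cubeB m))) := by
      apply measure_mono
      rintro ⟨⟨x, y⟩, z⟩ ⟨⟨-, h1⟩, ⟨-, h2⟩⟩
      have hin : ((x, y), z) ∈ K := by
        obtain ⟨⟨h3, h4⟩, hz⟩ := h1
        obtain ⟨⟨h5, h6⟩, -⟩ := h2
        obtain ⟨h3, h3'⟩ := h3
        obtain ⟨h6, h6'⟩ := h6
        simp only at h3 h3' h6 h6'
        refine ⟨⟨?_, ?_, ?_⟩, hz⟩ <;> simp only <;> linarith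
      exact ⟨⟨hin, h1⟩, ⟨hin, h2⟩⟩
    have b1 := measure_union_add_inter (μ := volume) (M ∩ (box 1 3 ×ˢ cubeB m))
      (hMm.inter (hmeas 3 1))
    have b2 := measure_union_add_inter (μ := volume) (K ∩ (box 1 3 ×ˢ cubeB m))
      (hKm.inter (hmeas 3 1))
    have b3 : K ∩ (box 1 3 ×ˢ cubeB m) ∪ K ∩ (box 3 1 ×ˢ cubeB m) = K := by
      apply Subset.antisymm
      · exact union_subset inter_subset_left inter_subset_left
      · rintro ⟨⟨x, y⟩, z⟩ hx
        obtain ⟨⟨h1, h2, h3⟩, hz⟩ := hx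
        simp only at h1 h2 h3 hz
        by_cases h : x ≤ 1
        · left
          refine ⟨⟨⟨h1, h2, h3⟩, hz⟩, ⟨⟨?_, ?_⟩, ⟨?_, ?_⟩⟩, hz⟩ <;> simp only <;> linarith
        · right
          push Not at h
          refine ⟨⟨⟨h1, h2, h3⟩, hz⟩, ⟨⟨?_, ?_⟩, ⟨?_, ?_⟩⟩, hz⟩ <;> simp only <;> linarith
    rw [b3] at b2
    rw [← inter_union_distrib_left] at b1
    have hfin : volume (K ∩ (box 1 3 ×ˢ cubeB m) ∩ (K ∩ (box 3 1 ×ˢ cubeB m))) ≠ ⊤ :=
      ((measure_mono (inter_subset_left.trans inter_subset_left)).trans_lt hKc.measure_lt_top).ne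
    have hsum : volume K + volume (K ∩ (box 1 3 ×ˢ cubeB m) ∩ (K ∩ (box 3 1 ×ˢ cubeB m))) ≤
        volume (M ∩ ((box 1 3 ×ˢ cubeB m) ∪ (box 3 1 ×ˢ cubeB m))) +
          volume (K ∩ (box 1 3 ×ˢ cubeB m) ∩ (K ∩ (box 3 1 ×ˢ cubeB m))) := by
      calc _ = volume (K ∩ (box 1 3 ×ˢ cubeB m)) + volume (K ∩ (box 3 1 ×ˢ cubeB m)) := b2
        _ ≤ volume (M ∩ (box 1 3 ×ˢ cubeB m)) + volume (M ∩ (box 3 1 ×ˢ cubeB m)) :=
          add_le_add a1 a2
        _ = _ := b1.symm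
        _ ≤ _ := add_le_add_right a3 _
    exact (ENNReal.add_le_add_iff_right hfin).1 hsum
  -- the part of `M` outside of the cross is a null set
  set C := (box 1 3 ×ˢ cubeB m) ∪ (box 3 1 ×ˢ cubeB m) with hC
  have hnull : volume (M \ C) = 0 := by
    have h1 := measure_inter_add_sdiff (μ := volume) M ((hmeas 1 3).union (hmeas 3 1))
    rw [hMK] at h1
    have h2 : volume (M ∩ C) ≠ ⊤ :=
      ((measure_mono inter_subset_left).trans_lt hMc.measure_lt_top).ne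
    have h3 : volume (M ∩ C) + volume (M \ C) ≤ volume (M ∩ C) + 0 := by
      rw [add_zero]
      exact h1.le.trans hie
    have := (ENNReal.add_le_add_iff_left h2).1 h3
    exact nonpos_iff_eq_zero.1 this
  -- but it has interior points
  have hHaar : (volume : Measure ((ℝ × ℝ) × (Fin m → ℝ))).IsAddHaarMeasure :=
    Measure.prod.instIsAddHaarMeasure _ _
  have hint : (interior M).Nonempty := by
    rw [nonempty_iff_ne_empty]
    intro he
    have h1 : volume (frontier M) = 0 := hMv.addHaar_frontier volume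
    rw [frontier, hMc.isClosed.closure_eq, he, sdiff_empty] at h1
    exact hposK (hMK ▸ h1)
  obtain ⟨Q, hQ⟩ := hint
  set U : Set ((ℝ × ℝ) × (Fin m → ℝ)) := {x | 1 < x.1.1} ∩ {x | x.1.2 < -1} with hU
  have hUo : IsOpen U :=
    (isOpen_lt continuous_const (continuous_fst.comp continuous_fst)).inter
      (isOpen_lt (continuous_snd.comp continuous_fst) continuous_const)
  have hPU : P ∈ U := by
    refine ⟨?_, ?_⟩
    · change 1 < P.1.1; rw [hP1]; norm_num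
    · change P.1.2 < -1; rw [hP1]; norm_num
  have hcont : ContinuousAt (fun t : ℝ => P + t • (Q - P)) 0 := by fun_prop
  have hev : ∀ᶠ t in nhds (0 : ℝ), P + t • (Q - P) ∈ U := by
    apply hcont
    simp only [zero_smul, add_zero]
    exact hUo.mem_nhds hPU
  obtain ⟨ε, hε, hεU⟩ := Metric.eventually_nhds_iff.1 hev
  set t := min (ε / 2) 1 with ht
  have ht0 : 0 < t := lt_min (by linarith) one_pos
  have ht1 : t ≤ 1 := min_le_right _ _
  have htε : t < ε := (min_le_left _ _).trans_lt (by linarith)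
  have hz1 : P + t • (Q - P) ∈ interior M :=
    hMv.add_smul_sub_mem_interior hP hQ ⟨ht0, ht1⟩
  have hz2 : P + t • (Q - P) ∈ U := by
    apply hεU
    rw [Real.dist_eq, sub_zero, abs_of_pos ht0]
    exact htε
  have hopen : IsOpen (interior M ∩ U) := isOpen_interior.inter hUo
  have hpos : 0 < volume (interior M ∩ U) := hopen.measure_pos volume ⟨_, hz1, hz2⟩
  have hsub : interior M ∩ U ⊆ M \ C := by
    rintro x ⟨hx, hx1, hx2⟩
    refine ⟨interior_subset hx, ?_⟩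
    have hx1' : 1 < x.1.1 := hx1
    have hx2' : x.1.2 < -1 := hx2
    rintro (⟨⟨⟨_, h⟩, _⟩, _⟩ | ⟨⟨_, ⟨h, _⟩⟩, _⟩)
    · linarith
    · linarith
  have := measure_mono (μ := volume) hsub
  rw [hnull] at this
  exact absurd this (not_le.2 hpos)

end Pool.Agent.Lib.MP_b62b68_gt
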