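import Mathlib

/-!
Definitions: `ℝⁿ`, compact convex sets, the orthogonal group with its Haar probability measure,
intrinsic volumes by Kubota's formula, `H`-symmetric sets and symmetrizations.
-/

namespace Pool.Agent.Lib.MP_b62b68_gt

open MeasureTheory Set
open scoped ENNReal

/-- `ℝⁿ` with its standard inner product. -/
abbrev E (n : ℕ) := EuclideanSpace ℝ (Fin n)

/-- The class `𝒦ⁿ` of compact convex subsets of `ℝⁿ`. -/
def compactConvex (n : ℕ) : Set (Set (E n)) := {K | IsCompact K ∧ Convex ℝ K}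

/-- The class `𝒦ⁿ_n` of convex bodies: compact convex sets with nonempty interior. -/
def convexBodies (n : ℕ) : Set (Set (E n)) :=
  {K | IsCompact K ∧ Convex ℝ K ∧ (interior K).Nonempty}

/-- The orthogonal group `O(n)`. -/
abbrev O (n : ℕ) := Matrix.orthogonalGroup (Fin n) ℝ

instance (n : ℕ) : MeasurableSpace (O n) := borel (O n)

instance (n : ℕ) : BorelSpace (O n) := ⟨rfl⟩

theorem isCompact_orthogonalGroup (n : ℕ) :
    IsCompact (Matrix.orthogonalGroup (Fin n) ℝ : Set (Matrix (Fin n) (Fin n) ℝ)) := by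
  have hcl : IsClosed (Matrix.orthogonalGroup (Fin n) ℝ : Set (Matrix (Fin n) (Fin n) ℝ)) :=
    isClosed_unitary
  have hbox : IsCompact (Set.pi Set.univ fun _ : Fin n => Set.pi Set.univ fun _ : Fin n =>
      Set.Icc (-1 : ℝ) 1) :=
    isCompact_univ_pi fun _ => isCompact_univ_pi fun _ => isCompact_Icc
  refine IsCompact.of_isClosed_subset hbox hcl ?_
  intro U hU i _ j _
  have := entry_norm_bound_of_unitary (𝕜 := ℝ) hU i j
  rw [Real.norm_eq_abs] at this
  exact abs_le.1 this

instance (n : ℕ) : CompactSpace (O n) :=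
  isCompact_iff_compactSpace.1 (isCompact_orthogonalGroup n)

/-- The Haar probability measure on `O(n)`. -/
noncomputable def haarO (n : ℕ) : Measure (O n) := Measure.haarMeasure ⊤

/-- For `g ∈ O(n)` and `E = g⁻¹(ℝʲ)`, where `ℝʲ` is spanned by the first `j` coordinate vectors,
this is the orthogonal projection `K | E`, moved to `ℝʲ` by the isometry `g` from `E` to `ℝʲ`:
the set of the vectors of the first `j` coordinates of `g x`, `x ∈ K`. -/
def shadow {n j : ℕ} (h : j ≤ n) (g : O n) (K : Set (E n)) : Set (Fin j → ℝ) :=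
  (fun (x : E n) (a : Fin j) => ∑ b, g.1 (Fin.castLE h a) b * x b) '' K

/-- The `j`-th intrinsic volume by Kubota's formula, with the normalisation of the problem: the
average over all `j`-dimensional subspaces `E` of the `j`-dimensional volume of `K | E`, divided by
the binomial coefficient. For `g` distributed according to the Haar probability measure of `O(n)`,
the subspace `g⁻¹(ℝʲ)` is distributed according to the Haar probability measure on the
Grassmannian. -/
noncomputable def intrinsicVolume {n j : ℕ} (h : j ≤ n) (K : Set (E n)) : ℝ≥0∞ :=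
  ((n.choose j : ℕ) : ℝ≥0∞)⁻¹ * ∫⁻ g, volume (shadow h g K) ∂(haarO n)

/-- `A` is invariant under the reflection `x ↦ 2 (x | H) - x` in the subspace `H`. -/
def IsSymmetricIn {n : ℕ} (H : Submodule ℝ (E n)) (A : Set (E n)) : Prop :=
  (fun x : E n => (2 : ℝ) • (H.starProjection x) - x) '' A = A

/-- `D` is a symmetrization `𝓑 → 𝓑_H` that is monotonic, `V_j`-preserving and invariant on
`H`-symmetric sets. -/
structure IsGoodSymmetrization {n j : ℕ} (h : j ≤ n) (𝓑 : Set (Set (E n)))
    (H : Submodule ℝ (E n)) (D : Set (E n) → Set (E n)) : Prop where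
  mem : ∀ K ∈ 𝓑, D K ∈ 𝓑
  symm : ∀ K ∈ 𝓑, IsSymmetricIn H (D K)
  mono : ∀ K ∈ 𝓑, ∀ L ∈ 𝓑, K ⊆ L → D K ⊆ D L
  preserving : ∀ K ∈ 𝓑, intrinsicVolume h (D K) = intrinsicVolume h K
  invariant : ∀ K ∈ 𝓑, IsSymmetricIn H K → D K = K

end Pool.Agent.Lib.MP_b62b68_gt
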