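import Mathlib
import Pool.Agent.Lib.MP_b62b68_gt.Defs

/-!
Basic facts about intrinsic volumes: monotonicity, continuity from above, and the value on subsets
of a `j`-dimensional subspace.
-/

namespace Pool.Agent.Lib.MP_b62b68_gt

open MeasureTheory Set
open scoped ENNReal

variable {n j : ℕ}

/-- The linear map behind `shadow`. -/
def proj (h : j ≤ n) (g : O n) : E n →ₗ[ℝ] (Fin j → ℝ) where
  toFun x a := ∑ b, g.1 (Fin.castLE h a) b * x b
  map_add' x y := by
    ext a
    simp only [PiLp.add_apply, Pi.add_apply, mul_add, Finset.sum_add_distrib]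
  map_smul' r x := by
    ext a
    simp only [PiLp.smul_apply, smul_eq_mul, Pi.smul_apply, RingHom.id_apply, Finset.mul_sum]
    exact Finset.sum_congr rfl fun b _ => by ring

theorem shadow_eq (h : j ≤ n) (g : O n) (K : Set (E n)) : shadow h g K = proj h g '' K := rfl

theorem shadow_mono (h : j ≤ n) (g : O n) {K L : Set (E n)} (hKL : K ⊆ L) :
    shadow h g K ⊆ shadow h g L := image_mono hKL

theorem intrinsicVolume_mono (h : j ≤ n) {K L : Set (E n)} (hKL : K ⊆ L) :
    intrinsicVolume h K ≤ intrinsicVolume h L := by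
  unfold intrinsicVolume
  exact mul_le_mul_right (lintegral_mono fun g => measure_mono (shadow_mono h g hKL)) _

theorem continuous_proj (h : j ≤ n) : Continuous fun p : O n × E n => proj h p.1 p.2 := by
  have h1 : Continuous fun p : O n × E n => (p.1.1 : Matrix (Fin n) (Fin n) ℝ) :=
    continuous_subtype_val.comp continuous_fst
  have h2 : ∀ a b, Continuous fun p : O n × E n => (p.1.1 : Matrix (Fin n) (Fin n) ℝ) a b :=
    fun a b => (continuous_apply_apply a b).comp h1
  have h3 : ∀ b, Continuous fun p : O n × E n => p.2 b := fun b => by fun_prop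
  refine continuous_pi fun a => ?_
  change Continuous fun p : O n × E n => ∑ b, p.1.1 (Fin.castLE h a) b * p.2 b
  exact continuous_finsetSum _ fun b _ => (h2 _ b).mul (h3 b)

theorem continuous_proj_right (h : j ≤ n) (g : O n) : Continuous (proj h g) :=
  (continuous_proj h).comp (Continuous.prodMk_right g)

theorem isCompact_shadow (h : j ≤ n) (g : O n) {K : Set (E n)} (hK : IsCompact K) :
    IsCompact (shadow h g K) := hK.image (continuous_proj_right h g)

theorem measurable_volume_shadow (h : j ≤ n) {K : Set (E n)} (hK : IsCompact K) :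
    Measurable fun g => volume (shadow h g K) := by
  set S : Set (O n × (Fin j → ℝ)) :=
    (fun p : O n × E n => (p.1, proj h p.1 p.2)) '' (univ ×ˢ K) with hS
  have hSc : IsCompact S := by
    refine (isCompact_univ.prod hK).image ?_
    exact continuous_fst.prodMk (continuous_proj h)
  have hSm : MeasurableSet S := hSc.measurableSet
  have h1 := measurable_measure_prodMk_left (ν := (volume : Measure (Fin j → ℝ))) hSm
  have h2 : ∀ g, (Prod.mk g ⁻¹' S) = shadow h g K := by
    intro g
    ext y
    constructor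
    · rintro ⟨⟨g', x⟩, ⟨-, hx⟩, hgx⟩
      obtain ⟨rfl, rfl⟩ := Prod.mk.inj hgx
      exact ⟨x, hx, rfl⟩
    · rintro ⟨x, hx, rfl⟩
      exact ⟨(g, x), ⟨mem_univ _, hx⟩, rfl⟩
  simpa only [h2] using h1

theorem shadow_iInter (h : j ≤ n) (g : O n) {K : ℕ → Set (E n)} (hc : ∀ k, IsCompact (K k))
    (ha : Antitone K) : shadow h g (⋂ k, K k) = ⋂ k, shadow h g (K k) := by
  apply Subset.antisymm
  · exact subset_iInter fun k => shadow_mono h g (iInter_subset _ _)
  · intro y hy
    rw [mem_iInter] at hy
    have h1 : (⋂ k, K k ∩ proj h g ⁻¹' {y}).Nonempty := by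
      have hcl : IsClosed (proj h g ⁻¹' {y}) :=
        isClosed_singleton.preimage (continuous_proj_right h g)
      apply IsCompact.nonempty_iInter_of_sequence_nonempty_isCompact_isClosed
      · intro k
        exact inter_subset_inter_left _ (ha (Nat.le_succ k))
      · intro k
        obtain ⟨x, hx, hxy⟩ := hy k
        exact ⟨x, hx, hxy⟩
      · exact (hc 0).inter_right hcl
      · exact fun k => (hc k).isClosed.inter hcl
    obtain ⟨x, hx⟩ := h1
    rw [mem_iInter] at hx
    exact ⟨x, mem_iInter.2 fun k => (hx k).1, (hx 0).2⟩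

instance isProbabilityMeasure_haarO (n : ℕ) : IsProbabilityMeasure (haarO n) := by
  constructor
  have := Measure.haarMeasure_self (K₀ := (⊤ : TopologicalSpace.PositiveCompacts (O n)))
  simpa [haarO] using this

instance isHaarMeasure_haarO (n : ℕ) : (haarO n).IsHaarMeasure := by
  unfold haarO; infer_instance

theorem lintegral_shadow_lt_top (h : j ≤ n) {K : Set (E n)} (hK : IsCompact K) :
    ∫⁻ g, volume (shadow h g K) ∂(haarO n) < ⊤ := by
  have hc : IsCompact ((fun p : O n × E n => proj h p.1 p.2) '' (univ ×ˢ K)) :=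
    (isCompact_univ.prod hK).image (continuous_proj h)
  have h1 : ∀ g, volume (shadow h g K) ≤
      volume ((fun p : O n × E n => proj h p.1 p.2) '' (univ ×ˢ K)) := by
    intro g
    apply measure_mono
    rintro _ ⟨x, hx, rfl⟩
    exact ⟨(g, x), ⟨mem_univ _, hx⟩, rfl⟩
  calc ∫⁻ g, volume (shadow h g K) ∂(haarO n) ≤
        ∫⁻ _, volume ((fun p : O n × E n => proj h p.1 p.2) '' (univ ×ˢ K)) ∂(haarO n) :=
        lintegral_mono h1
    _ = volume ((fun p : O n × E n => proj h p.1 p.2) '' (univ ×ˢ K)) := by
      rw [lintegral_const, measure_univ, mul_one]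
    _ < ⊤ := hc.measure_lt_top

theorem choose_inv_ne (h : j ≤ n) :
    ((n.choose j : ℕ) : ℝ≥0∞)⁻¹ ≠ 0 ∧ ((n.choose j : ℕ) : ℝ≥0∞)⁻¹ ≠ ⊤ := by
  constructor
  · exact ENNReal.inv_ne_zero.2 (ENNReal.natCast_ne_top _)
  · apply ENNReal.inv_ne_top.2
    exact_mod_cast (Nat.choose_pos h).ne'

/-- Continuity from above. -/
theorem intrinsicVolume_iInter (h : j ≤ n) {K : ℕ → Set (E n)} (hc : ∀ k, IsCompact (K k))
    (ha : Antitone K) : intrinsicVolume h (⋂ k, K k) = ⨅ k, intrinsicVolume h (K k) := by
  unfold intrinsicVolume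
  rw [← ENNReal.mul_iInf_of_ne (choose_inv_ne h).1 (choose_inv_ne h).2]
  congr 1
  rw [← lintegral_iInf (fun k => measurable_volume_shadow h (hc k))]
  · apply lintegral_congr
    intro g
    rw [shadow_iInter h g hc ha]
    apply Antitone.measure_iInter
    · exact fun k l hkl => shadow_mono h g (ha hkl)
    · exact fun k => (isCompact_shadow h g (hc k)).measurableSet.nullMeasurableSet
    · exact ⟨0, (isCompact_shadow h g (hc 0)).measure_lt_top.ne⟩
  · intro k l hkl g
    exact measure_mono (shadow_mono h g (ha hkl))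
  · exact (lintegral_shadow_lt_top h (hc 0)).ne

end Pool.Agent.Lib.MP_b62b68_gt
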