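import Mathlib
import Pool.Agent.Lib.MP_b62b68_gt.IntVol

/-!
The intrinsic volume `V_j` on a `j`-dimensional subspace is a positive multiple of Lebesgue
measure.
-/

namespace Pool.Agent.Lib.MP_b62b68_gt

open MeasureTheory Set
open scoped ENNReal

variable {n j : ℕ}

/-- The embedding of `ℝʲ` given by the first `j` vectors of a basis. -/
noncomputable def emb (h : j ≤ n) (v : OrthonormalBasis (Fin n) ℝ (E n)) :
    (Fin j → ℝ) →ₗ[ℝ] E n where
  toFun c := ∑ a, c a • v (Fin.castLE h a)
  map_add' c d := by simp [add_smul, Finset.sum_add_distrib]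
  map_smul' r c := by simp [Finset.smul_sum, mul_smul]

/-- The matrix of `proj ∘ emb`. -/
noncomputable def mat (h : j ≤ n) (v : OrthonormalBasis (Fin n) ℝ (E n)) (g : O n) :
    Matrix (Fin j) (Fin j) ℝ :=
  Matrix.of fun a b => ∑ k, g.1 (Fin.castLE h a) k * v (Fin.castLE h b) k

theorem proj_comp_emb (h : j ≤ n) (v : OrthonormalBasis (Fin n) ℝ (E n)) (g : O n) :
    proj h g ∘ₗ emb h v = Matrix.toLin' (mat h v g) := by
  apply LinearMap.ext
  intro c
  ext a
  rw [Matrix.toLin'_apply, LinearMap.comp_apply]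
  change ∑ k, g.1 (Fin.castLE h a) k * (∑ b, c b • v (Fin.castLE h b)) k =
    ∑ b, (mat h v g) a b * c b
  simp only [mat, Matrix.of_apply, Finset.sum_mul, WithLp.ofLp_sum, WithLp.ofLp_smul,
    Finset.sum_apply, Pi.smul_apply, smul_eq_mul, Finset.mul_sum]
  rw [Finset.sum_comm]
  exact Finset.sum_congr rfl fun b _ => Finset.sum_congr rfl fun k _ => by ring

theorem continuous_det_mat (h : j ≤ n) (v : OrthonormalBasis (Fin n) ℝ (E n)) :
    Continuous fun g : O n => (mat h v g).det := by
  apply Continuous.matrix_det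
  refine continuous_matrix fun a b => ?_
  simp only [mat, Matrix.of_apply]
  have h1 : Continuous fun g : O n => (g.1 : Matrix (Fin n) (Fin n) ℝ) := continuous_subtype_val
  have h2 : ∀ a b, Continuous fun g : O n => (g.1 : Matrix (Fin n) (Fin n) ℝ) a b :=
    fun a b => (continuous_apply_apply a b).comp h1
  exact continuous_finsetSum _ fun k _ => (h2 _ k).mul continuous_const

theorem exists_det_mat (h : j ≤ n) (v : OrthonormalBasis (Fin n) ℝ (E n)) :
    ∃ g : O n, (mat h v g).det = 1 := by
  refine ⟨⟨v.toBasis.toMatrix (EuclideanSpace.basisFun (Fin n) ℝ),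
    v.toMatrix_orthonormalBasis_mem_orthogonal (EuclideanSpace.basisFun (Fin n) ℝ)⟩, ?_⟩
  have : mat h v ⟨v.toBasis.toMatrix (EuclideanSpace.basisFun (Fin n) ℝ),
    v.toMatrix_orthonormalBasis_mem_orthogonal (EuclideanSpace.basisFun (Fin n) ℝ)⟩ = 1 := by
    ext a b
    simp only [mat, Matrix.of_apply]
    have h1 : ∀ i k : Fin n, (v.toBasis.toMatrix (EuclideanSpace.basisFun (Fin n) ℝ)) i k =
        v i k := by
      intro i k
      rw [Module.Basis.toMatrix_apply, OrthonormalBasis.coe_toBasis_repr_apply,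
        OrthonormalBasis.repr_apply_apply, EuclideanSpace.basisFun_apply,
        EuclideanSpace.inner_single_right]
      simp
    simp only [h1]
    have h2 : ∑ k, v (Fin.castLE h a) k * v (Fin.castLE h b) k =
        inner ℝ (v (Fin.castLE h a)) (v (Fin.castLE h b)) := by
      rw [PiLp.inner_apply]
      exact Finset.sum_congr rfl fun k _ => by simp [mul_comm]
    rw [h2, orthonormal_iff_ite.1 v.orthonormal, Matrix.one_apply]
    simp [Fin.ext_iff]
  rw [this, Matrix.det_one]

/-- The constant. -/
noncomputable def kappa (h : j ≤ n) (v : OrthonormalBasis (Fin n) ℝ (E n)) : ℝ≥0∞ :=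
  ((n.choose j : ℕ) : ℝ≥0∞)⁻¹ * ∫⁻ g, ENNReal.ofReal |(mat h v g).det| ∂(haarO n)

theorem kappa_ne (h : j ≤ n) (v : OrthonormalBasis (Fin n) ℝ (E n)) :
    kappa h v ≠ 0 ∧ kappa h v ≠ ⊤ := by
  have hcont : Continuous fun g : O n => |(mat h v g).det| := (continuous_det_mat h v).abs
  have hcont' : Continuous fun g : O n => ENNReal.ofReal |(mat h v g).det| :=
    ENNReal.continuous_ofReal.comp hcont
  constructor
  · unfold kappa
    apply mul_ne_zero (choose_inv_ne h).1
    rw [Ne, lintegral_eq_zero_iff hcont'.measurable]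
    intro h0
    obtain ⟨g₀, hg₀⟩ := exists_det_mat h v
    have hopen : IsOpen {g : O n | 0 < |(mat h v g).det|} := isOpen_lt continuous_const hcont
    have hpos : 0 < haarO n {g : O n | 0 < |(mat h v g).det|} :=
      hopen.measure_pos _ ⟨g₀, by simp [hg₀]⟩
    have hle : haarO n {g : O n | 0 < |(mat h v g).det|} ≤
        haarO n {g : O n | ¬ (ENNReal.ofReal |(mat h v g).det| = (0 : O n → ℝ≥0∞) g)} := by
      apply measure_mono
      intro g hg
      have hg' : 0 < |(mat h v g).det| := hg
      change ¬ (ENNReal.ofReal |(mat h v g).det| = 0)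
      rw [ENNReal.ofReal_eq_zero]
      exact not_le.2 hg'
    have h1 : haarO n {g : O n | ¬ (ENNReal.ofReal |(mat h v g).det| = (0 : O n → ℝ≥0∞) g)} = 0 :=
      ae_iff.1 h0
    rw [h1] at hle
    exact absurd hpos (not_lt.2 hle)
  · unfold kappa
    apply ENNReal.mul_ne_top (choose_inv_ne h).2
    obtain ⟨C, hC⟩ := (isCompact_univ (X := O n)).exists_bound_of_continuousOn
      hcont.continuousOn
    have : ∫⁻ g, ENNReal.ofReal |(mat h v g).det| ∂(haarO n) ≤ ENNReal.ofReal C := by
      calc _ ≤ ∫⁻ _, ENNReal.ofReal C ∂(haarO n) := by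
            apply lintegral_mono
            intro g
            apply ENNReal.ofReal_le_ofReal
            have := hC g (mem_univ _)
            rw [Real.norm_eq_abs, abs_abs] at this
            exact this
        _ = ENNReal.ofReal C := by rw [lintegral_const, measure_univ, mul_one]
    exact (this.trans_lt ENNReal.ofReal_lt_top).ne

theorem intrinsicVolume_emb (h : j ≤ n) (v : OrthonormalBasis (Fin n) ℝ (E n))
    (A : Set (Fin j → ℝ)) : intrinsicVolume h (emb h v '' A) = kappa h v * volume A := by
  unfold intrinsicVolume kappa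
  have : ∀ g, volume (shadow h g (emb h v '' A)) =
      ENNReal.ofReal |(mat h v g).det| * volume A := by
    intro g
    rw [shadow_eq, ← image_comp]
    have : (proj h g : E n → (Fin j → ℝ)) ∘ (emb h v) = Matrix.toLin' (mat h v g) := by
      rw [← proj_comp_emb]; rfl
    rw [this, Measure.addHaar_image_linearMap, LinearMap.det_toLin']
  simp only [this]
  rw [lintegral_mul_const _ (by
    exact (ENNReal.continuous_ofReal.comp (continuous_det_mat h v).abs).measurable), mul_assoc]

theorem emb_injective (h : j ≤ n) (v : OrthonormalBasis (Fin n) ℝ (E n)) :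
    Function.Injective (emb h v) := by
  rw [← LinearMap.ker_eq_bot, LinearMap.ker_eq_bot']
  intro c hc
  obtain ⟨g, hg⟩ := exists_det_mat h v
  have h1 : Matrix.toLin' (mat h v g) c = 0 := by
    rw [← proj_comp_emb, LinearMap.comp_apply, hc, map_zero]
  rw [Matrix.toLin'_apply] at h1
  exact Matrix.eq_zero_of_mulVec_eq_zero (by rw [hg]; exact one_ne_zero) h1

end Pool.Agent.Lib.MP_b62b68_gt
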