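import Mathlib
import Pool.Agent.Lib.MP_b62b68_gt.Subspace
import Pool.Agent.Lib.MP_b62b68_gt.Core

/-!
An orthonormal basis of eigenvectors of the reflection in `H`, and the embedding of
`ℝ² × ℝᵐ` that it gives.
-/

namespace Pool.Agent.Lib.MP_b62b68_gt

open MeasureTheory Set Module
open scoped ENNReal

variable {n : ℕ}

/-- The reflection in `H`. -/
noncomputable def rho (H : Submodule ℝ (E n)) : E n →ₗ[ℝ] E n :=
  (2 : ℝ) • (H.starProjection : E n →L[ℝ] E n).toLinearMap - LinearMap.id

theorem rho_apply (H : Submodule ℝ (E n)) (x : E n) :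
    rho H x = (2 : ℝ) • (H.starProjection x) - x := rfl

theorem rho_eq_reflection (H : Submodule ℝ (E n)) (x : E n) : rho H x = H.reflection x := by
  rw [rho_apply, Submodule.reflection_apply]
  congr 1
  exact (Nat.cast_smul_eq_nsmul ℝ 2 _)

theorem isSymmetricIn_iff (H : Submodule ℝ (E n)) (A : Set (E n)) :
    IsSymmetricIn H A ↔ H.reflection '' A = A := by
  unfold IsSymmetricIn
  have : (fun x : E n => (2 : ℝ) • (H.starProjection x) - x) = H.reflection := by
    funext x
    rw [← rho_eq_reflection, rho_apply]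
  rw [this]

theorem exists_basis (H : Submodule ℝ (E n)) (hH : finrank ℝ H + 2 ≤ n) :
    ∃ (v : OrthonormalBasis (Fin n) ℝ (E n)) (s : Fin n → ℝ), (∀ a, s a = 1 ∨ s a = -1) ∧
      (∀ a : Fin n, a.val < 2 → s a = -1) ∧ ∀ a, rho H (v a) = s a • v a := by
  have hn : finrank ℝ (E n) = n := by simp
  have hsum : finrank ℝ H + finrank ℝ Hᗮ = n := by
    rw [Submodule.finrank_add_finrank_orthogonal, hn]
  set i := finrank ℝ H with hi
  set k := finrank ℝ Hᗮ with hk
  let bH : OrthonormalBasis (Fin i) ℝ H := stdOrthonormalBasis ℝ H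
  let bP : OrthonormalBasis (Fin k) ℝ Hᗮ := stdOrthonormalBasis ℝ Hᗮ
  let f : Fin k ⊕ Fin i → E n := Sum.elim (fun a => (bP a : E n)) (fun a => (bH a : E n))
  have hf : Orthonormal ℝ f := by
    rw [orthonormal_iff_ite]
    rintro (a | a) (b | b)
    · have := orthonormal_iff_ite.1 bP.orthonormal a b
      simp only [f, Sum.elim_inl, Sum.inl.injEq]
      exact this
    · simp only [f, Sum.elim_inl, Sum.elim_inr, reduceCtorEq, if_false]
      exact Submodule.inner_left_of_mem_orthogonal (bH b).2 (bP a).2
    · simp only [f, Sum.elim_inl, Sum.elim_inr, reduceCtorEq, if_false]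
      exact Submodule.inner_right_of_mem_orthogonal (bH a).2 (bP b).2
    · have := orthonormal_iff_ite.1 bH.orthonormal a b
      simp only [f, Sum.elim_inr, Sum.inr.injEq]
      exact this
  have hspan : ⊤ ≤ Submodule.span ℝ (Set.range f) := by
    have hcard : Fintype.card (Fin k ⊕ Fin i) = finrank ℝ (E n) := by
      rw [Fintype.card_sum, Fintype.card_fin, Fintype.card_fin, hn]; omega
    exact (hf.linearIndependent.span_eq_top_of_card_eq_finrank' hcard).ge
  let u : OrthonormalBasis (Fin k ⊕ Fin i) ℝ (E n) := OrthonormalBasis.mk hf hspan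
  let e : Fin k ⊕ Fin i ≃ Fin n := finSumFinEquiv.trans (finCongr (by omega))
  refine ⟨u.reindex e, fun a => if a.val < k then -1 else 1, ?_, ?_, ?_⟩
  · intro a
    by_cases h : a.val < k <;> simp [h]
  · intro a ha
    change (if a.val < k then (-1 : ℝ) else 1) = -1
    rw [if_pos (by omega)]
  · intro a
    obtain ⟨b, rfl⟩ := e.surjective a
    rw [OrthonormalBasis.reindex_apply, Equiv.symm_apply_apply]
    rw [OrthonormalBasis.coe_mk]
    rcases b with b | b
    · have hv : (e (Sum.inl b)).val < k := by simp [e]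
      change rho H (f (Sum.inl b)) =
        (if (e (Sum.inl b)).val < k then (-1 : ℝ) else 1) • f (Sum.inl b)
      rw [if_pos hv, rho_eq_reflection]
      have : f (Sum.inl b) ∈ Hᗮ := (bP b).2
      rw [Submodule.reflection_mem_subspace_orthogonalComplement_eq_neg this]
      simp
    · have hv : ¬ (e (Sum.inr b)).val < k := by simp [e]
      change rho H (f (Sum.inr b)) =
        (if (e (Sum.inr b)).val < k then (-1 : ℝ) else 1) • f (Sum.inr b)
      rw [if_neg hv, rho_eq_reflection]
      have : f (Sum.inr b) ∈ H := (bH b).2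
      rw [Submodule.reflection_mem_subspace_eq_self this, one_smul]

/-- The coordinates of `ℝ² × ℝᵐ`. -/
def coord (m : ℕ) : ((ℝ × ℝ) × (Fin m → ℝ)) ≃ₗ[ℝ] (Fin (m + 2) → ℝ) where
  toFun x := Fin.cons x.1.1 (Fin.cons x.1.2 x.2)
  invFun c := ((c 0, c 1), fun k => c k.succ.succ)
  left_inv x := by
    ext k
    · simp
    · simp
    · simp
  right_inv c := by
    ext k
    refine Fin.cases ?_ (fun k => ?_) k
    · simp
    · refine Fin.cases ?_ (fun k => ?_) k <;> simp
  map_add' x y := by
    ext k
    refine Fin.cases ?_ (fun k => ?_) k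
    · simp
    · refine Fin.cases ?_ (fun k => ?_) k <;> simp
  map_smul' r x := by
    ext k
    refine Fin.cases ?_ (fun k => ?_) k
    · simp
    · refine Fin.cases ?_ (fun k => ?_) k <;> simp

theorem exists_scalar (m : ℕ) : ∃ c : ℝ≥0∞, c ≠ 0 ∧ c ≠ ⊤ ∧
    ∀ A : Set ((ℝ × ℝ) × (Fin m → ℝ)), IsCompact A → volume (coord m '' A) = c * volume A := by
  have hHaar : (volume : Measure ((ℝ × ℝ) × (Fin m → ℝ))).IsAddHaarMeasure :=
    Measure.prod.instIsAddHaarMeasure _ _
  have hcont : Continuous (coord m) := (coord m).toLinearMap.continuous_of_finiteDimensional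
  set ν : Measure (Fin (m + 2) → ℝ) := Measure.map (coord m) volume with hν
  have hcont' : Continuous (coord m).symm :=
    (coord m).symm.toLinearMap.continuous_of_finiteDimensional
  have hνH : ν.IsAddHaarMeasure :=
    AddEquiv.isAddHaarMeasure_map volume (coord m).toAddEquiv hcont hcont'
  refine ⟨Measure.addHaarScalarFactor volume ν, ?_, ENNReal.coe_ne_top, ?_⟩
  · exact_mod_cast (Measure.addHaarScalarFactor_pos_of_isAddHaarMeasure _ _).ne'
  · intro A hA
    have h1 : (volume : Measure (Fin (m + 2) → ℝ)) = Measure.addHaarScalarFactor volume ν • ν :=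
      Measure.isAddLeftInvariant_eq_smul _ _
    have h2 : ν (coord m '' A) = volume A := by
      rw [hν, Measure.map_apply hcont.measurable (hA.image hcont).measurableSet,
        (coord m).injective.preimage_image]
    conv_lhs => rw [h1]
    rw [Measure.smul_apply, h2]
    rfl

end Pool.Agent.Lib.MP_b62b68_gt
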