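import Mathlib

/-!
Continuity of the volume of linear images of a convex body, and an upper bound for the volume of
the image of a cube in `ℝ^{j+1}` under a linear map to `ℝ^j`.
-/

namespace Pool.Agent.Lib.MP_b62b68_gt

open MeasureTheory Set Filter
open scoped ENNReal Topology Pointwise

section

variable {F G : Type*} [NormedAddCommGroup F] [NormedSpace ℝ F] [FiniteDimensional ℝ F]
  [NormedAddCommGroup G] [NormedSpace ℝ G] [FiniteDimensional ℝ G] [MeasurableSpace G]
  [BorelSpace G]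

theorem smul_image_subset {T₀ T : F →ₗ[ℝ] G} {K : Set F} (hc : IsCompact K) (hv : Convex ℝ K)
    (hn : K.Nonempty) {c : ℝ} (hc0 : 0 ≤ c) (hc1 : c ≤ 1)
    (h : ∀ x ∈ K, ∃ w ∈ K, T₀ x - T x = c • T₀ w) :
    (1 - c) • (T₀ '' K) ⊆ T '' K := by
  intro q hq
  by_contra hcon
  obtain ⟨_, ⟨x, hx, rfl⟩, rfl⟩ := hq
  have hTK : IsCompact (T '' K) := hc.image T.continuous_of_finiteDimensional
  have hTv : Convex ℝ (T '' K) := hv.linear_image T
  obtain ⟨f, u, hf, hu⟩ := geometric_hahn_banach_closed_point hTv hTK.isClosed hcon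
  obtain ⟨y, hy, hmax⟩ := hc.exists_isMaxOn hn
    (f := fun y => f (T₀ y)) (f.continuous.comp T₀.continuous_of_finiteDimensional).continuousOn
  obtain ⟨w, hw, hwy⟩ := h y hy
  have h1 : f (T₀ y) - f (T y) = c * f (T₀ w) := by
    rw [← map_sub, hwy, map_smul, smul_eq_mul]
  have h2 : f (T₀ w) ≤ f (T₀ y) := hmax hw
  have h3 : f (T₀ x) ≤ f (T₀ y) := hmax hx
  have h4 := hf (T y) ⟨y, hy, rfl⟩
  change u < f ((1 - c) • T₀ x) at hu
  rw [map_smul, smul_eq_mul] at hu
  have h5 : c * f (T₀ w) ≤ c * f (T₀ y) := mul_le_mul_of_nonneg_left h2 hc0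
  have h6 : (1 - c) * f (T₀ x) ≤ (1 - c) * f (T₀ y) :=
    mul_le_mul_of_nonneg_left h3 (by linarith)
  linarith

theorem tendsto_volume_image (μ : Measure G) [μ.IsAddHaarMeasure] (T₀ R : F →ₗ[ℝ] G)
    (hT₀ : Function.Surjective T₀) {K : Set F} (hc : IsCompact K) (hv : Convex ℝ K)
    (h0 : (0 : F) ∈ interior K) :
    Tendsto (fun k : ℕ => μ ((T₀ + (1 / ((k : ℝ) + 1)) • R) '' K)) atTop (𝓝 (μ (T₀ '' K))) := by
  have hn : K.Nonempty := ⟨0, interior_subset h0⟩
  have hT₀c : Continuous T₀ := T₀.continuous_of_finiteDimensional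
  have hRc : Continuous R := R.continuous_of_finiteDimensional
  obtain ⟨C', hC'⟩ := hc.exists_bound_of_continuousOn hRc.continuousOn
  set C := max C' 1 with hC
  have hC1 : 0 < C := lt_of_lt_of_le one_pos (le_max_right _ _)
  have hCb : ∀ x ∈ K, ‖R x‖ ≤ C := fun x hx => (hC' x hx).trans (le_max_left _ _)
  have hcomp : IsCompact (T₀ '' K) := hc.image hT₀c
  have heps : Tendsto (fun k : ℕ => 1 / ((k : ℝ) + 1)) atTop (𝓝 0) :=
    tendsto_one_div_add_atTop_nhds_zero_nat
  -- the upper bound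
  have hup : Tendsto (fun k : ℕ => μ (Metric.cthickening (1 / ((k : ℝ) + 1) * C) (T₀ '' K))) atTop
      (𝓝 (μ (T₀ '' K))) := by
    have h1 := tendsto_measure_cthickening_of_isCompact (μ := μ) hcomp
    have h2 : Tendsto (fun k : ℕ => 1 / ((k : ℝ) + 1) * C) atTop (𝓝 0) := by
      simpa using heps.mul_const C
    exact h1.comp h2
  have hle : ∀ k : ℕ, μ ((T₀ + (1 / ((k : ℝ) + 1)) • R) '' K) ≤
      μ (Metric.cthickening (1 / ((k : ℝ) + 1) * C) (T₀ '' K)) := by
    intro k
    apply measure_mono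
    rintro _ ⟨x, hx, rfl⟩
    refine Metric.mem_cthickening_of_dist_le _ (T₀ x) _ _ (mem_image_of_mem _ hx) ?_
    rw [LinearMap.add_apply, LinearMap.smul_apply, dist_eq_norm, add_sub_cancel_left, norm_smul,
      Real.norm_of_nonneg (by positivity)]
    exact mul_le_mul_of_nonneg_left (hCb x hx) (by positivity)
  -- the lower bound
  obtain ⟨r, hr, hball⟩ : ∃ r > 0, Metric.closedBall (0 : G) r ⊆ T₀ '' K := by
    have hopen : IsOpenMap T₀ := by
      have := (LinearMap.toContinuousLinearMap T₀).isOpenMap hT₀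
      exact this
    have h1 : T₀ '' interior K ∈ 𝓝 (0 : G) := by
      have := (hopen _ isOpen_interior).mem_nhds ⟨0, h0, map_zero T₀⟩
      exact this
    obtain ⟨r, hr, hr'⟩ := Metric.nhds_basis_closedBall.mem_iff.1 h1
    exact ⟨r, hr, hr'.trans (image_mono interior_subset)⟩
  set c := C / r with hcdef
  have hcpos : 0 < c := div_pos hC1 hr
  have hlow : Tendsto (fun k : ℕ => μ ((1 - 1 / ((k : ℝ) + 1) * c) • (T₀ '' K))) atTop
      (𝓝 (μ (T₀ '' K))) := by
    have h1 : ∀ k : ℕ, μ ((1 - 1 / ((k : ℝ) + 1) * c) • (T₀ '' K)) =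
        ENNReal.ofReal |(1 - 1 / ((k : ℝ) + 1) * c) ^ Module.finrank ℝ G| * μ (T₀ '' K) :=
      fun k => Measure.addHaar_smul μ _ _
    simp only [h1]
    have h2 : Tendsto (fun k : ℕ => |(1 - 1 / ((k : ℝ) + 1) * c) ^ Module.finrank ℝ G|) atTop
        (𝓝 1) := by
      have := (((heps.mul_const c).const_sub 1).pow (Module.finrank ℝ G)).abs
      simpa using this
    have h3 := ENNReal.tendsto_ofReal h2
    rw [ENNReal.ofReal_one] at h3
    have hfin : μ (T₀ '' K) ≠ ⊤ := hcomp.measure_lt_top.ne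
    have h4 := ENNReal.Tendsto.mul_const (b := μ (T₀ '' K)) h3 (Or.inr hfin)
    simpa using h4
  have hge : ∀ᶠ k : ℕ in atTop, μ ((1 - 1 / ((k : ℝ) + 1) * c) • (T₀ '' K)) ≤
      μ ((T₀ + (1 / ((k : ℝ) + 1)) • R) '' K) := by
    have h1 : ∀ᶠ k : ℕ in atTop, 1 / ((k : ℝ) + 1) * c < 1 := by
      have : Tendsto (fun k : ℕ => 1 / ((k : ℝ) + 1) * c) atTop (𝓝 0) := by
        simpa using heps.mul_const c
      exact this.eventually_lt_const one_pos
    filter_upwards [h1] with k hk
    apply measure_mono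
    set ε := 1 / ((k : ℝ) + 1) with hε
    have hεpos : 0 < ε := by positivity
    apply smul_image_subset hc hv hn (mul_nonneg hεpos.le hcpos.le) hk.le
    intro x hx
    have h2 : -((c⁻¹) • R x) ∈ Metric.closedBall (0 : G) r := by
      rw [mem_closedBall_zero_iff, norm_neg, norm_smul, Real.norm_of_nonneg (by positivity),
        hcdef, inv_div, div_mul_eq_mul_div, div_le_iff₀ hC1]
      exact mul_le_mul_of_nonneg_left (hCb x hx) hr.le
    obtain ⟨w, hw, hwx⟩ := hball h2
    refine ⟨w, hw, ?_⟩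
    rw [hwx, LinearMap.add_apply, LinearMap.smul_apply, smul_neg, smul_smul, mul_assoc,
      mul_inv_cancel₀ hcpos.ne', mul_one]
    abel
  exact tendsto_of_tendsto_of_tendsto_of_le_of_le' hlow hup hge (Eventually.of_forall hle)

end

/-- The volume of the image of a cube. -/
theorem volume_image_cube_le {j : ℕ} (M : Matrix (Fin j) (Fin (j + 1)) ℝ) (Q : ℝ) :
    volume ((fun p : Fin (j + 1) → ℝ => M.mulVec p) '' Icc (fun _ => -Q) (fun _ => Q)) ≤
      ∑ i : Fin (j + 1), 2 * (ENNReal.ofReal |(M.submatrix id i.succAbove).det| *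
        ENNReal.ofReal (2 * Q) ^ j) := by
  -- every point of the image is the image of a point of a facet
  have hsub : (fun p : Fin (j + 1) → ℝ => M.mulVec p) '' Icc (fun _ => -Q) (fun _ => Q) ⊆
      ⋃ i : Fin (j + 1), (((fun q : Fin j → ℝ => Q • (fun a => M a i) +
        (M.submatrix id i.succAbove).mulVec q) '' Icc (fun _ => -Q) (fun _ => Q)) ∪
        ((fun q : Fin j → ℝ => (-Q) • (fun a => M a i) +
        (M.submatrix id i.succAbove).mulVec q) '' Icc (fun _ => -Q) (fun _ => Q))) := by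
    rintro _ ⟨p, hp, rfl⟩
    obtain ⟨κ, hκ0, hκ⟩ : ∃ κ : Fin (j + 1) → ℝ, κ ≠ 0 ∧ M.mulVec κ = 0 := by
      have h1 : ¬ Function.Injective (Matrix.mulVecLin M) := by
        intro hinj
        have := LinearMap.finrank_le_finrank_of_injective hinj
        simp at this
      rw [← LinearMap.ker_eq_bot] at h1
      obtain ⟨κ, hκ, hκ0⟩ := Submodule.exists_mem_ne_zero_of_ne_bot h1
      exact ⟨κ, hκ0, hκ⟩
    -- the last point of the cube on the line
    set T : Set ℝ := {t | p + t • κ ∈ Icc (fun _ : Fin (j + 1) => -Q) (fun _ => Q)} with hT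
    have hTc : IsClosed T := isClosed_Icc.preimage (by fun_prop)
    have hT0 : (0 : ℝ) ∈ T := by
      change p + (0 : ℝ) • κ ∈ Icc (fun _ : Fin (j + 1) => -Q) (fun _ => Q)
      rw [zero_smul, add_zero]; exact hp
    obtain ⟨i₀, hi₀⟩ : ∃ i, κ i ≠ 0 := by
      by_contra hcon
      push Not at hcon
      exact hκ0 (funext hcon)
    have hTb : T ⊆ Icc (-(2 * Q / |κ i₀|)) (2 * Q / |κ i₀|) := by
      intro t ht
      have h1 := ht.1 i₀
      have h2 := ht.2 i₀
      have h3 := hp.1 i₀
      have h4 := hp.2 i₀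
      simp only [Pi.add_apply, Pi.smul_apply, smul_eq_mul] at h1 h2 h3 h4
      have hpos : 0 < |κ i₀| := abs_pos.2 hi₀
      have h5 : |t| * |κ i₀| ≤ 2 * Q := by
        rw [← abs_mul, abs_le]; constructor <;> linarith
      rw [mem_Icc, ← abs_le, le_div_iff₀ hpos]
      exact h5
    have hTcomp : IsCompact T := isCompact_Icc.of_isClosed_subset hTc hTb
    obtain ⟨t, htT, htmax⟩ := hTcomp.exists_isMaxOn ⟨0, hT0⟩ continuousOn_id
    obtain ⟨i, hi⟩ : ∃ i, (p + t • κ) i = Q ∨ (p + t • κ) i = -Q := by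
      by_contra hcon
      push Not at hcon
      have hlt : ∀ i, -Q < (p + t • κ) i ∧ (p + t • κ) i < Q := fun i =>
        ⟨lt_of_le_of_ne (htT.1 i) (hcon i).2.symm, lt_of_le_of_ne (htT.2 i) (hcon i).1⟩
      have hev : ∀ᶠ t' in 𝓝 t, ∀ i, -Q < (p + t' • κ) i ∧ (p + t' • κ) i < Q := by
        rw [eventually_all]
        intro i
        have hc1 : ContinuousAt (fun t' : ℝ => (p + t' • κ) i) t := by
          simp only [Pi.add_apply, Pi.smul_apply, smul_eq_mul]; fun_prop
        exact (hc1.eventually (lt_mem_nhds (hlt i).1)).and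
          (hc1.eventually (gt_mem_nhds (hlt i).2))
      obtain ⟨ε, hε, hεb⟩ := Metric.eventually_nhds_iff.1 hev
      have h1 := hεb (y := t + ε / 2) (by
        rw [Real.dist_eq, add_sub_cancel_left, abs_of_pos (by linarith)]; linarith)
      have h2 : t + ε / 2 ∈ T := ⟨fun i => (h1 i).1.le, fun i => (h1 i).2.le⟩
      have h3 : t + ε / 2 ≤ t := htmax h2
      linarith
    set q : Fin (j + 1) → ℝ := p + t • κ with hq
    have hMq : M.mulVec p = M.mulVec q := by
      rw [hq, Matrix.mulVec_add, Matrix.mulVec_smul, hκ, smul_zero, add_zero]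
    have hsplit : M.mulVec q = q i • (fun a => M a i) +
        (M.submatrix id i.succAbove).mulVec (fun b => q (i.succAbove b)) := by
      ext a
      simp only [Matrix.mulVec, dotProduct, Pi.add_apply, Pi.smul_apply, smul_eq_mul,
        Matrix.submatrix_apply, id]
      rw [Fin.sum_univ_succAbove _ i]
      ring
    have hq' : (fun b => q (i.succAbove b)) ∈ Icc (fun _ : Fin j => -Q) (fun _ => Q) :=
      ⟨fun b => htT.1 _, fun b => htT.2 _⟩
    rw [mem_iUnion]
    refine ⟨i, ?_⟩
    rcases hi with h | h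
    · left
      refine ⟨_, hq', ?_⟩
      change Q • (fun a => M a i) + _ = M.mulVec p
      rw [hMq, hsplit, h]
    · right
      refine ⟨_, hq', ?_⟩
      change (-Q) • (fun a => M a i) + _ = M.mulVec p
      rw [hMq, hsplit, h]
  refine (measure_mono hsub).trans ((measure_iUnion_fintype_le _ _).trans ?_)
  apply Finset.sum_le_sum
  intro i _
  refine (measure_union_le _ _).trans ?_
  have hvol : ∀ v : Fin j → ℝ, volume ((fun q : Fin j → ℝ => v +
      (M.submatrix id i.succAbove).mulVec q) '' Icc (fun _ => -Q) (fun _ => Q)) =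
      ENNReal.ofReal |(M.submatrix id i.succAbove).det| * ENNReal.ofReal (2 * Q) ^ j := by
    intro v
    have h1 : (fun q : Fin j → ℝ => v + (M.submatrix id i.succAbove).mulVec q) ''
        Icc (fun _ => -Q) (fun _ => Q) = (fun x => v + x) ''
        (Matrix.toLin' (M.submatrix id i.succAbove) '' Icc (fun _ => -Q) (fun _ => Q)) := by
      rw [← image_comp]; rfl
    rw [h1, image_add_left, measure_preimage_add, Measure.addHaar_image_linearMap,
      LinearMap.det_toLin', Real.volume_Icc_pi]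
    congr 1
    simp only [sub_neg_eq_add, Finset.prod_const, Finset.card_univ, Fintype.card_fin]
    rw [two_mul]
  rw [hvol, hvol, ← two_mul]

end Pool.Agent.Lib.MP_b62b68_gt
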