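import Mathlib
import Pool.Agent.Lib.MP_b62b68_gt.Basis
import Pool.Agent.Lib.MP_b62b68_gt.LinLimit

/-!
The limit of the normalised volumes of the images of a convex body in `ℝ^{j+1}` under the linear
maps `(t, ((z, s), y)) ↦ A (z, ε s, y) + ε t b` to `ℝ^j`.
-/

namespace Pool.Agent.Lib.MP_b62b68_gt

open MeasureTheory Set Filter
open scoped ENNReal Topology

variable {m : ℕ}

/-- The space `ℝ² × ℝᵐ` with coordinates `((z, s), y)`. -/
abbrev GG (m : ℕ) := (ℝ × ℝ) × (Fin m → ℝ)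

/-- The space `ℝ × (ℝ² × ℝᵐ)` with coordinates `(t, ((z, s), y))`. -/
abbrev FF (m : ℕ) := ℝ × GG m

/-- The linear map `(t, ((z, s), y)) ↦ A (z, ε s, y) + ε t b`. -/
def Lam (A : Matrix (Fin (m + 2)) (Fin (m + 2)) ℝ) (b : Fin (m + 2) → ℝ) (ε : ℝ) :
    FF m →ₗ[ℝ] (Fin (m + 2) → ℝ) where
  toFun p := A.mulVec (coord m ((p.2.1.1, ε * p.2.1.2), p.2.2)) + (ε * p.1) • b
  map_add' p q := by
    have : coord m (((p + q).2.1.1, ε * (p + q).2.1.2), (p + q).2.2) =
        coord m ((p.2.1.1, ε * p.2.1.2), p.2.2) + coord m ((q.2.1.1, ε * q.2.1.2), q.2.2) := by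
      rw [← map_add]; congr 1
      ext <;> simp [mul_add]
    rw [this, Matrix.mulVec_add, Prod.fst_add, mul_add, add_smul]
    abel
  map_smul' r p := by
    have : coord m (((r • p).2.1.1, ε * (r • p).2.1.2), (r • p).2.2) =
        r • coord m ((p.2.1.1, ε * p.2.1.2), p.2.2) := by
      rw [← map_smul]; congr 1
      ext <;> simp; ring
    rw [this, Matrix.mulVec_smul, RingHom.id_apply, smul_add, smul_smul, Prod.smul_fst,
      smul_eq_mul]
    congr 2
    ring

/-- The linear map `(t, ((z, s), y)) ↦ ((z, a₁ s + a₂ t), y)`. -/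
def piA (a : ℝ × ℝ) : FF m →ₗ[ℝ] GG m where
  toFun p := ((p.2.1.1, a.1 * p.2.1.2 + a.2 * p.1), p.2.2)
  map_add' p q := by
    ext <;> simp; ring
  map_smul' r p := by
    ext <;> simp; ring

theorem piA_apply (a : ℝ × ℝ) (p : FF m) :
    piA a p = ((p.2.1.1, a.1 * p.2.1.2 + a.2 * p.1), p.2.2) := rfl

/-- The diagonal matrix `diag(1, r, 1, …, 1)`. -/
def dg (m : ℕ) (r : ℝ) : Matrix (Fin (m + 2)) (Fin (m + 2)) ℝ :=
  Matrix.diagonal (Fin.cons 1 (Fin.cons r fun _ => 1))

theorem det_dg (r : ℝ) : (dg m r).det = r := by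
  unfold dg
  rw [Matrix.det_diagonal, Fin.prod_univ_succ, Fin.prod_univ_succ]
  simp

theorem dg_coord (r z s : ℝ) (y : Fin m → ℝ) :
    (dg m r).mulVec (coord m ((z, s), y)) = coord m ((z, r * s), y) := by
  ext k
  unfold dg
  rw [Matrix.mulVec_diagonal]
  refine Fin.cases ?_ (fun k => ?_) k
  · simp [coord]
  · refine Fin.cases ?_ (fun k => ?_) k
    · simp [coord]
    · simp [coord]

/-- The limit map in the main case. -/
noncomputable def T0 (m : ℕ) (c : ℝ) : FF m →ₗ[ℝ] GG m := piA (1, c)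

/-- The correction. -/
def RR (κ : GG m) : FF m →ₗ[ℝ] GG m where
  toFun p := p.1 • κ
  map_add' p q := by rw [Prod.fst_add, add_smul]
  map_smul' r p := by rw [Prod.smul_fst, RingHom.id_apply, smul_smul, smul_eq_mul]

theorem piA_surjective {a : ℝ × ℝ} (ha : a.1 ≠ 0) : Function.Surjective (piA (m := m) a) := by
  rintro ⟨⟨z, s⟩, y⟩
  refine ⟨(0, ((z, a.1⁻¹ * s), y)), ?_⟩
  rw [piA_apply]
  simp [ha]

theorem tendsto_Lam_of_det_ne (A : Matrix (Fin (m + 2)) (Fin (m + 2)) ℝ) (b : Fin (m + 2) → ℝ)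
    (hA : A.det ≠ 0) {K : Set (FF m)} (hc : IsCompact K) (hv : Convex ℝ K)
    (h0 : (0 : FF m) ∈ interior K) :
    Tendsto (fun k : ℕ => ENNReal.ofReal ((k : ℝ) + 1) *
      volume (Lam A b (1 / ((k : ℝ) + 1)) '' K)) atTop
      (𝓝 (volume (coord m '' (piA (A.det, (A.updateCol 1 b).det) '' K)))) := by
  set D := A.det with hD
  set κ : Fin (m + 2) → ℝ := A.cramer b with hκ
  have hκA : A.mulVec κ = D • b := A.mulVec_cramer b
  have hκ1 : κ 1 = (A.updateCol 1 b).det := A.cramer_apply b 1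
  set κ₀ : GG m := (((κ 0) / D, 0), fun k => κ k.succ.succ / D) with hκ₀
  -- factorisation
  have hfac : ∀ ε : ℝ, (Lam A b ε : FF m → (Fin (m + 2) → ℝ)) =
      (Matrix.toLin' (A * dg m ε)) ∘ (((coord m).toLinearMap ∘ₗ T0 m (κ 1 / D) +
        ε • ((coord m).toLinearMap ∘ₗ RR κ₀) : FF m →ₗ[ℝ] (Fin (m + 2) → ℝ))) := by
    intro ε
    funext p
    obtain ⟨t, ⟨⟨z, s⟩, y⟩⟩ := p
    have h1 : (((coord m).toLinearMap ∘ₗ T0 m (κ 1 / D) +
        ε • ((coord m).toLinearMap ∘ₗ RR κ₀) : FF m →ₗ[ℝ] (Fin (m + 2) → ℝ))) (t, ((z, s), y)) =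
        coord m ((z + ε * (t * (κ 0 / D)), s + (κ 1 / D) * t),
          fun k => y k + ε * (t * (κ k.succ.succ / D))) := by
      rw [LinearMap.add_apply, LinearMap.smul_apply, LinearMap.comp_apply, LinearMap.comp_apply]
      change coord m _ + ε • coord m _ = coord m _
      rw [← map_smul, ← map_add]
      congr 1
      ext <;> simp [T0, piA, RR, hκ₀]
    rw [Function.comp_apply, h1, Matrix.toLin'_apply, ← Matrix.mulVec_mulVec, dg_coord]
    change A.mulVec (coord m ((z, ε * s), y)) + (ε * t) • b = _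
    have h2 : b = A.mulVec (D⁻¹ • κ) := by
      rw [Matrix.mulVec_smul, hκA, smul_smul, inv_mul_cancel₀ hA, one_smul]
    rw [h2, ← Matrix.mulVec_smul, ← Matrix.mulVec_add]
    congr 1
    ext k
    refine Fin.cases ?_ (fun k => ?_) k
    · simp [coord]; ring
    · refine Fin.cases ?_ (fun k => ?_) k
      · simp [coord]; ring
      · simp [coord]; ring
  have hvol : ∀ k : ℕ, ENNReal.ofReal ((k : ℝ) + 1) * volume (Lam A b (1 / ((k : ℝ) + 1)) '' K) =
      ENNReal.ofReal |D| * volume (((coord m).toLinearMap ∘ₗ T0 m (κ 1 / D) +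
        (1 / ((k : ℝ) + 1)) • ((coord m).toLinearMap ∘ₗ RR κ₀) :
          FF m →ₗ[ℝ] (Fin (m + 2) → ℝ)) '' K) := by
    intro k
    have hk : (0 : ℝ) < (k : ℝ) + 1 := by positivity
    rw [hfac, image_comp, Measure.addHaar_image_linearMap, LinearMap.det_toLin', Matrix.det_mul,
      det_dg, ← mul_assoc, ← ENNReal.ofReal_mul hk.le, abs_mul, abs_of_pos (by positivity :
        (0 : ℝ) < 1 / ((k : ℝ) + 1)), ← hD]
    congr 2
    field_simp
  simp only [hvol]
  have hlim : volume (coord m '' (piA (D, (A.updateCol 1 b).det) '' K)) =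
      ENNReal.ofReal |D| * volume (((coord m).toLinearMap ∘ₗ T0 m (κ 1 / D) :
        FF m →ₗ[ℝ] (Fin (m + 2) → ℝ)) '' K) := by
    have h1 : coord m '' (piA (D, (A.updateCol 1 b).det) '' K) =
        Matrix.toLin' (dg m D) '' (((coord m).toLinearMap ∘ₗ T0 m (κ 1 / D) :
        FF m →ₗ[ℝ] (Fin (m + 2) → ℝ)) '' K) := by
      rw [← image_comp, ← image_comp]
      apply image_congr
      rintro ⟨t, ⟨⟨z, s⟩, y⟩⟩ -
      change coord m (piA (D, (A.updateCol 1 b).det) (t, ((z, s), y))) =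
        (dg m D).mulVec (coord m (T0 m (κ 1 / D) (t, ((z, s), y))))
      rw [T0, piA_apply, piA_apply, dg_coord]
      congr 3
      rw [hκ1]
      simp only
      field_simp
    rw [h1, Measure.addHaar_image_linearMap, LinearMap.det_toLin', det_dg]
  rw [hlim]
  apply ENNReal.Tendsto.const_mul _ (Or.inr ENNReal.ofReal_ne_top)
  apply tendsto_volume_image volume _ _ _ hc hv h0
  exact (coord m).surjective.comp (piA_surjective (by simp))

/-- The map that exchanges `t` and `s`. -/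
def swp (m : ℕ) : FF m ≃ₗ[ℝ] FF m where
  toFun p := (p.2.1.2, ((p.2.1.1, p.1), p.2.2))
  invFun p := (p.2.1.2, ((p.2.1.1, p.1), p.2.2))
  left_inv _ := rfl
  right_inv _ := rfl
  map_add' _ _ := rfl
  map_smul' _ _ := rfl

theorem tendsto_Lam_of_det_ne' (A : Matrix (Fin (m + 2)) (Fin (m + 2)) ℝ) (b : Fin (m + 2) → ℝ)
    (hA : (A.updateCol 1 b).det ≠ 0) {K : Set (FF m)} (hc : IsCompact K) (hv : Convex ℝ K)
    (h0 : (0 : FF m) ∈ interior K) :
    Tendsto (fun k : ℕ => ENNReal.ofReal ((k : ℝ) + 1) *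
      volume (Lam A b (1 / ((k : ℝ) + 1)) '' K)) atTop
      (𝓝 (volume (coord m '' (piA (A.det, (A.updateCol 1 b).det) '' K)))) := by
  have hcont : Continuous (swp m) := (swp m).toLinearMap.continuous_of_finiteDimensional
  have hK0 : (0 : FF m) ∈ interior (swp m '' K) := by
    have hopen : IsOpenMap (swp m) :=
      (LinearMap.toContinuousLinearMap (swp m).toLinearMap).isOpenMap (swp m).surjective
    exact hopen.image_interior_subset K ⟨0, h0, map_zero _⟩
  have h := tendsto_Lam_of_det_ne (A.updateCol 1 b) (fun a => A a 1) hA (hc.image hcont)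
    (hv.linear_image (swp m).toLinearMap) hK0
  have h1 : (A.updateCol 1 b).updateCol 1 (fun a => A a 1) = A := by
    ext i k
    by_cases hk : k = 1
    · subst hk; simp
    · simp [Matrix.updateCol_ne hk]
  rw [h1] at h
  have h2 : ∀ ε : ℝ, Lam (A.updateCol 1 b) (fun a => A a 1) ε '' (swp m '' K) =
      Lam A b ε '' K := by
    intro ε
    rw [← image_comp]
    apply image_congr
    rintro ⟨t, ⟨⟨z, s⟩, y⟩⟩ -
    change (A.updateCol 1 b).mulVec (coord m ((z, ε * t), y)) + (ε * s) • (fun a => A a 1) =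
      A.mulVec (coord m ((z, ε * s), y)) + (ε * t) • b
    ext a
    simp only [Matrix.mulVec, dotProduct, Pi.add_apply, Pi.smul_apply, smul_eq_mul]
    rw [Fin.sum_univ_succ, Fin.sum_univ_succ, Fin.sum_univ_succ, Fin.sum_univ_succ]
    have e1 : ∀ k : Fin m, (A.updateCol 1 b) a k.succ.succ = A a k.succ.succ := fun k =>
      Matrix.updateCol_ne (by simp [Fin.ext_iff])
    have e2 : (A.updateCol 1 b) a 0 = A a 0 := Matrix.updateCol_ne (by simp [Fin.ext_iff])
    have e3 : (A.updateCol 1 b) a (Fin.succ 0) = b a := Matrix.updateCol_self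
    simp only [e1, e2, e3, coord, LinearEquiv.coe_mk, LinearMap.coe_mk, AddHom.coe_mk,
      Fin.cons_zero, Fin.cons_succ]
    have e4 : A a (Fin.succ 0) = A a 1 := rfl
    rw [e4]
    ring
  have h3 : coord m '' (piA ((A.updateCol 1 b).det, A.det) '' (swp m '' K)) =
      coord m '' (piA (A.det, (A.updateCol 1 b).det) '' K) := by
    congr 1
    rw [← image_comp]
    apply image_congr
    rintro ⟨t, ⟨⟨z, s⟩, y⟩⟩ -
    change ((z, (A.updateCol 1 b).det * t + A.det * s), y) =
      ((z, A.det * s + (A.updateCol 1 b).det * t), y)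
    rw [add_comm]
  simp only [h2] at h
  rw [h3] at h
  exact h

/-- The matrix of `Lam` for `ε = 1`, with columns `b, A 0, A 1, …`. -/
def big (A : Matrix (Fin (m + 2)) (Fin (m + 2)) ℝ) (b : Fin (m + 2) → ℝ) :
    Matrix (Fin (m + 2)) (Fin (m + 2 + 1)) ℝ :=
  Matrix.of fun a => Fin.cons (b a) (A a)

/-- The scaling factors. -/
def dd (m : ℕ) (ε : ℝ) : Fin (m + 2 + 1) → ℝ := Fin.cons ε (Fin.cons 1 (Fin.cons ε fun _ => 1))

theorem Lam_eq_mulVec (A : Matrix (Fin (m + 2)) (Fin (m + 2)) ℝ) (b : Fin (m + 2) → ℝ) (ε : ℝ)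
    (p : FF m) : Lam A b ε p =
      (big A b * Matrix.diagonal (dd m ε)).mulVec (Fin.cons p.1 (coord m p.2)) := by
  obtain ⟨t, ⟨⟨z, s⟩, y⟩⟩ := p
  rw [← Matrix.mulVec_mulVec]
  have h1 : (Matrix.diagonal (dd m ε)).mulVec (Fin.cons t (coord m ((z, s), y))) =
      (Fin.cons (ε * t) (coord m ((z, ε * s), y)) : Fin (m + 2 + 1) → ℝ) := by
    ext k
    rw [Matrix.mulVec_diagonal]
    refine Fin.cases ?_ (fun k => ?_) k
    · simp only [dd, Fin.cons_zero]
    · refine Fin.cases ?_ (fun k => ?_) k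
      · simp only [dd, coord, LinearEquiv.coe_mk, LinearMap.coe_mk, AddHom.coe_mk,
          Fin.cons_zero, Fin.cons_succ, one_mul]
      · refine Fin.cases ?_ (fun k => ?_) k
        · simp only [dd, coord, LinearEquiv.coe_mk, LinearMap.coe_mk, AddHom.coe_mk,
            Fin.cons_zero, Fin.cons_succ]
        · simp only [dd, coord, LinearEquiv.coe_mk, LinearMap.coe_mk, AddHom.coe_mk,
            Fin.cons_succ, one_mul]
  have h2 : ∀ (u : ℝ) (w : Fin (m + 2) → ℝ),
      (big A b).mulVec (Fin.cons u w : Fin (m + 2 + 1) → ℝ) = A.mulVec w + u • b := by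
    intro u w
    ext a
    simp only [Matrix.mulVec, dotProduct, Pi.add_apply, Pi.smul_apply, smul_eq_mul]
    rw [Fin.sum_univ_succ]
    simp only [big, Matrix.of_apply, Fin.cons_zero, Fin.cons_succ]
    ring
  change A.mulVec (coord m ((z, ε * s), y)) + (ε * t) • b =
    (big A b).mulVec ((Matrix.diagonal (dd m ε)).mulVec (Fin.cons t (coord m ((z, s), y))))
  rw [h1, h2]

theorem prod_dd_succAbove {ε : ℝ} (hε : 0 < ε) (hε1 : ε ≤ 1) (i : Fin (m + 2 + 1)) :
    0 ≤ ∏ a, dd m ε (i.succAbove a) ∧ ∏ a, dd m ε (i.succAbove a) ≤ ε ∧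
      (i ≠ 0 → i ≠ Fin.succ (Fin.succ 0) → ∏ a, dd m ε (i.succAbove a) = ε ^ 2) := by
  have h1 := Fin.prod_univ_succAbove (dd m ε) i
  have h2 : ∏ a, dd m ε a = ε ^ 2 := by
    rw [Fin.prod_univ_succ, Fin.prod_univ_succ, Fin.prod_univ_succ]
    simp only [dd, Fin.cons_zero, Fin.cons_succ, Finset.prod_const_one]
    ring
  rw [h2] at h1
  have hcase : dd m ε i = ε ∨ (dd m ε i = 1) := by
    refine Fin.cases ?_ (fun k => ?_) i
    · left; simp [dd]
    · refine Fin.cases ?_ (fun k => ?_) k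
      · right; simp only [dd, Fin.cons_succ, Fin.cons_zero]
      · refine Fin.cases ?_ (fun k => ?_) k
        · left; simp only [dd, Fin.cons_succ, Fin.cons_zero]
        · right; simp only [dd, Fin.cons_succ]
  have hcase2 : i ≠ 0 → i ≠ Fin.succ (Fin.succ 0) → dd m ε i = 1 := by
    refine Fin.cases ?_ (fun k => ?_) i
    · intro h; exact absurd rfl h
    · refine Fin.cases ?_ (fun k => ?_) k
      · intro _ _; simp [dd]
      · refine Fin.cases ?_ (fun k => ?_) k
        · intro _ h; exact absurd rfl h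
        · intro _ _; simp [dd]
  refine ⟨?_, ?_, ?_⟩
  · rcases hcase with h | h
    · rw [h] at h1
      have : ∏ a, dd m ε (i.succAbove a) = ε := by
        apply mul_left_cancel₀ hε.ne'
        rw [← h1, pow_two]
      rw [this]; exact hε.le
    · rw [h, one_mul] at h1
      rw [← h1]; positivity
  · rcases hcase with h | h
    · rw [h] at h1
      have : ∏ a, dd m ε (i.succAbove a) = ε := by
        apply mul_left_cancel₀ hε.ne'
        rw [← h1, pow_two]
      rw [this]
    · rw [h, one_mul] at h1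
      rw [← h1]; nlinarith
  · intro h3 h4
    rw [hcase2 h3 h4, one_mul] at h1
    exact h1.symm

theorem det_big_zero (A : Matrix (Fin (m + 2)) (Fin (m + 2)) ℝ) (b : Fin (m + 2) → ℝ) :
    ((big A b).submatrix id (Fin.succAbove 0)).det = A.det := by
  congr 1

theorem det_big_two (A : Matrix (Fin (m + 2)) (Fin (m + 2)) ℝ) (b : Fin (m + 2) → ℝ)
    (h : (A.updateCol 1 b).det = 0) :
    ((big A b).submatrix id (Fin.succAbove (Fin.succ (Fin.succ 0)))).det = 0 := by
  have h1 : (big A b).submatrix id (Fin.succAbove (Fin.succ (Fin.succ 0))) =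
      (A.updateCol 1 b).submatrix id (Equiv.swap (0 : Fin (m + 2)) 1) := by
    ext a k
    simp only [Matrix.submatrix_apply, id]
    refine Fin.cases ?_ (fun k => ?_) k
    · rw [Equiv.swap_apply_left, Matrix.updateCol_self]
      have e2 : (Fin.succ (Fin.succ 0) : Fin (m + 2 + 1)).succAbove 0 = 0 := by
        rw [Fin.succAbove_of_castSucc_lt]
        · rfl
        · exact Fin.lt_def.2 (show (0 : ℕ) < 0 + 1 + 1 by omega)
      rw [e2]
      rfl
    · refine Fin.cases ?_ (fun k => ?_) k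
      · have e : Equiv.swap (0 : Fin (m + 2)) 1 (Fin.succ 0) = 0 := Equiv.swap_apply_right _ _
        rw [e, Matrix.updateCol_ne (by simp)]
        have e2 : (Fin.succ (Fin.succ 0) : Fin (m + 2 + 1)).succAbove (Fin.succ 0) = 1 := by
          rw [Fin.succAbove_of_castSucc_lt]
          · rfl
          · exact Fin.lt_def.2 (show (0 + 1 : ℕ) < 0 + 1 + 1 by omega)
        rw [e2]
        rfl
      · have e : Equiv.swap (0 : Fin (m + 2)) 1 k.succ.succ = k.succ.succ := by
          apply Equiv.swap_apply_of_ne_of_ne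
          · exact Fin.succ_ne_zero _
          · intro h'
            have := congrArg Fin.val h'
            simp at this
        rw [e, Matrix.updateCol_ne (by intro h'; have := congrArg Fin.val h'; simp at this)]
        have e2 : (Fin.succ (Fin.succ 0) : Fin (m + 2 + 1)).succAbove k.succ.succ =
            k.succ.succ.succ := by
          rw [Fin.succAbove_of_le_castSucc]
          exact Fin.le_def.2 (show (0 + 1 + 1 : ℕ) ≤ k.val + 1 + 1 by omega)
        rw [e2]
        rfl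
  rw [h1, Matrix.det_permute', h, mul_zero]

theorem volume_Lam_le (A : Matrix (Fin (m + 2)) (Fin (m + 2)) ℝ) (b : Fin (m + 2) → ℝ) {ε : ℝ}
    {K : Set (FF m)} {Q : ℝ}
    (hK : ∀ p ∈ K, (Fin.cons p.1 (coord m p.2) : Fin (m + 2 + 1) → ℝ) ∈
      Icc (fun _ => -Q) (fun _ => Q)) :
    volume (Lam A b ε '' K) ≤ ∑ i : Fin (m + 2 + 1), 2 *
      (ENNReal.ofReal |((big A b).submatrix id i.succAbove).det *
        ∏ a, dd m ε (i.succAbove a)| * ENNReal.ofReal (2 * Q) ^ (m + 2)) := by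
  have h1 : Lam A b ε '' K ⊆ (fun p : Fin (m + 2 + 1) → ℝ =>
      (big A b * Matrix.diagonal (dd m ε)).mulVec p) '' Icc (fun _ => -Q) (fun _ => Q) := by
    rintro _ ⟨p, hp, rfl⟩
    exact ⟨_, hK p hp, (Lam_eq_mulVec A b ε p).symm⟩
  refine (measure_mono h1).trans ((volume_image_cube_le _ Q).trans (le_of_eq ?_))
  refine Finset.sum_congr rfl fun i _ => ?_
  congr 4
  have h2 : (big A b * Matrix.diagonal (dd m ε)).submatrix id i.succAbove =
      (big A b).submatrix id i.succAbove *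
        Matrix.diagonal (fun a => dd m ε (i.succAbove a)) := by
    ext a k
    simp [Matrix.mul_diagonal]
  rw [h2, Matrix.det_mul, Matrix.det_diagonal]

/-- The dominating constant. -/
noncomputable def domC (Q : ℝ) (A : Matrix (Fin (m + 2)) (Fin (m + 2)) ℝ)
    (b : Fin (m + 2) → ℝ) : ℝ≥0∞ :=
  ∑ i : Fin (m + 2 + 1), 2 * (ENNReal.ofReal |((big A b).submatrix id i.succAbove).det| *
    ENNReal.ofReal (2 * Q) ^ (m + 2))

theorem domC_ne_top (Q : ℝ) (A : Matrix (Fin (m + 2)) (Fin (m + 2)) ℝ) (b : Fin (m + 2) → ℝ) :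
    domC Q A b ≠ ⊤ := by
  unfold domC
  apply ENNReal.sum_ne_top.2
  intro i _
  exact ENNReal.mul_ne_top (by simp) (ENNReal.mul_ne_top ENNReal.ofReal_ne_top
    (ENNReal.pow_ne_top ENNReal.ofReal_ne_top))

theorem mul_volume_Lam_le (A : Matrix (Fin (m + 2)) (Fin (m + 2)) ℝ) (b : Fin (m + 2) → ℝ)
    {K : Set (FF m)} {Q : ℝ}
    (hK : ∀ p ∈ K, (Fin.cons p.1 (coord m p.2) : Fin (m + 2 + 1) → ℝ) ∈
      Icc (fun _ => -Q) (fun _ => Q)) (k : ℕ) :
    ENNReal.ofReal ((k : ℝ) + 1) * volume (Lam A b (1 / ((k : ℝ) + 1)) '' K) ≤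
      domC Q A b := by
  have hk : (0 : ℝ) < (k : ℝ) + 1 := by positivity
  have hε : (0 : ℝ) < 1 / ((k : ℝ) + 1) := by positivity
  have hε1 : 1 / ((k : ℝ) + 1) ≤ 1 := by
    rw [div_le_one hk]
    have : (0 : ℝ) ≤ k := Nat.cast_nonneg k
    linarith
  calc _ ≤ ENNReal.ofReal ((k : ℝ) + 1) * (ENNReal.ofReal (1 / ((k : ℝ) + 1)) * domC Q A b) := by
        apply mul_le_mul_right
        refine (volume_Lam_le A b hK).trans ?_
        unfold domC
        rw [Finset.mul_sum]
        apply Finset.sum_le_sum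
        intro i _
        obtain ⟨h1, h2, -⟩ := prod_dd_succAbove (m := m) hε hε1 i
        rw [abs_mul, abs_of_nonneg h1, mul_comm |_|, ENNReal.ofReal_mul h1]
        have h3 := ENNReal.ofReal_le_ofReal h2
        calc _ = ENNReal.ofReal (∏ a, dd m (1 / ((k : ℝ) + 1)) (i.succAbove a)) *
              (2 * (ENNReal.ofReal |((big A b).submatrix id i.succAbove).det| *
              ENNReal.ofReal (2 * Q) ^ (m + 2))) := by ring
          _ ≤ _ := mul_le_mul_left h3 _
    _ = domC Q A b := by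
      rw [← mul_assoc, ← ENNReal.ofReal_mul hk.le, mul_one_div_cancel hk.ne', ENNReal.ofReal_one,
        one_mul]

theorem tendsto_Lam_of_det_eq (A : Matrix (Fin (m + 2)) (Fin (m + 2)) ℝ) (b : Fin (m + 2) → ℝ)
    (hA : A.det = 0) (hA' : (A.updateCol 1 b).det = 0) {K : Set (FF m)} {Q : ℝ}
    (hK : ∀ p ∈ K, (Fin.cons p.1 (coord m p.2) : Fin (m + 2 + 1) → ℝ) ∈
      Icc (fun _ => -Q) (fun _ => Q)) :
    Tendsto (fun k : ℕ => ENNReal.ofReal ((k : ℝ) + 1) *
      volume (Lam A b (1 / ((k : ℝ) + 1)) '' K)) atTop (𝓝 0) := by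
  have hlim : Tendsto (fun k : ℕ => ENNReal.ofReal (1 / ((k : ℝ) + 1)) * domC Q A b) atTop
      (𝓝 0) := by
    have h1 : Tendsto (fun k : ℕ => ENNReal.ofReal (1 / ((k : ℝ) + 1))) atTop (𝓝 0) := by
      have := ENNReal.tendsto_ofReal (tendsto_one_div_add_atTop_nhds_zero_nat (𝕜 := ℝ))
      simpa using this
    have h2 := ENNReal.Tendsto.mul_const h1 (Or.inr (domC_ne_top Q A b))
    simpa using h2
  refine tendsto_of_tendsto_of_tendsto_of_le_of_le tendsto_const_nhds hlim (fun k => zero_le)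
    fun k => ?_
  have hk : (0 : ℝ) < (k : ℝ) + 1 := by positivity
  have hε : (0 : ℝ) < 1 / ((k : ℝ) + 1) := by positivity
  have hε1 : 1 / ((k : ℝ) + 1) ≤ 1 := by
    rw [div_le_one hk]
    have : (0 : ℝ) ≤ k := Nat.cast_nonneg k
    linarith
  change ENNReal.ofReal ((k : ℝ) + 1) * volume (Lam A b (1 / ((k : ℝ) + 1)) '' K) ≤
    ENNReal.ofReal (1 / ((k : ℝ) + 1)) * domC Q A b
  calc _ ≤ ENNReal.ofReal ((k : ℝ) + 1) * (ENNReal.ofReal ((1 / ((k : ℝ) + 1)) ^ 2) *
          domC Q A b) := by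
        apply mul_le_mul_right
        refine (volume_Lam_le A b hK).trans ?_
        unfold domC
        rw [Finset.mul_sum]
        apply Finset.sum_le_sum
        intro i _
        obtain ⟨h1, h2, h3⟩ := prod_dd_succAbove (m := m) hε hε1 i
        by_cases hi0 : i = 0
        · subst hi0
          rw [det_big_zero, hA]
          simp
        · by_cases hi2 : i = Fin.succ (Fin.succ 0)
          · subst hi2
            rw [det_big_two A b hA']
            simp
          · rw [h3 hi0 hi2, abs_mul, abs_of_nonneg (by positivity : (0 : ℝ) ≤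
              (1 / ((k : ℝ) + 1)) ^ 2), mul_comm |_|, ENNReal.ofReal_mul (by positivity)]
            apply le_of_eq
            ring
    _ = ENNReal.ofReal (1 / ((k : ℝ) + 1)) * domC Q A b := by
      rw [← mul_assoc, ← ENNReal.ofReal_mul hk.le]
      congr 2
      field_simp

/-- The pointwise limit. -/
theorem tendsto_Lam (A : Matrix (Fin (m + 2)) (Fin (m + 2)) ℝ) (b : Fin (m + 2) → ℝ)
    {K : Set (FF m)} (hc : IsCompact K) (hv : Convex ℝ K) (h0 : (0 : FF m) ∈ interior K) {Q : ℝ}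
    (hK : ∀ p ∈ K, (Fin.cons p.1 (coord m p.2) : Fin (m + 2 + 1) → ℝ) ∈
      Icc (fun _ => -Q) (fun _ => Q)) :
    Tendsto (fun k : ℕ => ENNReal.ofReal ((k : ℝ) + 1) *
      volume (Lam A b (1 / ((k : ℝ) + 1)) '' K)) atTop
      (𝓝 (volume (coord m '' (piA (A.det, (A.updateCol 1 b).det) '' K)))) := by
  by_cases h1 : A.det = 0
  · by_cases h2 : (A.updateCol 1 b).det = 0
    · have h3 : volume (coord m '' (piA (A.det, (A.updateCol 1 b).det) '' K)) = 0 := by
        have h4 : coord m '' (piA (A.det, (A.updateCol 1 b).det) '' K) ⊆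
            Matrix.toLin' (dg m 0) '' (coord m '' (piA (A.det, (A.updateCol 1 b).det) '' K)) := by
          rw [h1, h2]
          rintro _ ⟨_, ⟨⟨t, ⟨⟨z, s⟩, y⟩⟩, hp, rfl⟩, rfl⟩
          refine ⟨_, ⟨_, ⟨_, hp, rfl⟩, rfl⟩, ?_⟩
          rw [piA_apply, Matrix.toLin'_apply, dg_coord]
          simp
        have h5 := measure_mono (μ := volume) h4
        rw [Measure.addHaar_image_linearMap, LinearMap.det_toLin', det_dg] at h5
        simpa using h5
      rw [h3]
      exact tendsto_Lam_of_det_eq A b h1 h2 hK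
    · exact tendsto_Lam_of_det_ne' A b h2 hc hv h0
  · exact tendsto_Lam_of_det_ne A b h1 hc hv h0

end Pool.Agent.Lib.MP_b62b68_gt
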