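import Mathlib
import Pool.Agent.Lib.MP_b62b68_gt.Lam

/-!
The limit `W` of the normalised intrinsic volumes of stretched bodies.
-/

namespace Pool.Agent.Lib.MP_b62b68_gt

open MeasureTheory Set Filter
open scoped ENNReal Topology Pointwise

variable {n m : ℕ}

/-- The index of the additional basis vector. -/
def jx (hm : m + 3 ≤ n) : Fin n := ⟨m + 2, by omega⟩

/-- The embedding `(t, ((z, s), y)) ↦ z v₀ + ε s v₁ + ∑ y_k v_{k+2} + ε t v_{m+2}`. -/
noncomputable def iota (h : m + 2 ≤ n) (hm : m + 3 ≤ n) (v : OrthonormalBasis (Fin n) ℝ (E n))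
    (ε : ℝ) : FF m →ₗ[ℝ] E n where
  toFun p := emb h v (coord m ((p.2.1.1, ε * p.2.1.2), p.2.2)) + (ε * p.1) • v (jx hm)
  map_add' p q := by
    have : coord m (((p + q).2.1.1, ε * (p + q).2.1.2), (p + q).2.2) =
        coord m ((p.2.1.1, ε * p.2.1.2), p.2.2) + coord m ((q.2.1.1, ε * q.2.1.2), q.2.2) := by
      rw [← map_add]; congr 1
      ext <;> simp [mul_add]
    rw [this, map_add, Prod.fst_add, mul_add, add_smul]
    abel
  map_smul' r p := by
    have : coord m (((r • p).2.1.1, ε * (r • p).2.1.2), (r • p).2.2) =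
        r • coord m ((p.2.1.1, ε * p.2.1.2), p.2.2) := by
      rw [← map_smul]; congr 1
      ext <;> simp; ring
    rw [this, map_smul, RingHom.id_apply, smul_add, smul_smul, Prod.smul_fst, smul_eq_mul]
    congr 2
    ring

theorem iota_apply (h : m + 2 ≤ n) (hm : m + 3 ≤ n) (v : OrthonormalBasis (Fin n) ℝ (E n))
    (ε : ℝ) (p : FF m) : iota h hm v ε p =
      emb h v (coord m ((p.2.1.1, ε * p.2.1.2), p.2.2)) + (ε * p.1) • v (jx hm) := rfl

/-- The additional column. -/
noncomputable def colb (h : m + 2 ≤ n) (hm : m + 3 ≤ n) (v : OrthonormalBasis (Fin n) ℝ (E n))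
    (g : O n) : Fin (m + 2) → ℝ := proj h g (v (jx hm))

theorem proj_iota (h : m + 2 ≤ n) (hm : m + 3 ≤ n) (v : OrthonormalBasis (Fin n) ℝ (E n))
    (ε : ℝ) (g : O n) (p : FF m) :
    proj h g (iota h hm v ε p) = Lam (mat h v g) (colb h hm v g) ε p := by
  have h1 := congrArg (fun f => f (coord m ((p.2.1.1, ε * p.2.1.2), p.2.2)))
    (proj_comp_emb h v g)
  simp only [LinearMap.comp_apply, Matrix.toLin'_apply] at h1
  rw [iota_apply, map_add, map_smul, h1]
  rfl

theorem shadow_iota (h : m + 2 ≤ n) (hm : m + 3 ≤ n) (v : OrthonormalBasis (Fin n) ℝ (E n))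
    (ε : ℝ) (g : O n) (A : Set (FF m)) :
    shadow h g (iota h hm v ε '' A) = Lam (mat h v g) (colb h hm v g) ε '' A := by
  rw [shadow_eq, ← image_comp]
  exact image_congr fun p _ => proj_iota h hm v ε g p

/-- The normalised volumes. -/
noncomputable def VV (h : m + 2 ≤ n) (hm : m + 3 ≤ n) (v : OrthonormalBasis (Fin n) ℝ (E n))
    (k : ℕ) (A : Set (FF m)) : ℝ≥0∞ :=
  ENNReal.ofReal ((k : ℝ) + 1) * intrinsicVolume h (iota h hm v (1 / ((k : ℝ) + 1)) '' A)

/-- The two determinants. -/
noncomputable def DD (h : m + 2 ≤ n) (hm : m + 3 ≤ n) (v : OrthonormalBasis (Fin n) ℝ (E n))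
    (g : O n) : ℝ × ℝ :=
  ((mat h v g).det, ((mat h v g).updateCol 1 (colb h hm v g)).det)

/-- The limit functional. -/
noncomputable def WW (h : m + 2 ≤ n) (hm : m + 3 ≤ n) (v : OrthonormalBasis (Fin n) ℝ (E n))
    (A : Set (FF m)) : ℝ≥0∞ :=
  ((n.choose (m + 2) : ℕ) : ℝ≥0∞)⁻¹ *
    ∫⁻ g, volume (coord m '' (piA (DD h hm v g) '' A)) ∂(haarO n)

theorem continuous_entry (a b : Fin n) : Continuous fun g : O n => g.1 a b :=
  (continuous_apply_apply a b).comp
    (continuous_subtype_val : Continuous fun g : O n => (g.1 : Matrix (Fin n) (Fin n) ℝ))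

theorem continuous_mat (h : m + 2 ≤ n) (v : OrthonormalBasis (Fin n) ℝ (E n))
    (a b : Fin (m + 2)) : Continuous fun g : O n => mat h v g a b := by
  simp only [mat, Matrix.of_apply]
  exact continuous_finsetSum _ fun k _ => (continuous_entry _ k).mul continuous_const

theorem continuous_colb (h : m + 2 ≤ n) (hm : m + 3 ≤ n)
    (v : OrthonormalBasis (Fin n) ℝ (E n)) (a : Fin (m + 2)) :
    Continuous fun g : O n => colb h hm v g a := by
  change Continuous fun g : O n => ∑ b, g.1 (Fin.castLE h a) b * v (jx hm) b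
  exact continuous_finsetSum _ fun k _ => (continuous_entry _ k).mul continuous_const

theorem continuous_DD (h : m + 2 ≤ n) (hm : m + 3 ≤ n)
    (v : OrthonormalBasis (Fin n) ℝ (E n)) : Continuous (DD h hm v) := by
  unfold DD
  refine (continuous_det_mat h v).prodMk (Continuous.matrix_det ?_)
  refine continuous_matrix fun a b => ?_
  by_cases hb : b = 1
  · subst hb
    simp only [Matrix.updateCol_self]
    exact continuous_colb h hm v a
  · simp only [Matrix.updateCol_ne hb]
    exact continuous_mat h v a b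

theorem continuous_big (h : m + 2 ≤ n) (hm : m + 3 ≤ n)
    (v : OrthonormalBasis (Fin n) ℝ (E n)) (i : Fin (m + 2 + 1)) :
    Continuous fun g : O n =>
      ((big (mat h v g) (colb h hm v g)).submatrix id i.succAbove).det := by
  apply Continuous.matrix_det
  refine continuous_matrix fun a b => ?_
  simp only [Matrix.submatrix_apply, id, big, Matrix.of_apply]
  refine Fin.cases ?_ (fun k => ?_) (i.succAbove b)
  · simp only [Fin.cons_zero]; exact continuous_colb h hm v a
  · simp only [Fin.cons_succ]; exact continuous_mat h v a k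

theorem lintegral_domC_ne_top (h : m + 2 ≤ n) (hm : m + 3 ≤ n)
    (v : OrthonormalBasis (Fin n) ℝ (E n)) (Q : ℝ) :
    ∫⁻ g, domC Q (mat h v g) (colb h hm v g) ∂(haarO n) ≠ ⊤ := by
  unfold domC
  have hcont : ∀ i : Fin (m + 2 + 1), Continuous fun g : O n =>
      ENNReal.ofReal |((big (mat h v g) (colb h hm v g)).submatrix id i.succAbove).det| :=
    fun i => ENNReal.continuous_ofReal.comp (continuous_big h hm v i).abs
  rw [lintegral_finsetSum _ (fun i _ => ((hcont i).measurable.mul_const _).const_mul _)]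
  apply ENNReal.sum_ne_top.2
  intro i _
  rw [lintegral_const_mul _ ((hcont i).measurable.mul_const _),
    lintegral_mul_const _ (hcont i).measurable]
  apply ENNReal.mul_ne_top (by simp)
  apply ENNReal.mul_ne_top _ (ENNReal.pow_ne_top ENNReal.ofReal_ne_top)
  obtain ⟨C, hC⟩ := (isCompact_univ (X := O n)).exists_bound_of_continuousOn
    (continuous_big h hm v i).continuousOn
  have : ∫⁻ g, ENNReal.ofReal |((big (mat h v g) (colb h hm v g)).submatrix id
      i.succAbove).det| ∂(haarO n) ≤ ENNReal.ofReal C := by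
    calc _ ≤ ∫⁻ _, ENNReal.ofReal C ∂(haarO n) := by
          apply lintegral_mono
          intro g
          apply ENNReal.ofReal_le_ofReal
          exact hC g (mem_univ _)
      _ = ENNReal.ofReal C := by rw [lintegral_const, measure_univ, mul_one]
  exact (this.trans_lt ENNReal.ofReal_lt_top).ne

theorem exists_cube {K : Set (FF m)} (hc : IsCompact K) : ∃ Q : ℝ, ∀ p ∈ K,
    (Fin.cons p.1 (coord m p.2) : Fin (m + 2 + 1) → ℝ) ∈ Icc (fun _ => -Q) (fun _ => Q) := by
  have hcoord : Continuous (coord m) := (coord m).toLinearMap.continuous_of_finiteDimensional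
  have hcont : Continuous fun p : FF m =>
      (Fin.cons p.1 (coord m p.2) : Fin (m + 2 + 1) → ℝ) := by
    refine continuous_pi fun k => ?_
    refine Fin.cases ?_ (fun k => ?_) k
    · simp only [Fin.cons_zero]; exact continuous_fst
    · simp only [Fin.cons_succ]; exact (continuous_apply k).comp (hcoord.comp continuous_snd)
  obtain ⟨Q, hQ⟩ := hc.exists_bound_of_continuousOn hcont.continuousOn
  refine ⟨Q, fun p hp => ?_⟩
  have h1 := hQ p hp
  refine ⟨fun k => ?_, fun k => ?_⟩
  · have h2 := (norm_le_pi_norm _ k).trans h1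
    rw [Real.norm_eq_abs] at h2
    exact (abs_le.1 h2).1
  · have h2 := (norm_le_pi_norm _ k).trans h1
    rw [Real.norm_eq_abs] at h2
    exact (abs_le.1 h2).2

theorem tendsto_VV (h : m + 2 ≤ n) (hm : m + 3 ≤ n) (v : OrthonormalBasis (Fin n) ℝ (E n))
    {K : Set (FF m)} (hc : IsCompact K) (hv : Convex ℝ K) (h0 : (0 : FF m) ∈ interior K) :
    Tendsto (fun k : ℕ => VV h hm v k K) atTop (𝓝 (WW h hm v K)) := by
  obtain ⟨Q, hQ⟩ := exists_cube hc
  have h1 : ∀ k : ℕ, VV h hm v k K = ((n.choose (m + 2) : ℕ) : ℝ≥0∞)⁻¹ *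
      ∫⁻ g, ENNReal.ofReal ((k : ℝ) + 1) *
        volume (shadow h g (iota h hm v (1 / ((k : ℝ) + 1)) '' K)) ∂(haarO n) := by
    intro k
    unfold VV intrinsicVolume
    rw [lintegral_const_mul' _ _ ENNReal.ofReal_ne_top]
    ring
  simp only [h1]
  unfold WW
  apply ENNReal.Tendsto.const_mul _ (Or.inr (choose_inv_ne h).2)
  have hcompι : ∀ ε, IsCompact (iota h hm v ε '' K) := fun ε =>
    hc.image (iota h hm v ε).continuous_of_finiteDimensional
  apply tendsto_lintegral_of_dominated_convergence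
    (fun g => domC Q (mat h v g) (colb h hm v g))
  · intro k
    exact (measurable_volume_shadow h (hcompι _)).const_mul _
  · intro k
    refine Eventually.of_forall fun g => ?_
    simp only [shadow_iota]
    exact mul_volume_Lam_le _ _ hQ k
  · exact lintegral_domC_ne_top h hm v Q
  · refine Eventually.of_forall fun g => ?_
    simp only [shadow_iota]
    exact tendsto_Lam _ _ hc hv h0 hQ

theorem measurable_volume_param {F : Type*} [TopologicalSpace F] {j : ℕ}
    {T : O n → F → (Fin j → ℝ)} (hT : Continuous fun p : O n × F => T p.1 p.2) {K : Set F}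
    (hK : IsCompact K) : Measurable fun g => volume (T g '' K) := by
  set S : Set (O n × (Fin j → ℝ)) :=
    (fun p : O n × F => (p.1, T p.1 p.2)) '' (univ ×ˢ K) with hS
  have hSc : IsCompact S := (isCompact_univ.prod hK).image (continuous_fst.prodMk hT)
  have hSm : MeasurableSet S := hSc.measurableSet
  have h1 := measurable_measure_prodMk_left (ν := (volume : Measure (Fin j → ℝ))) hSm
  have h2 : ∀ g, (Prod.mk g ⁻¹' S) = T g '' K := by
    intro g
    ext y
    constructor
    · rintro ⟨⟨g', x⟩, ⟨-, hx⟩, hgx⟩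
      obtain ⟨rfl, rfl⟩ := Prod.mk.inj hgx
      exact ⟨x, hx, rfl⟩
    · rintro ⟨x, hx, rfl⟩
      exact ⟨(g, x), ⟨mem_univ _, hx⟩, rfl⟩
  simpa only [h2] using h1

theorem continuous_TT (h : m + 2 ≤ n) (hm : m + 3 ≤ n)
    (v : OrthonormalBasis (Fin n) ℝ (E n)) :
    Continuous fun p : O n × FF m => coord m (piA (DD h hm v p.1) p.2) := by
  have hcoord : Continuous (coord m) := (coord m).toLinearMap.continuous_of_finiteDimensional
  apply hcoord.comp
  have hD : Continuous fun p : O n × FF m => DD h hm v p.1 :=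
    (continuous_DD h hm v).comp continuous_fst
  have hD1 : Continuous fun p : O n × FF m => (DD h hm v p.1).1 := continuous_fst.comp hD
  have hD2 : Continuous fun p : O n × FF m => (DD h hm v p.1).2 := continuous_snd.comp hD
  simp only [piA_apply]
  have h1 : Continuous fun p : O n × FF m => p.2.1 := continuous_fst.comp continuous_snd
  have h2 : Continuous fun p : O n × FF m => p.2.2 := continuous_snd.comp continuous_snd
  exact ((continuous_fst.comp (continuous_fst.comp h2)).prodMk
    ((hD1.mul (continuous_snd.comp (continuous_fst.comp h2))).add (hD2.mul h1))).prodMk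
    (continuous_snd.comp h2)

theorem measurable_WW_integrand (h : m + 2 ≤ n) (hm : m + 3 ≤ n)
    (v : OrthonormalBasis (Fin n) ℝ (E n)) {A : Set (FF m)} (hA : IsCompact A) :
    Measurable fun g => volume (coord m '' (piA (DD h hm v g) '' A)) := by
  have h1 := measurable_volume_param (T := fun g p => coord m (piA (DD h hm v g) p))
    (continuous_TT h hm v) hA
  have h2 : ∀ g, coord m '' (piA (DD h hm v g) '' A) =
      (fun p => coord m (piA (DD h hm v g) p)) '' A := fun g => by rw [← image_comp]; rfl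
  simpa only [h2] using h1

theorem WW_ne_top (h : m + 2 ≤ n) (hm : m + 3 ≤ n) (v : OrthonormalBasis (Fin n) ℝ (E n))
    {A : Set (FF m)} (hA : IsCompact A) :
    ∫⁻ g, volume (coord m '' (piA (DD h hm v g) '' A)) ∂(haarO n) ≠ ⊤ := by
  have hc : IsCompact ((fun p : O n × FF m => coord m (piA (DD h hm v p.1) p.2)) ''
      (univ ×ˢ A)) := (isCompact_univ.prod hA).image (continuous_TT h hm v)
  have h1 : ∀ g, volume (coord m '' (piA (DD h hm v g) '' A)) ≤
      volume ((fun p : O n × FF m => coord m (piA (DD h hm v p.1) p.2)) '' (univ ×ˢ A)) := by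
    intro g
    apply measure_mono
    rintro _ ⟨_, ⟨x, hx, rfl⟩, rfl⟩
    exact ⟨(g, x), ⟨mem_univ _, hx⟩, rfl⟩
  have h2 : ∫⁻ g, volume (coord m '' (piA (DD h hm v g) '' A)) ∂(haarO n) ≤
      volume ((fun p : O n × FF m => coord m (piA (DD h hm v p.1) p.2)) '' (univ ×ˢ A)) := by
    calc _ ≤ ∫⁻ _, volume ((fun p : O n × FF m => coord m (piA (DD h hm v p.1) p.2)) ''
          (univ ×ˢ A)) ∂(haarO n) := lintegral_mono h1
      _ = _ := by rw [lintegral_const, measure_univ, mul_one]
  exact (h2.trans_lt hc.measure_lt_top).ne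

theorem WW_ne_top' (h : m + 2 ≤ n) (hm : m + 3 ≤ n) (v : OrthonormalBasis (Fin n) ℝ (E n))
    {A : Set (FF m)} (hA : IsCompact A) : WW h hm v A ≠ ⊤ :=
  ENNReal.mul_ne_top (choose_inv_ne h).2 (WW_ne_top h hm v hA)

/-- Strict monotonicity. -/
theorem WW_lt (h : m + 2 ≤ n) (hm : m + 3 ≤ n) (v : OrthonormalBasis (Fin n) ℝ (E n))
    {A B : Set (FF m)} (hA : IsCompact A) (hB : IsCompact B)
    (hle : ∀ g, volume (coord m '' (piA (DD h hm v g) '' A)) ≤
      volume (coord m '' (piA (DD h hm v g) '' B)))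
    {U : Set (O n)} (hU : IsOpen U) (hUn : U.Nonempty)
    (hlt : ∀ g ∈ U, volume (coord m '' (piA (DD h hm v g) '' A)) <
      volume (coord m '' (piA (DD h hm v g) '' B))) : WW h hm v A < WW h hm v B := by
  unfold WW
  apply ENNReal.mul_lt_mul_right (choose_inv_ne h).1 (choose_inv_ne h).2
  have hpos : haarO n U ≠ 0 := (hU.measure_pos _ hUn).ne'
  refine lintegral_strict_mono_of_ae_le_of_frequently_ae_lt
    (measurable_WW_integrand h hm v hB).aemeasurable (WW_ne_top h hm v hA)
    (Eventually.of_forall hle) ?_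
  rw [frequently_ae_iff]
  intro h0
  apply hpos
  have hsub : U ⊆ {g | volume (coord m '' (piA (DD h hm v g) '' A)) ≠
      volume (coord m '' (piA (DD h hm v g) '' B))} := fun g hg => (hlt g hg).ne
  exact measure_mono_null hsub h0

theorem WW_mono (h : m + 2 ≤ n) (hm : m + 3 ≤ n) (v : OrthonormalBasis (Fin n) ℝ (E n))
    {A B : Set (FF m)} (hle : ∀ g, volume (coord m '' (piA (DD h hm v g) '' A)) ≤
      volume (coord m '' (piA (DD h hm v g) '' B))) : WW h hm v A ≤ WW h hm v B := by
  unfold WW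
  exact mul_le_mul_right (lintegral_mono hle) _

theorem WW_smul (h : m + 2 ≤ n) (hm : m + 3 ≤ n) (v : OrthonormalBasis (Fin n) ℝ (E n))
    (A : Set (FF m)) {r : ℝ} (hr : 0 ≤ r) :
    WW h hm v (r • A) = ENNReal.ofReal (r ^ (m + 2)) * WW h hm v A := by
  unfold WW
  have h1 : ∀ g, volume (coord m '' (piA (DD h hm v g) '' (r • A))) =
      ENNReal.ofReal (r ^ (m + 2)) * volume (coord m '' (piA (DD h hm v g) '' A)) := by
    intro g
    have h2 : coord m '' (piA (DD h hm v g) '' (r • A)) =
        r • (coord m '' (piA (DD h hm v g) '' A)) := by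
      rw [image_smul_set, image_smul_set]
    rw [h2, Measure.addHaar_smul, Module.finrank_fin_fun, abs_of_nonneg (by positivity)]
  simp only [h1]
  rw [lintegral_const_mul' _ _ ENNReal.ofReal_ne_top]
  ring

end Pool.Agent.Lib.MP_b62b68_gt
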