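import Mathlib
import Pool.Agent.Lib.MP_b62b68_gt.LimW

/-!
Every direction occurs among the pairs of determinants.
-/

namespace Pool.Agent.Lib.MP_b62b68_gt

open MeasureTheory Set Filter
open scoped ENNReal Topology Pointwise RealInnerProductSpace

variable {n m : ℕ}

theorem proj_toMatrix {j : ℕ} (h : j ≤ n) (v : OrthonormalBasis (Fin n) ℝ (E n)) (x : E n)
    (a : Fin j) :
    proj h ⟨v.toBasis.toMatrix (EuclideanSpace.basisFun (Fin n) ℝ),
      v.toMatrix_orthonormalBasis_mem_orthogonal (EuclideanSpace.basisFun (Fin n) ℝ)⟩ x a =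
      ⟪v (Fin.castLE h a), x⟫ := by
  have h1 : ∀ i k : Fin n, (v.toBasis.toMatrix (EuclideanSpace.basisFun (Fin n) ℝ)) i k =
      v i k := by
    intro i k
    rw [Module.Basis.toMatrix_apply, OrthonormalBasis.coe_toBasis_repr_apply,
      OrthonormalBasis.repr_apply_apply, EuclideanSpace.basisFun_apply,
      EuclideanSpace.inner_single_right]
    simp
  change ∑ b, (v.toBasis.toMatrix (EuclideanSpace.basisFun (Fin n) ℝ)) (Fin.castLE h a) b * x b =
    ⟪v (Fin.castLE h a), x⟫
  simp only [h1]
  rw [PiLp.inner_apply]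
  exact Finset.sum_congr rfl fun k _ => by simp [mul_comm]

theorem exists_DD (h : m + 2 ≤ n) (hm : m + 3 ≤ n) (v : OrthonormalBasis (Fin n) ℝ (E n))
    {α₁ α₂ : ℝ} (hα : α₁ ^ 2 + α₂ ^ 2 = 1) : ∃ g, DD h hm v g = (α₁, α₂) := by
  set i₁ : Fin n := Fin.castLE h 1 with hi₁
  have hij : i₁ ≠ jx hm := by
    intro h'
    have := congrArg Fin.val h'
    simp [i₁, jx] at this
  set w : E n := α₁ • v i₁ + α₂ • v (jx hm) with hw
  have hon := orthonormal_iff_ite.1 v.orthonormal
  have hwn : ‖w‖ = 1 := by
    have h1 : ⟪w, w⟫ = 1 := by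
      rw [hw]
      simp only [inner_add_left, inner_add_right, inner_smul_left, inner_smul_right, hon, hij,
        hij.symm, if_true, if_false]
      simp only [conj_trivial]
      nlinarith
    rw [real_inner_self_eq_norm_sq] at h1
    nlinarith [norm_nonneg w]
  have hvn : ‖v i₁‖ = ‖w‖ := by rw [hwn]; exact v.orthonormal.norm_eq_one i₁
  set r := (Submodule.span ℝ {v i₁ - w})ᗮ.reflection with hr
  have hr1 : r (v i₁) = w := Submodule.reflection_sub hvn
  have hr2 : ∀ a, a ≠ i₁ → a ≠ jx hm → r (v a) = v a := by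
    intro a ha1 ha2
    apply Submodule.reflection_mem_subspace_eq_self
    rw [Submodule.mem_orthogonal_singleton_iff_inner_right, hw]
    simp only [inner_sub_left, inner_add_left, inner_smul_left, hon, ha1.symm, ha2.symm, if_false]
    simp
  set v' : OrthonormalBasis (Fin n) ℝ (E n) := v.map r with hv'
  have hv'1 : v' i₁ = w := by rw [hv', OrthonormalBasis.map_apply, hr1]
  have hv'2 : ∀ a, a ≠ i₁ → a ≠ jx hm → v' a = v a := fun a h1 h2 => by
    rw [hv', OrthonormalBasis.map_apply, hr2 a h1 h2]
  refine ⟨⟨v'.toBasis.toMatrix (EuclideanSpace.basisFun (Fin n) ℝ),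
    v'.toMatrix_orthonormalBasis_mem_orthogonal (EuclideanSpace.basisFun (Fin n) ℝ)⟩, ?_⟩
  set g : O n := ⟨v'.toBasis.toMatrix (EuclideanSpace.basisFun (Fin n) ℝ),
    v'.toMatrix_orthonormalBasis_mem_orthogonal (EuclideanSpace.basisFun (Fin n) ℝ)⟩ with hg
  have hpr : ∀ (x : E n) (a : Fin (m + 2)), proj h g x a = ⟪v' (Fin.castLE h a), x⟫ :=
    fun x a => proj_toMatrix h v' x a
  have hcj : ∀ a : Fin (m + 2), Fin.castLE h a ≠ jx hm := by
    intro a h'
    have := congrArg Fin.val h'
    simp [jx] at this
    omega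
  have hc1 : ∀ a : Fin (m + 2), a ≠ 1 → Fin.castLE h a ≠ i₁ := by
    intro a ha h'
    apply ha
    apply Fin.ext
    have := congrArg Fin.val h'
    simpa [i₁] using this
  have hmatapp : ∀ a b, mat h v g a b = proj h g (v (Fin.castLE h b)) a := fun a b => rfl
  have hmat : mat h v g = dg m α₁ := by
    ext a b
    rw [hmatapp, hpr]
    by_cases ha : a = 1
    · subst ha
      rw [← hi₁, hv'1, hw, inner_add_left, inner_smul_left, inner_smul_left, hon, hon]
      rw [if_neg (hcj b).symm]
      by_cases hb : b = 1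
      · subst hb
        have e : (dg m α₁) 1 1 = α₁ := by
          unfold dg; rw [Matrix.diagonal_apply_eq]; rfl
        rw [e, if_pos hi₁]
        simp
      · rw [if_neg (hc1 b hb).symm]
        unfold dg
        rw [Matrix.diagonal_apply_ne _ (Ne.symm hb)]
        simp
    · rw [hv'2 _ (hc1 a ha) (hcj a), hon]
      by_cases hab : a = b
      · subst hab
        unfold dg
        rw [if_pos rfl, Matrix.diagonal_apply_eq]
        revert ha
        refine Fin.cases ?_ (fun k => ?_) a
        · intro _; rfl
        · refine Fin.cases ?_ (fun k => ?_) k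
          · intro h'; exact absurd rfl h'
          · intro _; simp
      · have : Fin.castLE h a ≠ Fin.castLE h b := fun h' => hab (Fin.castLE_injective h h')
        rw [if_neg this]
        unfold dg
        rw [Matrix.diagonal_apply_ne _ hab]
  have hcol : (mat h v g).updateCol 1 (colb h hm v g) = dg m α₂ := by
    ext a b
    by_cases hb : b = 1
    · subst hb
      rw [Matrix.updateCol_self]
      change proj h g (v (jx hm)) a = _
      rw [hpr]
      by_cases ha : a = 1
      · subst ha
        have e : (dg m α₂) 1 1 = α₂ := by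
          unfold dg; rw [Matrix.diagonal_apply_eq]; rfl
        rw [e, ← hi₁, hv'1, hw, inner_add_left, inner_smul_left, inner_smul_left, hon, hon,
          if_pos rfl, if_neg hij]
        simp
      · rw [hv'2 _ (hc1 a ha) (hcj a), hon, if_neg (hcj a)]
        unfold dg
        rw [Matrix.diagonal_apply_ne _ ha]
    · rw [Matrix.updateCol_ne hb, hmat]
      unfold dg
      by_cases hab : a = b
      · subst hab
        rw [Matrix.diagonal_apply_eq, Matrix.diagonal_apply_eq]
        revert hb
        refine Fin.cases ?_ (fun k => ?_) a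
        · intro _; rfl
        · refine Fin.cases ?_ (fun k => ?_) k
          · intro h'; exact absurd rfl h'
          · intro _; simp
      · rw [Matrix.diagonal_apply_ne _ hab, Matrix.diagonal_apply_ne _ hab]
  unfold DD
  rw [hcol, hmat, det_dg, det_dg]

end Pool.Agent.Lib.MP_b62b68_gt
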