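import Mathlib
import Pool.Agent.Lib.MP_b62b68_gt.Dir

/-!
The bodies used in the hyperplane case and the values of `W` on them.
-/

namespace Pool.Agent.Lib.MP_b62b68_gt

open MeasureTheory Set Filter
open scoped ENNReal Topology Pointwise

variable {n m : ℕ}

/-- The profile `c₀ + c₁ z + c₂ |z|`. -/
def pf (c : ℝ × ℝ × ℝ) (z : ℝ) : ℝ := c.1 + c.2.1 * z + c.2.2 * |z|

theorem continuous_pf (c : ℝ × ℝ × ℝ) : Continuous (pf c) := by
  unfold pf; fun_prop

/-- The region `|z| ≤ 1`, `|s| ≤ f(z)`, `y` in the cube. -/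
def reg (m : ℕ) (c : ℝ × ℝ × ℝ) : Set (GG m) :=
  {q | (|q.1.1| ≤ 1 ∧ |q.1.2| ≤ pf c q.1.1) ∧ q.2 ∈ cubeB m}

/-- The planar region. -/
def reg2 (c : ℝ × ℝ × ℝ) : Set (ℝ × ℝ) := {w | |w.1| ≤ 1 ∧ |w.2| ≤ pf c w.1}

theorem reg_eq (m : ℕ) (c : ℝ × ℝ × ℝ) : reg m c = reg2 c ×ˢ cubeB m := rfl

theorem isClosed_reg2 (c : ℝ × ℝ × ℝ) : IsClosed (reg2 c) :=
  (isClosed_le (continuous_abs.comp continuous_fst) continuous_const).inter
    (isClosed_le (continuous_abs.comp continuous_snd) ((continuous_pf c).comp continuous_fst))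

theorem integral_pf (c : ℝ × ℝ × ℝ) :
    ∫ z in (-1 : ℝ)..1, 2 * pf c z = 2 * (2 * c.1 + c.2.2) := by
  have habs : ∫ z in (-1 : ℝ)..1, |z| = 1 := by
    have h1 : ∫ z in (-1 : ℝ)..0, |z| = 1 / 2 := by
      have : ∫ z in (-1 : ℝ)..0, |z| = ∫ z in (-1 : ℝ)..0, -z := by
        apply intervalIntegral.integral_congr
        intro z hz
        rw [uIcc_of_le (by norm_num)] at hz
        exact abs_of_nonpos hz.2
      rw [this, intervalIntegral.integral_neg, integral_id]
      norm_num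
    have h2 : ∫ z in (0 : ℝ)..1, |z| = 1 / 2 := by
      have : ∫ z in (0 : ℝ)..1, |z| = ∫ z in (0 : ℝ)..1, z := by
        apply intervalIntegral.integral_congr
        intro z hz
        rw [uIcc_of_le (by norm_num)] at hz
        exact abs_of_nonneg hz.1
      rw [this, integral_id]
      norm_num
    rw [← intervalIntegral.integral_add_adjacent_intervals (b := 0)
      (continuous_abs.intervalIntegrable _ _) (continuous_abs.intervalIntegrable _ _), h1, h2]
    norm_num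
  have hi1 : IntervalIntegrable (fun z : ℝ => c.1) volume (-1) 1 :=
    continuous_const.intervalIntegrable _ _
  have hi2 : IntervalIntegrable (fun z : ℝ => c.2.1 * z) volume (-1) 1 :=
    (continuous_const.mul continuous_id).intervalIntegrable _ _
  have hi3 : IntervalIntegrable (fun z : ℝ => c.2.2 * |z|) volume (-1) 1 :=
    (continuous_const.mul continuous_abs).intervalIntegrable _ _
  simp only [pf]
  rw [intervalIntegral.integral_const_mul, intervalIntegral.integral_add (hi1.add hi2) hi3,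
    intervalIntegral.integral_add hi1 hi2, intervalIntegral.integral_const_mul,
    intervalIntegral.integral_const_mul, habs, integral_id, intervalIntegral.integral_const]
  simp only [smul_eq_mul]
  ring

theorem volume_reg2 (c : ℝ × ℝ × ℝ) (hc : ∀ z, |z| ≤ 1 → 0 ≤ pf c z) :
    volume (reg2 c) = ENNReal.ofReal (2 * (2 * c.1 + c.2.2)) := by
  rw [Measure.volume_eq_prod, Measure.prod_apply (isClosed_reg2 c).measurableSet]
  have h1 : ∀ z : ℝ, volume (Prod.mk z ⁻¹' (reg2 c)) =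
      (Icc (-1 : ℝ) 1).indicator (fun z => ENNReal.ofReal (2 * pf c z)) z := by
    intro z
    by_cases hz : |z| ≤ 1
    · have hz' : z ∈ Icc (-1 : ℝ) 1 := abs_le.1 hz
      rw [indicator_of_mem hz']
      have : Prod.mk z ⁻¹' (reg2 c) = Icc (-pf c z) (pf c z) := by
        ext s
        simp only [reg2, mem_preimage, mem_ofPred_eq, mem_Icc, ← abs_le]
        exact ⟨fun h => h.2, fun h => ⟨hz, h⟩⟩
      rw [this, Real.volume_Icc]
      congr 1
      ring
    · have hz' : z ∉ Icc (-1 : ℝ) 1 := fun h => hz (abs_le.2 h)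
      rw [indicator_of_notMem hz']
      have : Prod.mk z ⁻¹' (reg2 c) = ∅ := by
        ext s
        simp only [reg2, mem_preimage, mem_ofPred_eq, mem_empty_iff_false, iff_false]
        exact fun h => hz h.1
      rw [this, measure_empty]
  simp only [h1]
  rw [lintegral_indicator measurableSet_Icc]
  have hcont : Continuous fun z => 2 * pf c z := continuous_const.mul (continuous_pf c)
  rw [← ofReal_integral_eq_lintegral_ofReal]
  · rw [integral_Icc_eq_integral_Ioc, ← intervalIntegral.integral_of_le (by norm_num),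
      integral_pf]
  · exact hcont.continuousOn.integrableOn_Icc
  · rw [EventuallyLE, ae_restrict_iff' measurableSet_Icc]
    refine Eventually.of_forall fun z hz => ?_
    have := hc z (abs_le.2 hz)
    simp only [Pi.zero_apply]
    linarith

theorem isCompact_reg (m : ℕ) (c : ℝ × ℝ × ℝ) : IsCompact (reg m c) := by
  rw [reg_eq]
  apply IsCompact.prod _ (isCompact_cubeB m)
  have hb : reg2 c ⊆ Icc (-1) 1 ×ˢ Icc (-(|c.1| + |c.2.1| + |c.2.2|))
      (|c.1| + |c.2.1| + |c.2.2|) := by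
    rintro ⟨z, s⟩ ⟨h1, h2⟩
    simp only at h1 h2
    refine ⟨abs_le.1 h1, ?_⟩
    rw [mem_Icc, ← abs_le]
    refine h2.trans ?_
    unfold pf
    have e1 : c.1 ≤ |c.1| := le_abs_self _
    have e2 : c.2.1 * z ≤ |c.2.1| := by
      calc c.2.1 * z ≤ |c.2.1 * z| := le_abs_self _
        _ = |c.2.1| * |z| := abs_mul _ _
        _ ≤ |c.2.1| * 1 := mul_le_mul_of_nonneg_left h1 (abs_nonneg _)
        _ = |c.2.1| := mul_one _
    have e3 : c.2.2 * |z| ≤ |c.2.2| := by
      calc c.2.2 * |z| ≤ |c.2.2| * |z| := mul_le_mul_of_nonneg_right (le_abs_self _) (abs_nonneg _)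
        _ ≤ |c.2.2| * 1 := mul_le_mul_of_nonneg_left h1 (abs_nonneg _)
        _ = |c.2.2| := mul_one _
    linarith
  exact (isCompact_Icc.prod isCompact_Icc).of_isClosed_subset (isClosed_reg2 c) hb

theorem volume_reg (m : ℕ) (c : ℝ × ℝ × ℝ) (hc : ∀ z, |z| ≤ 1 → 0 ≤ pf c z) :
    volume (reg m c) = ENNReal.ofReal (2 * (2 * c.1 + c.2.2)) * volume (cubeB m) := by
  rw [reg_eq, Measure.volume_eq_prod, Measure.prod_prod, volume_reg2 c hc]

/-- The body `|z| ≤ 1`, `|s| ≤ f(z)`, `|t| ≤ g(z)`, `y` in the cube. -/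
def body (m : ℕ) (c d : ℝ × ℝ × ℝ) : Set (FF m) :=
  {p | |p.2.1.1| ≤ 1 ∧ |p.2.1.2| ≤ pf c p.2.1.1 ∧ |p.1| ≤ pf d p.2.1.1 ∧ p.2.2 ∈ cubeB m}

theorem isCompact_body (m : ℕ) (c d : ℝ × ℝ × ℝ) : IsCompact (body m c d) := by
  have hcl : IsClosed (body m c d) := by
    have f1 : Continuous fun p : FF m => p.2.1.1 := by fun_prop
    have f2 : Continuous fun p : FF m => p.2.1.2 := by fun_prop
    have f3 : Continuous fun p : FF m => p.2.2 := by fun_prop
    exact (isClosed_le f1.abs continuous_const).inter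
      ((isClosed_le f2.abs ((continuous_pf c).comp f1)).inter
        ((isClosed_le continuous_fst.abs ((continuous_pf d).comp f1)).inter
          ((isCompact_cubeB m).isClosed.preimage f3)))
  have hb : body m c d ⊆ (Prod.snd '' (reg2 d)) ×ˢ reg m c := by
    rintro ⟨t, ⟨⟨z, s⟩, y⟩⟩ ⟨h1, h2, h3, h4⟩
    exact ⟨⟨(z, t), ⟨h1, h3⟩, rfl⟩, ⟨h1, h2⟩, h4⟩
  have hc1 : IsCompact (reg2 d) := by
    have := (isCompact_reg 0 d).image (continuous_fst : Continuous (Prod.fst : GG 0 → ℝ × ℝ))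
    have e : Prod.fst '' reg 0 d = reg2 d := by
      ext w
      constructor
      · rintro ⟨q, hq, rfl⟩; exact hq.1
      · intro hw
        exact ⟨(w, 0), ⟨hw, zero_mem_cubeB 0⟩, rfl⟩
    rwa [e] at this
  exact ((hc1.image continuous_snd).prod (isCompact_reg m c)).of_isClosed_subset hcl hb

theorem abs_add_mul_le {a b x y : ℝ} (ha : 0 ≤ a) (hb : 0 ≤ b) :
    |a * x + b * y| ≤ a * |x| + b * |y| := by
  calc |a * x + b * y| ≤ |a * x| + |b * y| := abs_add_le _ _
    _ = a * |x| + b * |y| := by rw [abs_mul, abs_mul, abs_of_nonneg ha, abs_of_nonneg hb]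

theorem pf_concave {c : ℝ × ℝ × ℝ} (hc : c.2.2 ≤ 0) {a b x y : ℝ} (ha : 0 ≤ a) (hb : 0 ≤ b)
    (hab : a + b = 1) : a * pf c x + b * pf c y ≤ pf c (a * x + b * y) := by
  unfold pf
  have h1 := abs_add_mul_le (x := x) (y := y) ha hb
  have h2 : c.2.2 * (a * |x| + b * |y|) ≤ c.2.2 * |a * x + b * y| :=
    mul_le_mul_of_nonpos_left h1 hc
  have h3 : c.1 = a * c.1 + b * c.1 := by rw [← add_mul, hab, one_mul]
  nlinarith

theorem convex_body {m : ℕ} {c d : ℝ × ℝ × ℝ} (hc : c.2.2 ≤ 0) (hd : d.2.2 ≤ 0) :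
    Convex ℝ (body m c d) := by
  rintro ⟨t, ⟨⟨z, s⟩, y⟩⟩ ⟨h1, h2, h3, h4⟩ ⟨t', ⟨⟨z', s'⟩, y'⟩⟩ ⟨h1', h2', h3', h4'⟩ a b ha hb hab
  simp only at h1 h2 h3 h4 h1' h2' h3' h4'
  refine ⟨?_, ?_, ?_, ?_⟩
  · change |a * z + b * z'| ≤ 1
    have := abs_add_mul_le (x := z) (y := z') ha hb
    nlinarith
  · change |a * s + b * s'| ≤ pf c (a * z + b * z')
    have e1 := abs_add_mul_le (x := s) (y := s') ha hb
    have e2 := pf_concave hc (x := z) (y := z') ha hb hab
    have e3 : a * |s| ≤ a * pf c z := mul_le_mul_of_nonneg_left h2 ha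
    have e4 : b * |s'| ≤ b * pf c z' := mul_le_mul_of_nonneg_left h2' hb
    linarith
  · change |a * t + b * t'| ≤ pf d (a * z + b * z')
    have e1 := abs_add_mul_le (x := t) (y := t') ha hb
    have e2 := pf_concave hd (x := z) (y := z') ha hb hab
    have e3 : a * |t| ≤ a * pf d z := mul_le_mul_of_nonneg_left h3 ha
    have e4 : b * |t'| ≤ b * pf d z' := mul_le_mul_of_nonneg_left h3' hb
    linarith
  · exact convex_cubeB m h4 h4' ha hb hab

/-- A linear combination of profiles. -/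
def comb (α β : ℝ) (c d : ℝ × ℝ × ℝ) : ℝ × ℝ × ℝ := α • c + β • d

theorem pf_comb (α β : ℝ) (c d : ℝ × ℝ × ℝ) (z : ℝ) :
    pf (comb α β c d) z = α * pf c z + β * pf d z := by
  simp only [comb, pf, Prod.fst_add, Prod.snd_add, Prod.smul_fst, Prod.smul_snd, smul_eq_mul]
  ring

theorem piA_body (a : ℝ × ℝ) {c d : ℝ × ℝ × ℝ} (hc : ∀ z, |z| ≤ 1 → 0 ≤ pf c z)
    (hd : ∀ z, |z| ≤ 1 → 0 ≤ pf d z) :
    piA a '' body m c d = reg m (comb |a.1| |a.2| c d) := by
  ext ⟨⟨z, σ⟩, y⟩
  constructor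
  · rintro ⟨⟨t, ⟨⟨z', s⟩, y'⟩⟩, ⟨h1, h2, h3, h4⟩, hp⟩
    rw [piA_apply] at hp
    simp only [Prod.mk.injEq] at hp h1 h2 h3 h4
    obtain ⟨⟨rfl, rfl⟩, rfl⟩ := hp
    refine ⟨⟨h1, ?_⟩, h4⟩
    simp only
    rw [pf_comb]
    calc |a.1 * s + a.2 * t| ≤ |a.1 * s| + |a.2 * t| := abs_add_le _ _
      _ = |a.1| * |s| + |a.2| * |t| := by rw [abs_mul, abs_mul]
      _ ≤ _ := add_le_add (mul_le_mul_of_nonneg_left h2 (abs_nonneg _))
          (mul_le_mul_of_nonneg_left h3 (abs_nonneg _))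
  · rintro ⟨⟨h1, h2⟩, h4⟩
    simp only at h1 h2 h4
    rw [pf_comb] at h2
    set F := pf c z
    set G := pf d z
    have hF : 0 ≤ F := hc z h1
    have hG : 0 ≤ G := hd z h1
    set N := |a.1| * F + |a.2| * G with hN
    have hN0 : 0 ≤ N := by positivity
    rcases eq_or_lt_of_le hN0 with h0 | hpos
    · refine ⟨(0, ((z, 0), y)), ⟨h1, by simpa using hF, by simpa using hG, h4⟩, ?_⟩
      rw [piA_apply]
      have : σ = 0 := by
        rw [← h0] at h2
        exact abs_nonpos_iff.1 h2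
      simp [this]
    · set θ := σ / N with hθ
      have hθ1 : |θ| ≤ 1 := by
        rw [hθ, abs_div, abs_of_pos hpos, div_le_one hpos]; exact h2
      have hsg : ∀ x : ℝ, ∃ e : ℝ, |e| ≤ 1 ∧ x * e = |x| := by
        intro x
        rcases le_total 0 x with h | h
        · exact ⟨1, by simp, by rw [mul_one, abs_of_nonneg h]⟩
        · exact ⟨-1, by simp, by rw [abs_of_nonpos h]; ring⟩
      obtain ⟨e₁, he₁, he₁'⟩ := hsg a.1
      obtain ⟨e₂, he₂, he₂'⟩ := hsg a.2
      refine ⟨(θ * (e₂ * G), ((z, θ * (e₁ * F)), y)), ⟨h1, ?_, ?_, h4⟩, ?_⟩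
      · change |θ * (e₁ * F)| ≤ F
        rw [abs_mul, abs_mul, abs_of_nonneg hF]
        calc |θ| * (|e₁| * F) ≤ 1 * (1 * F) := by gcongr
          _ = F := by ring
      · change |θ * (e₂ * G)| ≤ G
        rw [abs_mul, abs_mul, abs_of_nonneg hG]
        calc |θ| * (|e₂| * G) ≤ 1 * (1 * G) := by gcongr
          _ = G := by ring
      · rw [piA_apply]
        simp only [Prod.mk.injEq, and_true, true_and]
        calc a.1 * (θ * (e₁ * F)) + a.2 * (θ * (e₂ * G)) =
            θ * ((a.1 * e₁) * F + (a.2 * e₂) * G) := by ring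
          _ = θ * N := by rw [he₁', he₂']
          _ = σ := by rw [hθ]; field_simp

/-- Strict monotonicity of the volume. -/
theorem volume_lt {A B : Set (GG m)} (hA : IsCompact A) (hBv : Convex ℝ B)
    (hAB : A ⊆ B) (hint : (interior B).Nonempty) {b : GG m} (hb : b ∈ B) (hbA : b ∉ A) :
    volume A < volume B := by
  have hHaar : (volume : Measure (GG m)).IsAddHaarMeasure := Measure.prod.instIsAddHaarMeasure _ _
  obtain ⟨c, hc⟩ := hint
  have hcont : ContinuousAt (fun t : ℝ => b + t • (c - b)) 0 := by fun_prop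
  have hev : ∀ᶠ t in 𝓝 (0 : ℝ), b + t • (c - b) ∈ Aᶜ := by
    apply hcont
    simp only [zero_smul, add_zero]
    exact hA.isClosed.isOpen_compl.mem_nhds hbA
  obtain ⟨ε, hε, hεU⟩ := Metric.eventually_nhds_iff.1 hev
  set t := min (ε / 2) 1 with ht
  have ht0 : 0 < t := lt_min (by linarith) one_pos
  have htε : t < ε := (min_le_left _ _).trans_lt (by linarith)
  have hz1 : b + t • (c - b) ∈ interior B :=
    hBv.add_smul_sub_mem_interior hb hc ⟨ht0, min_le_right _ _⟩
  have hz2 : b + t • (c - b) ∈ Aᶜ := by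
    apply hεU
    rw [Real.dist_eq, sub_zero, abs_of_pos ht0]
    exact htε
  have hopen : IsOpen (interior B ∩ Aᶜ) := isOpen_interior.inter hA.isClosed.isOpen_compl
  have hpos : 0 < volume (interior B ∩ Aᶜ) := hopen.measure_pos volume ⟨_, hz1, hz2⟩
  have h1 : volume A + volume (interior B ∩ Aᶜ) ≤ volume B := by
    rw [← measure_union (disjoint_left.2 fun x hx hx' => hx'.2 hx) hopen.measurableSet]
    exact measure_mono (union_subset hAB (inter_subset_left.trans interior_subset))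
  exact (ENNReal.lt_add_right hA.measure_lt_top.ne hpos.ne').trans_le h1

end Pool.Agent.Lib.MP_b62b68_gt
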