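import Mathlib
import Pool.Agent.Lib.MP_b62b68_gt.Bodies

/-!
The values of the limit functional `W` on the bodies used in the hyperplane case.
-/

namespace Pool.Agent.Lib.MP_b62b68_gt

open MeasureTheory Set Filter
open scoped ENNReal Topology Pointwise

variable {n m : ℕ}

noncomputable def cA : ℝ × ℝ × ℝ := (3 / 2, 1 / 2, 0)
noncomputable def cA' : ℝ × ℝ × ℝ := (3 / 2, -1 / 2, 0)
def cB : ℝ × ℝ × ℝ := (2, 0, -1)
def cC : ℝ × ℝ × ℝ := (2, 0, 0)

theorem pf_cA (z : ℝ) : pf cA z = 3 / 2 + z / 2 := by simp only [pf, cA]; ring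
theorem pf_cA' (z : ℝ) : pf cA' z = 3 / 2 - z / 2 := by simp only [pf, cA']; ring
theorem pf_cB (z : ℝ) : pf cB z = 2 - |z| := by simp only [pf, cB]; ring
theorem pf_cC (z : ℝ) : pf cC z = 2 := by simp only [pf, cC]; ring

theorem cA_nonneg (z : ℝ) (hz : |z| ≤ 1) : 0 ≤ pf cA z := by
  rw [pf_cA]; have := abs_le.1 hz; linarith
theorem cA'_nonneg (z : ℝ) (hz : |z| ≤ 1) : 0 ≤ pf cA' z := by
  rw [pf_cA']; have := abs_le.1 hz; linarith
theorem cB_nonneg (z : ℝ) (hz : |z| ≤ 1) : 0 ≤ pf cB z := by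
  rw [pf_cB]; linarith
theorem cC_nonneg (z : ℝ) (_ : |z| ≤ 1) : 0 ≤ pf cC z := by
  rw [pf_cC]; norm_num

theorem zero_mem_interior_cubeB (m : ℕ) : (0 : Fin m → ℝ) ∈ interior (cubeB m) := by
  have : Icc (fun _ : Fin m => (-1 : ℝ)) (fun _ => 1) ∈ 𝓝 (0 : Fin m → ℝ) := by
    rw [← Set.pi_univ_Icc]
    exact set_pi_mem_nhds finite_univ fun i _ => Icc_mem_nhds (by simp) (by simp)
  exact mem_interior_iff_mem_nhds.2 this

theorem zero_mem_interior_body (m : ℕ) {c d : ℝ × ℝ × ℝ} (hc : 0 < c.1) (hd : 0 < d.1) :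
    (0 : FF m) ∈ interior (body m c d) := by
  have f1 : Continuous fun p : FF m => p.2.1.1 := by fun_prop
  have f2 : Continuous fun p : FF m => p.2.1.2 := by fun_prop
  have f3 : Continuous fun p : FF m => p.2.2 := by fun_prop
  have f4 : Continuous fun p : FF m => p.1 := by fun_prop
  rw [mem_interior]
  refine ⟨{p | |p.2.1.1| < 1} ∩ ({p | |p.2.1.2| < pf c p.2.1.1} ∩
    ({p | |p.1| < pf d p.2.1.1} ∩ ((fun p : FF m => p.2.2) ⁻¹' interior (cubeB m)))), ?_, ?_, ?_⟩
  · rintro p ⟨h1, h2, h3, h4⟩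
    exact ⟨le_of_lt h1, le_of_lt h2, le_of_lt h3, interior_subset h4⟩
  · exact (isOpen_lt f1.abs continuous_const).inter
      ((isOpen_lt f2.abs ((continuous_pf c).comp f1)).inter
        ((isOpen_lt f4.abs ((continuous_pf d).comp f1)).inter
          (isOpen_interior.preimage f3)))
  · refine ⟨?_, ?_, ?_, zero_mem_interior_cubeB m⟩
    · change |(0 : ℝ)| < 1; simp
    · change |(0 : ℝ)| < pf c 0; simp [pf, hc]
    · change |(0 : ℝ)| < pf d 0; simp [pf, hd]

theorem zero_mem_interior_reg (m : ℕ) {c : ℝ × ℝ × ℝ} (hc : 0 < c.1) :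
    (0 : GG m) ∈ interior (reg m c) := by
  have f1 : Continuous fun p : GG m => p.1.1 := by fun_prop
  have f2 : Continuous fun p : GG m => p.1.2 := by fun_prop
  have f3 : Continuous fun p : GG m => p.2 := by fun_prop
  rw [mem_interior]
  refine ⟨{p | |p.1.1| < 1} ∩ ({p | |p.1.2| < pf c p.1.1} ∩
    ((fun p : GG m => p.2) ⁻¹' interior (cubeB m))), ?_, ?_, ?_⟩
  · rintro p ⟨h1, h2, h4⟩
    exact ⟨⟨le_of_lt h1, le_of_lt h2⟩, interior_subset h4⟩
  · exact (isOpen_lt f1.abs continuous_const).inter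
      ((isOpen_lt f2.abs ((continuous_pf c).comp f1)).inter
          (isOpen_interior.preimage f3))
  · refine ⟨?_, ?_, zero_mem_interior_cubeB m⟩
    · change |(0 : ℝ)| < 1; simp
    · change |(0 : ℝ)| < pf c 0; simp [pf, hc]

theorem convex_reg (m : ℕ) {c : ℝ × ℝ × ℝ} (hc : c.2.2 ≤ 0) : Convex ℝ (reg m c) := by
  rintro ⟨⟨z, s⟩, y⟩ ⟨⟨h1, h2⟩, h4⟩ ⟨⟨z', s'⟩, y'⟩ ⟨⟨h1', h2'⟩, h4'⟩ a b ha hb hab
  simp only at h1 h2 h4 h1' h2' h4'
  refine ⟨⟨?_, ?_⟩, ?_⟩
  · change |a * z + b * z'| ≤ 1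
    have := abs_add_mul_le (x := z) (y := z') ha hb
    nlinarith
  · change |a * s + b * s'| ≤ pf c (a * z + b * z')
    have e1 := abs_add_mul_le (x := s) (y := s') ha hb
    have e2 := pf_concave hc (x := z) (y := z') ha hb hab
    have e3 : a * |s| ≤ a * pf c z := mul_le_mul_of_nonneg_left h2 ha
    have e4 : b * |s'| ≤ b * pf c z' := mul_le_mul_of_nonneg_left h2' hb
    linarith
  · exact convex_cubeB m h4 h4' ha hb hab

/-- The bodies. -/
def L1 (m : ℕ) : Set (FF m) := body m cA cC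
def S1 (m : ℕ) : Set (FF m) := body m cB cC
def L2 (m : ℕ) : Set (FF m) := body m cC cA'
def S2 (m : ℕ) : Set (FF m) := body m cC cB
def KK (m : ℕ) : Set (FF m) := body m cA cA'
def QQ (m : ℕ) : Set (FF m) := body m cC cC
def TT (m : ℕ) : Set (FF m) := {p | |p.2.1.2| + |p.1| ≤ 3} ∩ QQ m
def UU (m : ℕ) : Set (FF m) := (S1 m ∩ S2 m) ∩ TT m

theorem volume_piA_body (a : ℝ × ℝ) {c d : ℝ × ℝ × ℝ} (hc : ∀ z, |z| ≤ 1 → 0 ≤ pf c z)
    (hd : ∀ z, |z| ≤ 1 → 0 ≤ pf d z) :
    volume (piA a '' body m c d) =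
      ENNReal.ofReal (2 * (|a.1| * (2 * c.1 + c.2.2) + |a.2| * (2 * d.1 + d.2.2))) *
        volume (cubeB m) := by
  rw [piA_body a hc hd, volume_reg]
  · congr 2
    simp only [comb, Prod.fst_add, Prod.snd_add, Prod.smul_fst, Prod.smul_snd, smul_eq_mul]
    ring
  · intro z hz
    rw [pf_comb]
    have := hc z hz
    have := hd z hz
    positivity

theorem WW_le_of_volume (h : m + 2 ≤ n) (hm : m + 3 ≤ n) (v : OrthonormalBasis (Fin n) ℝ (E n))
    {A B : Set (FF m)} (hA : IsCompact A) (hB : IsCompact B)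
    (hle : ∀ a : ℝ × ℝ, volume (piA a '' A) ≤ volume (piA a '' B)) :
    WW h hm v A ≤ WW h hm v B := by
  obtain ⟨c, hc0, hctop, hc⟩ := exists_scalar m
  apply WW_mono
  intro g
  rw [hc _ (hA.image (piA (DD h hm v g)).continuous_of_finiteDimensional),
    hc _ (hB.image (piA (DD h hm v g)).continuous_of_finiteDimensional)]
  exact mul_le_mul_right (hle _) _

theorem WW_lt_of_volume (h : m + 2 ≤ n) (hm : m + 3 ≤ n) (v : OrthonormalBasis (Fin n) ℝ (E n))
    {A B : Set (FF m)} (hA : IsCompact A) (hB : IsCompact B)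
    (hle : ∀ a : ℝ × ℝ, volume (piA a '' A) ≤ volume (piA a '' B))
    {U : Set (ℝ × ℝ)} (hU : IsOpen U) {α₁ α₂ : ℝ} (hα : α₁ ^ 2 + α₂ ^ 2 = 1)
    (hαU : (α₁, α₂) ∈ U)
    (hlt : ∀ a ∈ U, volume (piA a '' A) < volume (piA a '' B)) :
    WW h hm v A < WW h hm v B := by
  obtain ⟨c, hc0, hctop, hc⟩ := exists_scalar m
  refine WW_lt h hm v hA hB (fun g => ?_) (hU.preimage (continuous_DD h hm v)) ?_
    (fun g hg => ?_)
  · rw [hc _ (hA.image (piA (DD h hm v g)).continuous_of_finiteDimensional),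
      hc _ (hB.image (piA (DD h hm v g)).continuous_of_finiteDimensional)]
    exact mul_le_mul_right (hle _) _
  · obtain ⟨g, hg⟩ := exists_DD h hm v hα
    exact ⟨g, by rw [mem_preimage, hg]; exact hαU⟩
  · rw [hc _ (hA.image (piA (DD h hm v g)).continuous_of_finiteDimensional),
      hc _ (hB.image (piA (DD h hm v g)).continuous_of_finiteDimensional)]
    exact ENNReal.mul_lt_mul_right hc0 hctop (hlt _ hg)

theorem isCompact_L1 (m : ℕ) : IsCompact (L1 m) := isCompact_body _ _ _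
theorem isCompact_L2 (m : ℕ) : IsCompact (L2 m) := isCompact_body _ _ _
theorem isCompact_S1 (m : ℕ) : IsCompact (S1 m) := isCompact_body _ _ _
theorem isCompact_S2 (m : ℕ) : IsCompact (S2 m) := isCompact_body _ _ _
theorem isCompact_KK (m : ℕ) : IsCompact (KK m) := isCompact_body _ _ _
theorem isCompact_QQ (m : ℕ) : IsCompact (QQ m) := isCompact_body _ _ _

theorem convex_L1 (m : ℕ) : Convex ℝ (L1 m) := convex_body (by simp [cA]) (by simp [cC])
theorem convex_L2 (m : ℕ) : Convex ℝ (L2 m) := convex_body (by simp [cC]) (by simp [cA'])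
theorem convex_S1 (m : ℕ) : Convex ℝ (S1 m) := convex_body (by simp [cB]) (by simp [cC])
theorem convex_S2 (m : ℕ) : Convex ℝ (S2 m) := convex_body (by simp [cC]) (by simp [cB])
theorem convex_KK (m : ℕ) : Convex ℝ (KK m) := convex_body (by simp [cA]) (by simp [cA'])
theorem convex_QQ (m : ℕ) : Convex ℝ (QQ m) := convex_body (by simp [cC]) (by simp [cC])

theorem isCompact_TT (m : ℕ) : IsCompact (TT m) := by
  have f2 : Continuous fun p : FF m => p.2.1.2 := by fun_prop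
  have f4 : Continuous fun p : FF m => p.1 := by fun_prop
  exact (isCompact_QQ m).inter_left (isClosed_le (f2.abs.add f4.abs) continuous_const)

theorem convex_TT (m : ℕ) : Convex ℝ (TT m) := by
  apply Convex.inter _ (convex_QQ m)
  rintro ⟨t, ⟨⟨z, s⟩, y⟩⟩ h1 ⟨t', ⟨⟨z', s'⟩, y'⟩⟩ h1' a b ha hb hab
  simp only [mem_ofPred_eq] at h1 h1' ⊢
  change |a * s + b * s'| + |a * t + b * t'| ≤ 3
  have e1 := abs_add_mul_le (x := s) (y := s') ha hb
  have e2 := abs_add_mul_le (x := t) (y := t') ha hb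
  nlinarith

theorem isCompact_UU (m : ℕ) : IsCompact (UU m) :=
  ((isCompact_S1 m).inter (isCompact_S2 m)).inter (isCompact_TT m)

theorem convex_UU (m : ℕ) : Convex ℝ (UU m) :=
  ((convex_S1 m).inter (convex_S2 m)).inter (convex_TT m)

theorem zero_mem_interior_TT (m : ℕ) : (0 : FF m) ∈ interior (TT m) := by
  have f2 : Continuous fun p : FF m => p.2.1.2 := by fun_prop
  have f4 : Continuous fun p : FF m => p.1 := by fun_prop
  rw [TT, interior_inter]
  refine ⟨?_, zero_mem_interior_body m (by norm_num [cC]) (by norm_num [cC])⟩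
  rw [mem_interior]
  refine ⟨{p | |p.2.1.2| + |p.1| < 3}, fun p hp => ?_,
    isOpen_lt (f2.abs.add f4.abs) continuous_const, ?_⟩
  · simp only [mem_ofPred_eq] at hp ⊢
    exact hp.le
  change |(0 : ℝ)| + |(0 : ℝ)| < 3
  norm_num

theorem zero_mem_interior_UU (m : ℕ) : (0 : FF m) ∈ interior (UU m) := by
  rw [UU, interior_inter, interior_inter]
  exact ⟨⟨zero_mem_interior_body m (by norm_num [cB]) (by norm_num [cC]),
    zero_mem_interior_body m (by norm_num [cC]) (by norm_num [cB])⟩, zero_mem_interior_TT m⟩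

theorem isCompact_hull {S : Set (FF m)} (hS : IsCompact S) (hv : Convex ℝ S) (hn : S.Nonempty)
    (q : FF m) : IsCompact (convexHull ℝ (insert q S)) := by
  have h1 : convexHull ℝ (insert q S) =
      (fun p : ℝ × FF m => (1 - p.1) • q + p.1 • p.2) '' (Icc 0 1 ×ˢ S) := by
    rw [convexHull_insert hn, hv.convexHull_eq, convexJoin_singleton_left]
    ext x
    simp only [mem_iUnion, exists_prop, segment_eq_image]
    constructor
    · rintro ⟨y, hy, θ, hθ, rfl⟩
      exact ⟨(θ, y), ⟨hθ, hy⟩, rfl⟩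
    · rintro ⟨⟨θ, y⟩, ⟨hθ, hy⟩, rfl⟩
      exact ⟨y, hy, θ, hθ, rfl⟩
  rw [h1]
  apply (isCompact_Icc.prod hS).image
  fun_prop

theorem WW_L1 (h : m + 2 ≤ n) (hm : m + 3 ≤ n) (v : OrthonormalBasis (Fin n) ℝ (E n)) :
    WW h hm v (L1 m) ≤ WW h hm v (S1 m) := by
  refine WW_le_of_volume h hm v (isCompact_L1 m) (isCompact_S1 m) fun a => le_of_eq ?_
  rw [L1, S1, volume_piA_body a cA_nonneg cC_nonneg, volume_piA_body a cB_nonneg cC_nonneg]
  congr 2
  simp only [cA, cB, cC]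
  ring

theorem WW_L2 (h : m + 2 ≤ n) (hm : m + 3 ≤ n) (v : OrthonormalBasis (Fin n) ℝ (E n)) :
    WW h hm v (L2 m) ≤ WW h hm v (S2 m) := by
  refine WW_le_of_volume h hm v (isCompact_L2 m) (isCompact_S2 m) fun a => le_of_eq ?_
  rw [L2, S2, volume_piA_body a cC_nonneg cA'_nonneg, volume_piA_body a cC_nonneg cB_nonneg]
  congr 2
  simp only [cA', cB, cC]
  ring

/-- Adding a point to `S₁` increases `W`. -/
theorem WW_S1_lt (h : m + 2 ≤ n) (hm : m + 3 ≤ n) (v : OrthonormalBasis (Fin n) ℝ (E n))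
    {q : FF m} (hq : q ∈ QQ m) (hqS : q ∉ S1 m) :
    WW h hm v (S1 m) < WW h hm v (convexHull ℝ (insert q (S1 m))) := by
  obtain ⟨t, ⟨⟨z, s⟩, y⟩⟩ := q
  obtain ⟨hz, hs, ht, hy⟩ := hq
  simp only [pf_cC] at hz hs ht hy
  have hη : 0 < |s| + |z| - 2 := by
    by_contra hcon
    apply hqS
    refine ⟨hz, ?_, ?_, hy⟩
    · simp only [pf_cB]; linarith
    · simp only [pf_cC]; linarith
  have hsub : S1 m ⊆ convexHull ℝ (insert (t, ((z, s), y)) (S1 m)) :=
    (subset_insert _ _).trans (subset_convexHull ℝ _)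
  have hC : IsCompact (convexHull ℝ (insert (t, ((z, s), y)) (S1 m))) :=
    isCompact_hull (isCompact_S1 m) (convex_S1 m) ⟨0, interior_subset
      (zero_mem_interior_body m (by norm_num [cB]) (by norm_num [cC]))⟩ _
  refine WW_lt_of_volume h hm v (isCompact_S1 m) hC (fun a => measure_mono (image_mono hsub))
    (U := {a | 4 * |a.2| < (|s| + |z| - 2) * |a.1|})
    (isOpen_lt (continuous_const.mul continuous_snd.abs) (continuous_const.mul continuous_fst.abs))
    (α₁ := 1) (α₂ := 0) (by norm_num) (by simpa using hη) ?_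
  intro a ha
  simp only [mem_ofPred_eq] at ha
  have ha1 : 0 < |a.1| := by
    by_contra hcon
    have h0 : |a.1| = 0 := le_antisymm (not_lt.1 hcon) (abs_nonneg _)
    rw [h0, mul_zero] at ha
    have := abs_nonneg a.2
    linarith
  have himg : piA a '' S1 m = reg m (comb |a.1| |a.2| cB cC) := piA_body a cB_nonneg cC_nonneg
  have hpc : Continuous (piA (m := m) a) := (piA (m := m) a).continuous_of_finiteDimensional
  have hint : (interior (piA a '' S1 m)).Nonempty := by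
    rw [himg]
    refine ⟨0, zero_mem_interior_reg m ?_⟩
    simp only [comb, cB, cC, Prod.fst_add, Prod.smul_fst, smul_eq_mul]
    have := abs_nonneg a.2
    nlinarith
  refine volume_lt ((isCompact_S1 m).image hpc) ((convex_convexHull ℝ _).linear_image (piA a))
    (image_mono hsub) (hint.mono (interior_mono (image_mono hsub)))
    (b := piA a (t, ((z, s), y)))
    (mem_image_of_mem _ (subset_convexHull ℝ _ (mem_insert _ _))) ?_
  rw [himg, piA_apply]
  rintro ⟨⟨-, h2⟩, -⟩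
  simp only [pf_comb, pf_cB, pf_cC] at h2
  have e1 : |a.1| * |s| - |a.2| * |t| ≤ |a.1 * s + a.2 * t| := by
    rw [← abs_mul, ← abs_mul]
    have := abs_sub_abs_le_abs_sub (a.1 * s) (-(a.2 * t))
    rw [abs_neg, sub_neg_eq_add] at this
    exact this
  have e2 : |a.2| * |t| ≤ |a.2| * 2 := mul_le_mul_of_nonneg_left ht (abs_nonneg _)
  nlinarith

/-- Adding a point to `S₂` increases `W`. -/
theorem WW_S2_lt (h : m + 2 ≤ n) (hm : m + 3 ≤ n) (v : OrthonormalBasis (Fin n) ℝ (E n))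
    {q : FF m} (hq : q ∈ QQ m) (hqS : q ∉ S2 m) :
    WW h hm v (S2 m) < WW h hm v (convexHull ℝ (insert q (S2 m))) := by
  obtain ⟨t, ⟨⟨z, s⟩, y⟩⟩ := q
  obtain ⟨hz, hs, ht, hy⟩ := hq
  simp only [pf_cC] at hz hs ht hy
  have hη : 0 < |t| + |z| - 2 := by
    by_contra hcon
    apply hqS
    refine ⟨hz, ?_, ?_, hy⟩
    · simp only [pf_cC]; linarith
    · simp only [pf_cB]; linarith
  have hsub : S2 m ⊆ convexHull ℝ (insert (t, ((z, s), y)) (S2 m)) :=
    (subset_insert _ _).trans (subset_convexHull ℝ _)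
  have hC : IsCompact (convexHull ℝ (insert (t, ((z, s), y)) (S2 m))) :=
    isCompact_hull (isCompact_S2 m) (convex_S2 m) ⟨0, interior_subset
      (zero_mem_interior_body m (by norm_num [cC]) (by norm_num [cB]))⟩ _
  refine WW_lt_of_volume h hm v (isCompact_S2 m) hC (fun a => measure_mono (image_mono hsub))
    (U := {a | 4 * |a.1| < (|t| + |z| - 2) * |a.2|})
    (isOpen_lt (continuous_const.mul continuous_fst.abs) (continuous_const.mul continuous_snd.abs))
    (α₁ := 0) (α₂ := 1) (by norm_num) (by simpa using hη) ?_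
  intro a ha
  simp only [mem_ofPred_eq] at ha
  have ha1 : 0 < |a.2| := by
    by_contra hcon
    have h0 : |a.2| = 0 := le_antisymm (not_lt.1 hcon) (abs_nonneg _)
    rw [h0, mul_zero] at ha
    have := abs_nonneg a.1
    linarith
  have himg : piA a '' S2 m = reg m (comb |a.1| |a.2| cC cB) := piA_body a cC_nonneg cB_nonneg
  have hpc : Continuous (piA (m := m) a) := (piA (m := m) a).continuous_of_finiteDimensional
  have hint : (interior (piA a '' S2 m)).Nonempty := by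
    rw [himg]
    refine ⟨0, zero_mem_interior_reg m ?_⟩
    simp only [comb, cB, cC, Prod.fst_add, Prod.smul_fst, smul_eq_mul]
    have := abs_nonneg a.1
    nlinarith
  refine volume_lt ((isCompact_S2 m).image hpc) ((convex_convexHull ℝ _).linear_image (piA a))
    (image_mono hsub) (hint.mono (interior_mono (image_mono hsub)))
    (b := piA a (t, ((z, s), y)))
    (mem_image_of_mem _ (subset_convexHull ℝ _ (mem_insert _ _))) ?_
  rw [himg, piA_apply]
  rintro ⟨⟨-, h2⟩, -⟩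
  simp only [pf_comb, pf_cB, pf_cC] at h2
  have e1 : |a.2| * |t| - |a.1| * |s| ≤ |a.1 * s + a.2 * t| := by
    rw [← abs_mul, ← abs_mul]
    have := abs_sub_abs_le_abs_sub (a.2 * t) (-(a.1 * s))
    rw [abs_neg, sub_neg_eq_add, add_comm (a.2 * t)] at this
    exact this
  have e2 : |a.1| * |s| ≤ |a.1| * 2 := mul_le_mul_of_nonneg_left hs (abs_nonneg _)
  nlinarith

/-- The profile that bounds the projections of `U`. -/
theorem piA_UU_subset (a : ℝ × ℝ) :
    piA a '' UU m ⊆ reg m (comb (max |a.1| |a.2|) (min |a.1| |a.2|) cB (1, 0, 1)) := by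
  rintro _ ⟨⟨t, ⟨⟨z, s⟩, y⟩⟩, ⟨⟨⟨h1, h2, -, h4⟩, ⟨-, -, h3, -⟩⟩, ⟨h5, -⟩⟩, rfl⟩
  simp only [pf_cB, mem_ofPred_eq] at h1 h2 h3 h4 h5
  rw [piA_apply]
  refine ⟨⟨h1, ?_⟩, h4⟩
  simp only [pf_comb, pf_cB]
  have e0 : pf (1, 0, 1) z = 1 + |z| := by simp [pf]
  rw [e0]
  have e1 : |a.1 * s + a.2 * t| ≤ |a.1| * |s| + |a.2| * |t| := by
    calc |a.1 * s + a.2 * t| ≤ |a.1 * s| + |a.2 * t| := abs_add_le _ _
      _ = |a.1| * |s| + |a.2| * |t| := by rw [abs_mul, abs_mul]
  refine e1.trans ?_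
  rcases le_total |a.1| |a.2| with hle | hle
  · rw [max_eq_right hle, min_eq_left hle]
    have := abs_nonneg a.1
    nlinarith
  · rw [max_eq_left hle, min_eq_right hle]
    have := abs_nonneg a.2
    nlinarith

theorem volume_bound (a : ℝ × ℝ) :
    volume (reg m (comb (max |a.1| |a.2|) (min |a.1| |a.2|) cB (1, 0, 1))) =
      volume (piA a '' KK m) := by
  rw [KK, volume_piA_body a cA_nonneg cA'_nonneg, volume_reg]
  · congr 2
    simp only [comb, cA, cA', cB, Prod.fst_add, Prod.snd_add, Prod.smul_fst, Prod.smul_snd,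
      smul_eq_mul]
    have := max_add_min |a.1| |a.2|
    linarith
  · intro z hz
    rw [pf_comb]
    have e0 : pf (1, 0, 1) z = 1 + |z| := by simp [pf]
    rw [e0]
    have := cB_nonneg z hz
    positivity

theorem WW_UU_lt (h : m + 2 ≤ n) (hm : m + 3 ≤ n) (v : OrthonormalBasis (Fin n) ℝ (E n)) :
    WW h hm v (UU m) < WW h hm v (KK m) := by
  refine WW_lt_of_volume h hm v (isCompact_UU m) (isCompact_KK m)
    (fun a => (measure_mono (piA_UU_subset a)).trans (volume_bound a).le)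
    (U := {a | a.1 ≠ 0} ∩ {a | a.2 ≠ 0})
    ((isOpen_ne_fun continuous_fst continuous_const).inter
      (isOpen_ne_fun continuous_snd continuous_const))
    (α₁ := 3 / 5) (α₂ := 4 / 5) (by norm_num) ⟨by simp, by simp⟩ ?_
  rintro a ⟨ha1, ha2⟩
  simp only [mem_ofPred_eq] at ha1 ha2
  rw [← volume_bound a]
  have p1 : 0 < |a.1| := abs_pos.2 ha1
  have p2 : 0 < |a.2| := abs_pos.2 ha2
  have hν : 0 < max |a.1| |a.2| := lt_max_of_lt_left p1
  have hμ : 0 < min |a.1| |a.2| := lt_min p1 p2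
  have hle : min |a.1| |a.2| ≤ max |a.1| |a.2| := min_le_max
  have hpc : Continuous (piA (m := m) a) := (piA (m := m) a).continuous_of_finiteDimensional
  refine volume_lt ((isCompact_UU m).image hpc) (convex_reg m ?_) (piA_UU_subset a)
    ⟨0, zero_mem_interior_reg m ?_⟩
    (b := ((1, max |a.1| |a.2| + 2 * min |a.1| |a.2|), 0)) ?_ ?_
  · simp only [comb, cB, Prod.snd_add, Prod.smul_snd, smul_eq_mul]
    linarith
  · simp only [comb, cB, Prod.fst_add, Prod.smul_fst, smul_eq_mul]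
    linarith
  · refine ⟨⟨by simp, ?_⟩, zero_mem_cubeB m⟩
    simp only [pf_comb, pf_cB]
    have e0 : pf (1, 0, 1) 1 = 1 + |1| := by simp [pf]
    rw [e0, abs_of_pos (by linarith : 0 < max |a.1| |a.2| + 2 * min |a.1| |a.2|), abs_one]
    linarith
  · rintro ⟨⟨t, ⟨⟨z, s⟩, y⟩⟩, ⟨⟨⟨h1, h2, -, h4⟩, ⟨-, -, h3, -⟩⟩, ⟨h5, -⟩⟩, hp⟩
    rw [piA_apply] at hp
    simp only [Prod.mk.injEq] at hp
    obtain ⟨⟨rfl, hp2⟩, -⟩ := hp
    simp only [pf_cB, abs_one] at h1 h2 h3 h5
    have e1 : |a.1 * s + a.2 * t| ≤ |a.1| * |s| + |a.2| * |t| := by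
      calc |a.1 * s + a.2 * t| ≤ |a.1 * s| + |a.2 * t| := abs_add_le _ _
        _ = |a.1| * |s| + |a.2| * |t| := by rw [abs_mul, abs_mul]
    have e2 : |a.1| * |s| ≤ |a.1| * 1 := mul_le_mul_of_nonneg_left (by linarith) p1.le
    have e3 : |a.2| * |t| ≤ |a.2| * 1 := mul_le_mul_of_nonneg_left (by linarith) p2.le
    have e4 := le_abs_self (a.1 * s + a.2 * t)
    have e5 := max_add_min |a.1| |a.2|
    linarith

end Pool.Agent.Lib.MP_b62b68_gt
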