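import Mathlib
import Pool.Agent.Lib.MP_b62b68_gt.Vals

/-!
The abstract argument in the hyperplane case.
-/

namespace Pool.Agent.Lib.MP_b62b68_gt

open MeasureTheory Set Filter
open scoped ENNReal Topology Pointwise

variable {n m : ℕ}

/-- The reflection `z ↦ -z`. -/
def rF (p : FF m) : FF m := (p.1, ((-p.2.1.1, p.2.1.2), p.2.2))

/-- The properties of the operator in the coordinates. -/
structure HOp (m : ℕ) (Φ : Set (FF m) → Set (FF m)) : Prop where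
  compact : ∀ A, IsCompact A → Convex ℝ A → A.Nonempty → IsCompact (Φ A)
  convex : ∀ A, IsCompact A → Convex ℝ A → A.Nonempty → Convex ℝ (Φ A)
  symm : ∀ A, IsCompact A → Convex ℝ A → A.Nonempty → ∀ p ∈ Φ A, rF p ∈ Φ A
  mono : ∀ A B, IsCompact A → Convex ℝ A → A.Nonempty → IsCompact B → Convex ℝ B → B.Nonempty →
    A ⊆ B → Φ A ⊆ Φ B
  fix : ∀ A, IsCompact A → Convex ℝ A → A.Nonempty → (∀ p ∈ A, rF p ∈ A) → Φ A = A
  slice : ∀ (t : ℝ) (A B : Set (GG m)), IsCompact A → Convex ℝ A → A.Nonempty → IsCompact B →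
    Φ ({t} ×ˢ A) = {t} ×ˢ B → volume B = volume A

theorem fst_mem_image {A : Set (FF m)} {t : ℝ} {C : Set (GG m)} (hA : A ⊆ {t} ×ˢ C) :
    A = {t} ×ˢ (Prod.snd '' A) := by
  ext ⟨t', q⟩
  constructor
  · intro h
    exact ⟨(hA h).1, ⟨(t', q), h, rfl⟩⟩
  · rintro ⟨h1, ⟨⟨t'', q'⟩, h2, rfl⟩⟩
    have e1 : t'' = t := (hA h2).1
    have e2 : t' = t := h1
    rw [e2, ← e1]
    exact h2

/-- The cube in `Fin m → ℝ`. -/
def cub (y₀ : Fin m → ℝ) (δ : ℝ) : Set (Fin m → ℝ) := Icc (fun k => y₀ k - δ) (fun k => y₀ k + δ)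

theorem lower {Φ : Set (FF m) → Set (FF m)} (hΦ : HOp m Φ) {K : Set (FF m)}
    (hc : IsCompact K) (hv : Convex ℝ K) {t a b s₀ δ : ℝ} {y₀ : Fin m → ℝ} (hab : a < b)
    (hδ : 0 < δ)
    (hK : ({t} : Set ℝ) ×ˢ ((Icc a b ×ˢ Icc (s₀ - δ) (s₀ + δ)) ×ˢ cub y₀ δ) ⊆ K)
    {τ : ℝ} (hτ : |τ| ≤ (b - a) / 2) :
    ∃ s' y', |s' - s₀| ≤ δ ∧ (∀ k, |y' k - y₀ k| ≤ δ) ∧ (t, ((τ, s'), y')) ∈ Φ K := by
  set A : Set (GG m) := (Icc a b ×ˢ Icc (s₀ - δ) (s₀ + δ)) ×ˢ cub y₀ δ with hA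
  have hAc : IsCompact A := (isCompact_Icc.prod isCompact_Icc).prod isCompact_Icc
  have hAv : Convex ℝ A := ((convex_Icc _ _).prod (convex_Icc _ _)).prod (convex_Icc _ _)
  have hAn : A.Nonempty := by
    refine ⟨((a, s₀), y₀), ⟨⟨le_rfl, hab.le⟩, ⟨?_, ?_⟩⟩, ⟨fun k => ?_, fun k => ?_⟩⟩ <;>
      simp only <;> linarith
  have hsc : IsCompact (({t} : Set ℝ) ×ˢ A) := isCompact_singleton.prod hAc
  have hsv : Convex ℝ (({t} : Set ℝ) ×ˢ A) := (convex_singleton t).prod hAv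
  have hsn : (({t} : Set ℝ) ×ˢ A).Nonempty := (singleton_nonempty t).prod hAn
  have hKn : K.Nonempty := hsn.mono hK
  set N := max |a| |b| with hN
  set C : Set (GG m) := (Icc (-N) N ×ˢ Icc (s₀ - δ) (s₀ + δ)) ×ˢ cub y₀ δ with hC
  have hCc : IsCompact (({t} : Set ℝ) ×ˢ C) :=
    isCompact_singleton.prod ((isCompact_Icc.prod isCompact_Icc).prod isCompact_Icc)
  have hCv : Convex ℝ (({t} : Set ℝ) ×ˢ C) :=
    (convex_singleton t).prod (((convex_Icc _ _).prod (convex_Icc _ _)).prod (convex_Icc _ _))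
  have hAC : A ⊆ C := by
    refine Set.prod_mono (Set.prod_mono (Icc_subset_Icc ?_ ?_) Subset.rfl) Subset.rfl
    · have := neg_abs_le a
      have := le_max_left |a| |b|
      linarith
    · exact (le_abs_self b).trans (le_max_right _ _)
  have hACt : ({t} : Set ℝ) ×ˢ A ⊆ ({t} : Set ℝ) ×ˢ C := Set.prod_mono Subset.rfl hAC
  have hCn : (({t} : Set ℝ) ×ˢ C).Nonempty := hsn.mono hACt
  have hΦC : Φ (({t} : Set ℝ) ×ˢ C) = ({t} : Set ℝ) ×ˢ C := by
    apply hΦ.fix _ hCc hCv hCn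
    rintro ⟨t', ⟨⟨z, s⟩, y⟩⟩ ⟨h1, ⟨⟨h2, h3⟩, h4⟩⟩
    refine ⟨h1, ⟨⟨?_, h3⟩, h4⟩⟩
    simp only [mem_Icc] at h2
    change -z ∈ Icc (-N) N
    constructor <;> linarith [h2.1, h2.2]
  have hsub : Φ (({t} : Set ℝ) ×ˢ A) ⊆ ({t} : Set ℝ) ×ˢ C := by
    rw [← hΦC]
    exact hΦ.mono _ _ hsc hsv hsn hCc hCv hCn hACt
  set B : Set (GG m) := Prod.snd '' (Φ (({t} : Set ℝ) ×ˢ A)) with hB
  have hΦA : Φ (({t} : Set ℝ) ×ˢ A) = ({t} : Set ℝ) ×ˢ B := fst_mem_image hsub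
  have hBc : IsCompact B := (hΦ.compact _ hsc hsv hsn).image continuous_snd
  have hBvol : volume B = volume A := hΦ.slice t A B hAc hAv hAn hBc hΦA
  have hBC : B ⊆ C := by
    rintro _ ⟨p, hp, rfl⟩
    exact (hsub hp).2
  have hmemB : ∀ q, q ∈ B ↔ (t, q) ∈ Φ (({t} : Set ℝ) ×ˢ A) := by
    intro q
    rw [hΦA]
    exact ⟨fun h => ⟨rfl, h⟩, fun h => h.2⟩
  -- the volume of A
  have hvolbox : ∀ r r' : ℝ, volume ((Icc r r' ×ˢ Icc (s₀ - δ) (s₀ + δ)) ×ˢ cub y₀ δ) =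
      ENNReal.ofReal (r' - r) * (ENNReal.ofReal (2 * δ) * volume (cub y₀ δ)) := by
    intro r r'
    rw [Measure.volume_eq_prod, Measure.prod_prod, Measure.volume_eq_prod, Measure.prod_prod,
      Real.volume_Icc, Real.volume_Icc, mul_assoc]
    congr 3
    ring
  have hcub0 : volume (cub y₀ δ) ≠ 0 := by
    unfold cub
    rw [Real.volume_Icc_pi, Finset.prod_ne_zero_iff]
    intro i _
    rw [Ne, ENNReal.ofReal_eq_zero]
    linarith
  have hcubt : volume (cub y₀ δ) ≠ ⊤ := (isCompact_Icc.measure_lt_top).ne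
  have hV0 : ENNReal.ofReal (2 * δ) * volume (cub y₀ δ) ≠ 0 := by
    apply mul_ne_zero _ hcub0
    rw [Ne, ENNReal.ofReal_eq_zero]
    linarith
  have hVt : ENNReal.ofReal (2 * δ) * volume (cub y₀ δ) ≠ ⊤ :=
    ENNReal.mul_ne_top ENNReal.ofReal_ne_top hcubt
  have hAvol : volume A = ENNReal.ofReal (b - a) *
      (ENNReal.ofReal (2 * δ) * volume (cub y₀ δ)) := hvolbox a b
  have hBn : B.Nonempty := by
    by_contra hcon
    rw [not_nonempty_iff_eq_empty] at hcon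
    rw [hcon, measure_empty, hAvol] at hBvol
    have := mul_ne_zero (a := ENNReal.ofReal (b - a)) (by
      rw [Ne, ENNReal.ofReal_eq_zero]; linarith) hV0
    exact this hBvol.symm
  -- the highest point of B
  have hf : Continuous fun q : GG m => q.1.1 := by fun_prop
  obtain ⟨q, hq, hqmax⟩ := hBc.exists_isMaxOn hBn hf.continuousOn
  obtain ⟨⟨w, s'⟩, y'⟩ := q
  have hmax : ∀ q' ∈ B, q'.1.1 ≤ w := fun q' hq' => hqmax hq'
  have hsymB : ∀ q' ∈ B, (((-q'.1.1, q'.1.2), q'.2) : GG m) ∈ B := by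
    intro q' hq'
    rw [hmemB] at hq' ⊢
    exact hΦ.symm _ hsc hsv hsn _ hq'
  have hBsub : B ⊆ (Icc (-w) w ×ˢ Icc (s₀ - δ) (s₀ + δ)) ×ˢ cub y₀ δ := by
    intro q' hq'
    obtain ⟨⟨h1, h2⟩, h3⟩ := hBC hq'
    refine ⟨⟨⟨?_, hmax _ hq'⟩, h2⟩, h3⟩
    have := hmax _ (hsymB _ hq')
    simp only at this
    linarith
  have hw : (b - a) / 2 ≤ w := by
    have h1 : volume B ≤ volume ((Icc (-w) w ×ˢ Icc (s₀ - δ) (s₀ + δ)) ×ˢ cub y₀ δ) :=
      measure_mono hBsub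
    rw [hBvol, hAvol, hvolbox, ENNReal.mul_le_mul_iff_left hV0 hVt] at h1
    have hwn : 0 ≤ w - -w := by
      by_contra hcon
      rw [ENNReal.ofReal_of_nonpos (not_le.1 hcon).le] at h1
      have := le_antisymm h1 zero_le
      rw [ENNReal.ofReal_eq_zero] at this
      linarith
    rw [ENNReal.ofReal_le_ofReal_iff hwn] at h1
    linarith
  obtain ⟨⟨-, ⟨hs1, hs2⟩⟩, ⟨hy1, hy2⟩⟩ := hBC hq
  simp only at hs1 hs2
  refine ⟨s', y', ?_, fun k => ?_, ?_⟩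
  · rw [abs_le]; constructor <;> linarith
  · have h1 := hy1 k
    have h2 := hy2 k
    simp only at h1 h2
    rw [abs_le]; constructor <;> linarith
  · have hq1 : (t, ((w, s'), y')) ∈ Φ K := by
      rw [hmemB] at hq
      exact hΦ.mono _ _ hsc hsv hsn hc hv hKn hK hq
    have hq2 : (t, ((-w, s'), y')) ∈ Φ K := hΦ.symm _ hc hv hKn _ hq1
    have hΦv := hΦ.convex _ hc hv hKn
    have hτ' := abs_le.1 hτ
    have hw0 : 0 < w := by linarith
    have h3 := hΦv hq1 hq2 (a := (w + τ) / (2 * w)) (b := (w - τ) / (2 * w))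
      (by apply div_nonneg <;> linarith) (by apply div_nonneg <;> linarith)
      (by field_simp; ring)
    convert h3 using 1
    ext
    · simp only [Prod.fst_add, Prod.smul_fst, smul_eq_mul]
      field_simp
      ring
    · simp only [Prod.fst_add, Prod.smul_fst, Prod.snd_add, Prod.smul_snd, smul_eq_mul]
      field_simp
      ring
    · simp only [Prod.fst_add, Prod.smul_fst, Prod.snd_add, Prod.smul_snd, smul_eq_mul]
      field_simp
      ring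
    · simp only [Prod.snd_add, Prod.smul_snd, Pi.add_apply, Pi.smul_apply, smul_eq_mul]
      field_simp
      ring

end Pool.Agent.Lib.MP_b62b68_gt
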