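import Mathlib
import Pool.Agent.Lib.MP_b62b68_gt.Basis

/-!
The reduction to the core argument.
-/

namespace Pool.Agent.Lib.MP_b62b68_gt

open MeasureTheory Set Module
open scoped ENNReal

variable {n : ℕ}

/-- The parallel body used in the approximation from outside. -/
noncomputable def thick (K : Set (E n)) (k : ℕ) : Set (E n) :=
  Metric.cthickening (1 / ((k : ℝ) + 1)) K

theorem thick_mono {K L : Set (E n)} (h : K ⊆ L) (k : ℕ) : thick K k ⊆ thick L k :=
  Metric.cthickening_subset_of_subset _ h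

theorem thick_antitone (K : Set (E n)) : Antitone (thick K) := by
  intro k l hkl
  apply Metric.cthickening_mono
  apply one_div_le_one_div_of_le (by positivity)
  have : (k : ℝ) ≤ l := by exact_mod_cast hkl
  linarith

theorem thick_mem {K : Set (E n)} (hc : IsCompact K) (hv : Convex ℝ K) (hn : K.Nonempty)
    (k : ℕ) : thick K k ∈ convexBodies n := by
  have hpos : (0 : ℝ) < 1 / ((k : ℝ) + 1) := by positivity
  refine ⟨hc.cthickening, hv.cthickening _, ?_⟩
  obtain ⟨x, hx⟩ := hn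
  exact ⟨x, Metric.thickening_subset_interior_cthickening _ _
    (Metric.self_subset_thickening hpos K hx)⟩

theorem iInter_thick {K : Set (E n)} (hc : IsCompact K) : ⋂ k, thick K k = K := by
  apply Subset.antisymm
  · intro x hx
    rw [mem_iInter] at hx
    have h1 : ∀ k : ℕ, Metric.infEDist x K ≤ ENNReal.ofReal (1 / ((k : ℝ) + 1)) := hx
    have h2 : Filter.Tendsto (fun k : ℕ => ENNReal.ofReal (1 / ((k : ℝ) + 1))) Filter.atTop
        (nhds 0) := by
      have := ENNReal.tendsto_ofReal (tendsto_one_div_add_atTop_nhds_zero_nat (𝕜 := ℝ))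
      simpa using this
    have h3 : Metric.infEDist x K ≤ 0 := ge_of_tendsto' h2 h1
    have h4 : Metric.infEDist x K = 0 := le_antisymm h3 zero_le
    rw [← Metric.mem_closure_iff_infEDist_zero] at h4
    rwa [hc.isClosed.closure_eq] at h4
  · exact subset_iInter fun k => Metric.self_subset_cthickening K

theorem image_thick (R : E n ≃ₗᵢ[ℝ] E n) (K : Set (E n)) (k : ℕ) :
    R '' thick K k = thick (R '' K) k := by
  ext y
  constructor
  · rintro ⟨x, hx, rfl⟩
    change Metric.infEDist (R x) (R '' K) ≤ _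
    rw [Metric.infEDist_image R.isometry]
    exact hx
  · intro hy
    refine ⟨R.symm y, ?_, R.apply_symm_apply y⟩
    change Metric.infEDist (R.symm y) K ≤ _
    rw [← Metric.infEDist_image R.isometry, R.apply_symm_apply]
    exact hy

theorem thick_symm {H : Submodule ℝ (E n)} {K : Set (E n)} (hK : IsSymmetricIn H K) (k : ℕ) :
    IsSymmetricIn H (thick K k) := by
  rw [isSymmetricIn_iff] at hK ⊢
  rw [image_thick, hK]

variable {j : ℕ} {h : j ≤ n} {𝓑 : Set (Set (E n))} {H : Submodule ℝ (E n)}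
  {D : Set (E n) → Set (E n)}

/-- The extension of `D` to all nonempty compact convex sets. -/
noncomputable def ext (D : Set (E n) → Set (E n)) (K : Set (E n)) : Set (E n) :=
  ⋂ k, D (thick K k)

structure Good (h : j ≤ n) (H : Submodule ℝ (E n)) (D : Set (E n) → Set (E n)) : Prop where
  compact : ∀ K, IsCompact K → Convex ℝ K → K.Nonempty → IsCompact (D K)
  convex : ∀ K, IsCompact K → Convex ℝ K → K.Nonempty → Convex ℝ (D K)
  symm : ∀ K, IsCompact K → Convex ℝ K → K.Nonempty → IsSymmetricIn H (D K)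
  mono : ∀ K L, IsCompact K → Convex ℝ K → K.Nonempty → IsCompact L → Convex ℝ L → L.Nonempty →
    K ⊆ L → D K ⊆ D L
  preserving : ∀ K, IsCompact K → Convex ℝ K → K.Nonempty →
    intrinsicVolume h (D K) = intrinsicVolume h K
  invariant : ∀ K, IsCompact K → Convex ℝ K → K.Nonempty → IsSymmetricIn H K → D K = K

theorem good_ext (h1 : convexBodies n ⊆ 𝓑) (h2 : 𝓑 ⊆ compactConvex n)
    (hD : IsGoodSymmetrization h 𝓑 H D) : Good h H (ext D) := by
  have hmem : ∀ K, IsCompact K → Convex ℝ K → K.Nonempty → ∀ k, thick K k ∈ 𝓑 :=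
    fun K hc hv hn k => h1 (thick_mem hc hv hn k)
  have hcomp : ∀ K, IsCompact K → Convex ℝ K → K.Nonempty → ∀ k, IsCompact (D (thick K k)) :=
    fun K hc hv hn k => (h2 (hD.mem _ (hmem K hc hv hn k))).1
  have hanti : ∀ K, IsCompact K → Convex ℝ K → K.Nonempty →
      Antitone fun k => D (thick K k) := by
    intro K hc hv hn k l hkl
    exact hD.mono _ (hmem K hc hv hn l) _ (hmem K hc hv hn k) (thick_antitone K hkl)
  constructor
  · intro K hc hv hn
    exact (hcomp K hc hv hn 0).of_isClosed_subset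
      (isClosed_iInter fun k => (hcomp K hc hv hn k).isClosed) (iInter_subset _ 0)
  · intro K hc hv hn
    exact convex_iInter fun k => (h2 (hD.mem _ (hmem K hc hv hn k))).2
  · intro K hc hv hn
    rw [isSymmetricIn_iff]
    unfold ext
    rw [image_iInter H.reflection.bijective]
    exact iInter_congr fun k => (isSymmetricIn_iff _ _).1 (hD.symm _ (hmem K hc hv hn k))
  · intro K L hc hv hn hc' hv' hn' hKL
    exact iInter_mono fun k => hD.mono _ (hmem K hc hv hn k) _ (hmem L hc' hv' hn' k)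
      (thick_mono hKL k)
  · intro K hc hv hn
    unfold ext
    rw [intrinsicVolume_iInter h (hcomp K hc hv hn) (hanti K hc hv hn)]
    conv_rhs => rw [← iInter_thick hc]
    rw [intrinsicVolume_iInter h (fun k => (thick_mem hc hv hn k).1) (thick_antitone K)]
    exact iInf_congr fun k => hD.preserving _ (hmem K hc hv hn k)
  · intro K hc hv hn hs
    unfold ext
    conv_rhs => rw [← iInter_thick hc]
    exact iInter_congr fun k => hD.invariant _ (hmem K hc hv hn k) (thick_symm hs k)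

theorem norm_refl {m : ℕ} {s : Fin m → ℝ} (hs : ∀ k, s k = 1 ∨ s k = -1)
    (x : (ℝ × ℝ) × (Fin m → ℝ)) : ‖refl s x‖ = ‖x‖ := by
  have h1 : ‖(fun k => s k * x.2 k)‖ = ‖x.2‖ := by
    simp only [Pi.norm_def]
    congr 2
    funext k
    rcases hs k with h | h <;> simp [h]
  rw [Prod.norm_def, Prod.norm_def]
  change max ‖-x.1‖ ‖(fun k => s k * x.2 k)‖ = max ‖x.1‖ ‖x.2‖
  rw [norm_neg, h1]

theorem no_good {m : ℕ} (hm : m + 2 ≤ n) (hH : finrank ℝ H + 2 ≤ n) (hD : Good hm H D) :
    False := by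
  obtain ⟨v, s, hs, hs2, hv⟩ := exists_basis H hH
  obtain ⟨c, hc0, hctop, hc⟩ := exists_scalar m
  obtain ⟨hκ0, hκtop⟩ := kappa_ne hm v
  -- the embedding
  set ι : ((ℝ × ℝ) × (Fin m → ℝ)) →ₗ[ℝ] E n := emb hm v ∘ₗ (coord m).toLinearMap with hι
  have hιinj : Function.Injective ι := (emb_injective hm v).comp (coord m).injective
  have hιc : Continuous ι := ι.continuous_of_finiteDimensional
  set s' : Fin m → ℝ := fun k => s (Fin.castLE hm k.succ.succ) with hs'
  have hs'1 : ∀ k, s' k = 1 ∨ s' k = -1 := fun k => hs _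
  have hρ : ∀ x, rho H (ι x) = ι (refl s' x) := by
    intro x
    change rho H (∑ a, coord m x a • v (Fin.castLE hm a)) =
      ∑ a, coord m (refl s' x) a • v (Fin.castLE hm a)
    rw [map_sum]
    refine Finset.sum_congr rfl fun a _ => ?_
    rw [map_smul, hv, smul_smul]
    congr 1
    refine Fin.cases ?_ (fun k => ?_) a
    · rw [hs2 _ (by simp)]
      simp [coord, refl]
    · refine Fin.cases ?_ (fun k => ?_) k
      · rw [hs2 _ (by simp)]
        simp [coord, refl]
      · simp only [coord, refl, LinearEquiv.coe_mk, LinearMap.coe_mk, AddHom.coe_mk,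
          Fin.cons_succ, hs']
        ring
  have hsymm : ∀ A, IsSymmetricIn H A ↔ rho H '' A = A := fun A => Iff.rfl
  have hsymmι : ∀ A, refl s' '' A = A → IsSymmetricIn H (ι '' A) := by
    intro A hA
    rw [hsymm, ← image_comp]
    have : (rho H : E n → E n) ∘ ι = ι ∘ refl s' := funext hρ
    rw [this, image_comp, hA]
  have hV : ∀ A : Set ((ℝ × ℝ) × (Fin m → ℝ)), IsCompact A →
      intrinsicVolume hm (ι '' A) = kappa hm v * c * volume A := by
    intro A hA
    have : ι '' A = emb hm v '' (coord m '' A) := by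
      rw [← image_comp]; rfl
    rw [this, intrinsicVolume_emb, hc A hA, mul_assoc]
  -- the balls
  have hball : ∀ R : ℝ, refl s' '' Metric.closedBall 0 R = Metric.closedBall 0 R := by
    intro R
    apply refl_image hs'1
    intro x hx
    rw [mem_closedBall_zero_iff] at hx ⊢
    rw [norm_refl hs'1]
    exact hx
  set Φ : Set ((ℝ × ℝ) × (Fin m → ℝ)) → Set ((ℝ × ℝ) × (Fin m → ℝ)) :=
    fun A => ι ⁻¹' (D (ι '' A)) with hΦ
  have hi1 : ∀ A, IsCompact A → IsCompact (ι '' A) := fun A hA => hA.image hιc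
  have hi2 : ∀ A, Convex ℝ A → Convex ℝ (ι '' A) := fun A hA => hA.linear_image ι
  have hin : ∀ A, IsCompact A → Convex ℝ A → A.Nonempty →
      ∃ R : ℝ, D (ι '' A) ⊆ ι '' Metric.closedBall 0 R := by
    intro A hA1 hA2 hA3
    obtain ⟨R, hR⟩ := hA1.isBounded.subset_closedBall 0
    have b1 : IsCompact (Metric.closedBall (0 : (ℝ × ℝ) × (Fin m → ℝ)) R) :=
      isCompact_closedBall _ _
    have b2 : Convex ℝ (Metric.closedBall (0 : (ℝ × ℝ) × (Fin m → ℝ)) R) :=
      convex_closedBall _ _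
    have b3 : (Metric.closedBall (0 : (ℝ × ℝ) × (Fin m → ℝ)) R).Nonempty := hA3.mono hR
    refine ⟨R, ?_⟩
    calc D (ι '' A) ⊆ D (ι '' Metric.closedBall 0 R) :=
          hD.mono _ _ (hi1 A hA1) (hi2 A hA2) (hA3.image _) (hi1 _ b1) (hi2 _ b2)
            (b3.image _) (image_mono hR)
      _ = ι '' Metric.closedBall 0 R :=
        hD.invariant _ (hi1 _ b1) (hi2 _ b2) (b3.image _) (hsymmι _ (hball R))
  have hΦι : ∀ A, IsCompact A → Convex ℝ A → A.Nonempty → ι '' (Φ A) = D (ι '' A) := by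
    intro A hA1 hA2 hA3
    obtain ⟨R, hR⟩ := hin A hA1 hA2 hA3
    apply image_preimage_eq_of_subset
    exact hR.trans (image_subset_range _ _)
  have hΦc : ∀ A, IsCompact A → Convex ℝ A → A.Nonempty → IsCompact (Φ A) := by
    intro A hA1 hA2 hA3
    obtain ⟨R, hR⟩ := hin A hA1 hA2 hA3
    have hcl : IsClosed (Φ A) :=
      (hD.compact _ (hi1 A hA1) (hi2 A hA2) (hA3.image _)).isClosed.preimage hιc
    refine (isCompact_closedBall (0 : (ℝ × ℝ) × (Fin m → ℝ)) R).of_isClosed_subset hcl ?_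
    intro x hx
    obtain ⟨y, hy, hyx⟩ := hR hx
    rwa [← hιinj hyx]
  refine core hs'1 Φ ?_ ?_ ?_ ?_
  · intro A hA1 hA2 hA3
    refine ⟨hΦc A hA1 hA2 hA3, ?_, ?_⟩
    · exact (hD.convex _ (hi1 A hA1) (hi2 A hA2) (hA3.image _)).linear_preimage ι
    · apply refl_image hs'1
      intro x hx
      change ι (refl s' x) ∈ D (ι '' A)
      rw [← hρ]
      have := hD.symm _ (hi1 A hA1) (hi2 A hA2) (hA3.image _)
      rw [hsymm] at this
      rw [← this]
      exact ⟨ι x, hx, rfl⟩
  · intro A A' hA1 hA2 hA3 hA1' hA2' hA3' hAA'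
    exact preimage_mono (hD.mono _ _ (hi1 A hA1) (hi2 A hA2) (hA3.image _) (hi1 A' hA1')
      (hi2 A' hA2') (hA3'.image _) (image_mono hAA'))
  · intro A hA1 hA2 hA3
    have h1 := hD.preserving _ (hi1 A hA1) (hi2 A hA2) (hA3.image _)
    rw [← hΦι A hA1 hA2 hA3, hV _ (hΦc A hA1 hA2 hA3), hV _ hA1] at h1
    exact (ENNReal.mul_right_inj (mul_ne_zero hκ0 hc0) (ENNReal.mul_ne_top hκtop hctop)).1 h1
  · intro A hA1 hA2 hA3 hA4
    change ι ⁻¹' (D (ι '' A)) = A
    rw [hD.invariant _ (hi1 A hA1) (hi2 A hA2) (hA3.image _) (hsymmι A hA4)]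
    exact preimage_image_eq _ hιinj

/-- The main theorem. -/
theorem main {j : ℕ} (h : j ≤ n) (hj : 2 ≤ j) (hH : finrank ℝ H + 2 ≤ n)
    (h1 : convexBodies n ⊆ 𝓑) (h2 : 𝓑 ⊆ compactConvex n) :
    ¬ ∃ D, IsGoodSymmetrization h 𝓑 H D := by
  rintro ⟨D, hD⟩
  obtain ⟨m, rfl⟩ : ∃ m, j = m + 2 := ⟨j - 2, by omega⟩
  exact no_good h hH (good_ext h1 h2 hD)

end Pool.Agent.Lib.MP_b62b68_gt
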