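import Mathlib
import Pool.Agent.Lib.MP_b62b68_gt.Abs

/-!
The sequence argument in the hyperplane case.
-/

namespace Pool.Agent.Lib.MP_b62b68_gt

open MeasureTheory Set Filter
open scoped ENNReal Topology Pointwise

variable {n m : ℕ}

theorem mem_of_approx {C : Set (FF m)} (hC : IsClosed C) {t z s : ℝ} {y : Fin m → ℝ}
    (h : ∀ δ : ℝ, 0 < δ → δ < 1 → ∃ s' y', |s' - (1 - δ) * s| ≤ δ ∧
      (∀ k, |y' k - (1 - δ) * y k| ≤ δ) ∧ ((1 - δ) * t, (((1 - δ) * z, s'), y')) ∈ C) :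
    (t, ((z, s), y)) ∈ C := by
  have hd : ∀ k : ℕ, (0 : ℝ) < 1 / ((k : ℝ) + 2) ∧ 1 / ((k : ℝ) + 2) < 1 := by
    intro k
    have : (0 : ℝ) ≤ k := Nat.cast_nonneg k
    refine ⟨by positivity, ?_⟩
    rw [div_lt_one (by positivity)]
    linarith
  choose s' y' h1 h2 h3 using fun k : ℕ => h _ (hd k).1 (hd k).2
  have hδ : Tendsto (fun k : ℕ => 1 / ((k : ℝ) + 2)) atTop (𝓝 0) := by
    have : Tendsto (fun k : ℕ => (k : ℝ) + 2) atTop atTop :=
      tendsto_atTop_add_const_right _ _ tendsto_natCast_atTop_atTop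
    simp only [one_div]
    exact tendsto_inv_atTop_zero.comp this
  have hone : Tendsto (fun k : ℕ => 1 - 1 / ((k : ℝ) + 2)) atTop (𝓝 1) := by
    simpa using hδ.const_sub 1
  have hmul : ∀ c : ℝ, Tendsto (fun k : ℕ => (1 - 1 / ((k : ℝ) + 2)) * c) atTop (𝓝 c) := by
    intro c
    simpa using hone.mul_const c
  have hgen : ∀ (c : ℝ) (c' : ℕ → ℝ), (∀ k : ℕ, |c' k - (1 - 1 / ((k : ℝ) + 2)) * c| ≤
      1 / ((k : ℝ) + 2)) → Tendsto c' atTop (𝓝 c) := by
    intro c c' hc'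
    have h0 : Tendsto (fun k : ℕ => c' k - (1 - 1 / ((k : ℝ) + 2)) * c) atTop (𝓝 0) :=
      squeeze_zero_norm hc' hδ
    simpa using h0.add (hmul c)
  have hlim : Tendsto (fun k : ℕ => (((1 - 1 / ((k : ℝ) + 2)) * t,
      (((1 - 1 / ((k : ℝ) + 2)) * z, s' k), y' k)) : FF m)) atTop (𝓝 (t, ((z, s), y))) := by
    refine (hmul t).prodMk_nhds (((hmul z).prodMk_nhds (hgen s s' h1)).prodMk_nhds ?_)
    rw [tendsto_pi_nhds]
    intro i
    exact hgen (y i) (fun k => y' k i) fun k => h2 k i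
  exact hC.mem_of_tendsto hlim (Eventually.of_forall h3)

theorem L1_nonempty (m : ℕ) : (L1 m).Nonempty :=
  ⟨0, interior_subset (zero_mem_interior_body m (by norm_num [cA]) (by norm_num [cC]))⟩
theorem L2_nonempty (m : ℕ) : (L2 m).Nonempty :=
  ⟨0, interior_subset (zero_mem_interior_body m (by norm_num [cC]) (by norm_num [cA']))⟩
theorem KK_nonempty (m : ℕ) : (KK m).Nonempty :=
  ⟨0, interior_subset (zero_mem_interior_body m (by norm_num [cA]) (by norm_num [cA']))⟩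

theorem mem_cubeB_of {y y₀ : Fin m → ℝ} {δ : ℝ} (hδ1 : δ < 1) (hy : y₀ ∈ cubeB m)
    (h : y ∈ cub (fun k => (1 - δ) * y₀ k) δ) : y ∈ cubeB m := by
  obtain ⟨h1, h2⟩ := h
  obtain ⟨h3, h4⟩ := hy
  refine ⟨fun k => ?_, fun k => ?_⟩
  · have a1 := h1 k; have a3 := h3 k
    simp only at a1 a3 ⊢
    nlinarith
  · have a2 := h2 k; have a4 := h4 k
    simp only at a2 a4 ⊢
    nlinarith

theorem S1_subset {Φ : Set (FF m) → Set (FF m)} (hΦ : HOp m Φ) : S1 m ⊆ Φ (L1 m) := by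
  rintro ⟨t, ⟨⟨z, s⟩, y⟩⟩ ⟨h1, h2, h3, h4⟩
  simp only [pf_cB, pf_cC] at h1 h2 h3 h4
  refine mem_of_approx (hΦ.compact _ (isCompact_L1 m) (convex_L1 m) (L1_nonempty m)).isClosed ?_
  intro δ hδ hδ1
  have hz0 := abs_nonneg z
  refine lower hΦ (isCompact_L1 m) (convex_L1 m) (a := 2 * (1 - δ) - 1 - 2 * (1 - δ) * |z|)
    (b := 1) (s₀ := (1 - δ) * s) (y₀ := fun k => (1 - δ) * y k) (by nlinarith) hδ ?_ ?_
  · rintro ⟨t', ⟨⟨z', s'⟩, y'⟩⟩ ⟨g1, ⟨⟨⟨g2, g3⟩, ⟨g4, g5⟩⟩, g6⟩⟩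
    have g1' : t' = (1 - δ) * t := g1
    simp only at g2 g3 g4 g5 g6
    obtain ⟨h3a, h3b⟩ := abs_le.1 h3
    obtain ⟨h2a, h2b⟩ := abs_le.1 h2
    refine ⟨?_, ?_, ?_, mem_cubeB_of hδ1 h4 g6⟩
    · simp only
      rw [abs_le]
      constructor <;> nlinarith
    · simp only [pf_cA]
      rw [abs_le]
      constructor <;> nlinarith
    · simp only [pf_cC]
      rw [g1', abs_le]
      constructor <;> nlinarith
  · rw [abs_mul, abs_of_pos (by linarith : (0 : ℝ) < 1 - δ)]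
    nlinarith

theorem S2_subset {Φ : Set (FF m) → Set (FF m)} (hΦ : HOp m Φ) : S2 m ⊆ Φ (L2 m) := by
  rintro ⟨t, ⟨⟨z, s⟩, y⟩⟩ ⟨h1, h2, h3, h4⟩
  simp only [pf_cB, pf_cC] at h1 h2 h3 h4
  refine mem_of_approx (hΦ.compact _ (isCompact_L2 m) (convex_L2 m) (L2_nonempty m)).isClosed ?_
  intro δ hδ hδ1
  have hz0 := abs_nonneg z
  refine lower hΦ (isCompact_L2 m) (convex_L2 m) (a := -1)
    (b := -(2 * (1 - δ) - 1 - 2 * (1 - δ) * |z|)) (s₀ := (1 - δ) * s)
    (y₀ := fun k => (1 - δ) * y k) (by nlinarith) hδ ?_ ?_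
  · rintro ⟨t', ⟨⟨z', s'⟩, y'⟩⟩ ⟨g1, ⟨⟨⟨g2, g3⟩, ⟨g4, g5⟩⟩, g6⟩⟩
    have g1' : t' = (1 - δ) * t := g1
    simp only at g2 g3 g4 g5 g6
    obtain ⟨h3a, h3b⟩ := abs_le.1 h3
    obtain ⟨h2a, h2b⟩ := abs_le.1 h2
    refine ⟨?_, ?_, ?_, mem_cubeB_of hδ1 h4 g6⟩
    · simp only
      rw [abs_le]
      constructor <;> nlinarith
    · simp only [pf_cC]
      rw [abs_le]
      constructor <;> nlinarith
    · simp only [pf_cA']
      rw [g1', abs_le]
      constructor <;> nlinarith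
  · rw [abs_mul, abs_of_pos (by linarith : (0 : ℝ) < 1 - δ)]
    nlinarith

theorem VV_mono (h : m + 2 ≤ n) (hm : m + 3 ≤ n) (v : OrthonormalBasis (Fin n) ℝ (E n)) (k : ℕ)
    {A B : Set (FF m)} (hAB : A ⊆ B) : VV h hm v k A ≤ VV h hm v k B :=
  mul_le_mul_right (intrinsicVolume_mono h (image_mono hAB)) _

theorem eventually_notMem (h : m + 2 ≤ n) (hm : m + 3 ≤ n)
    (v : OrthonormalBasis (Fin n) ℝ (E n)) {Φ : ℕ → Set (FF m) → Set (FF m)}
    (hΦ : ∀ k, HOp m (Φ k))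
    (hV : ∀ k A, IsCompact A → Convex ℝ A → A.Nonempty →
      VV h hm v k (Φ k A) = VV h hm v k A)
    {L S : Set (FF m)} (hLc : IsCompact L) (hLv : Convex ℝ L) (hL0 : (0 : FF m) ∈ interior L)
    (hSc : IsCompact S) (hSv : Convex ℝ S) (hS0 : (0 : FF m) ∈ interior S)
    (hsub : ∀ k, S ⊆ Φ k L) (hle : WW h hm v L ≤ WW h hm v S) {q : FF m}
    (hlt : WW h hm v S < WW h hm v (convexHull ℝ (insert q S))) :
    ∀ᶠ k in atTop, q ∉ Φ k L := by
  have hLn : L.Nonempty := ⟨0, interior_subset hL0⟩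
  have hSn : S.Nonempty := ⟨0, interior_subset hS0⟩
  have hSH : S ⊆ convexHull ℝ (insert q S) := (subset_insert _ _).trans (subset_convexHull ℝ _)
  have t1 := tendsto_VV h hm v hLc hLv hL0
  have t2 := tendsto_VV h hm v (isCompact_hull hSc hSv hSn q) (convex_convexHull ℝ _)
    (interior_mono hSH hS0)
  filter_upwards [t1.eventually_lt t2 (hle.trans_lt hlt)] with k hk hq
  have hsub' : convexHull ℝ (insert q S) ⊆ Φ k L := by
    apply convexHull_min
    · exact insert_subset hq (hsub k)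
    · exact (hΦ k).convex _ hLc hLv hLn
  have := (VV_mono h hm v k hsub').trans_eq (hV k L hLc hLv hLn)
  exact absurd this (not_le.2 hk)

theorem norm_rF (p : FF m) : ‖rF p‖ = ‖p‖ := by
  obtain ⟨t, ⟨⟨z, s⟩, y⟩⟩ := p
  simp only [rF, Prod.norm_def, norm_neg]

theorem subset_interior_smul (m : ℕ) {δ : ℝ} (hδ : 0 < δ) :
    UU m ⊆ interior ((1 + δ) • UU m) := by
  have h1 := (convex_UU m).closure_subset_interior_image_homothety_of_one_lt
    (zero_mem_interior_UU m) (1 + δ) (by linarith)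
  have h2 : (AffineMap.homothety (0 : FF m) (1 + δ) : FF m → FF m) '' UU m =
      (1 + δ) • UU m := by
    apply image_congr
    intro p _
    simp [AffineMap.homothety_apply, add_smul]
  rw [h2] at h1
  exact subset_closure.trans h1

theorem exists_shrink {S : Set (FF m)} (hS : IsClosed S) {p : FF m} (hp : p ∉ S) :
    ∃ θ : ℝ, 0 < θ ∧ θ < 1 ∧ θ • p ∉ S := by
  have hcont : ContinuousAt (fun θ : ℝ => θ • p) 1 := by fun_prop
  have hev : ∀ᶠ θ in 𝓝 (1 : ℝ), θ • p ∈ Sᶜ := by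
    apply hcont
    simp only [one_smul]
    exact hS.isOpen_compl.mem_nhds hp
  obtain ⟨ε, hε, hεU⟩ := Metric.eventually_nhds_iff.1 hev
  refine ⟨1 - min (ε / 2) (1 / 2), ?_, ?_, ?_⟩
  · have := min_le_right (ε / 2) (1 / 2 : ℝ)
    linarith
  · have : 0 < min (ε / 2) (1 / 2 : ℝ) := lt_min (by linarith) (by norm_num)
    linarith
  · apply hεU
    rw [Real.dist_eq]
    have h1 : 0 < min (ε / 2) (1 / 2 : ℝ) := lt_min (by linarith) (by norm_num)
    have h2 := min_le_left (ε / 2) (1 / 2 : ℝ)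
    rw [abs_lt]
    constructor <;> linarith

theorem KK_subset_L1 (m : ℕ) : KK m ⊆ L1 m := by
  rintro ⟨t, ⟨⟨z, s⟩, y⟩⟩ ⟨h1, h2, h3, h4⟩
  simp only [pf_cA, pf_cA'] at h1 h2 h3 h4
  refine ⟨h1, ?_, ?_, h4⟩
  · simp only [pf_cA]; exact h2
  · simp only [pf_cC]; have := (abs_le.1 h1).1; linarith

theorem KK_subset_L2 (m : ℕ) : KK m ⊆ L2 m := by
  rintro ⟨t, ⟨⟨z, s⟩, y⟩⟩ ⟨h1, h2, h3, h4⟩
  simp only [pf_cA, pf_cA'] at h1 h2 h3 h4
  refine ⟨h1, ?_, ?_, h4⟩
  · simp only [pf_cC]; have := (abs_le.1 h1).2; linarith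
  · simp only [pf_cA']; exact h3

theorem KK_subset_TT (m : ℕ) : KK m ⊆ TT m := by
  rintro ⟨t, ⟨⟨z, s⟩, y⟩⟩ ⟨h1, h2, h3, h4⟩
  simp only [pf_cA, pf_cA'] at h1 h2 h3 h4
  refine ⟨?_, h1, ?_, ?_, h4⟩
  · simp only [mem_ofPred_eq]; linarith
  · simp only [pf_cC]; have := (abs_le.1 h1).2; linarith
  · simp only [pf_cC]; have := (abs_le.1 h1).1; linarith

theorem no_seq (h : m + 2 ≤ n) (hm : m + 3 ≤ n) (v : OrthonormalBasis (Fin n) ℝ (E n))
    {Φ : ℕ → Set (FF m) → Set (FF m)} (hΦ : ∀ k, HOp m (Φ k))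
    (hV : ∀ k A, IsCompact A → Convex ℝ A → A.Nonempty →
      VV h hm v k (Φ k A) = VV h hm v k A) : False := by
  have hKc := isCompact_KK m
  have hKv := convex_KK m
  have hK0 : (0 : FF m) ∈ interior (KK m) :=
    zero_mem_interior_body m (by norm_num [cA]) (by norm_num [cA'])
  have hKn := KK_nonempty m
  obtain ⟨r, hr, hrK⟩ := Metric.isOpen_iff.1 isOpen_interior _ hK0
  set B₀ : Set (FF m) := Metric.closedBall 0 (r / 2) with hB₀
  have hB₀K : B₀ ⊆ KK m :=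
    (Metric.closedBall_subset_ball (by linarith)).trans (hrK.trans interior_subset)
  have hB₀c : IsCompact B₀ := isCompact_closedBall _ _
  have hB₀v : Convex ℝ B₀ := convex_closedBall _ _
  have hB₀n : B₀.Nonempty := ⟨0, Metric.mem_closedBall_self (by linarith)⟩
  have hB₀Φ : ∀ k, B₀ ⊆ Φ k (KK m) := by
    intro k
    have h1 : Φ k B₀ = B₀ := by
      apply (hΦ k).fix _ hB₀c hB₀v hB₀n
      intro p hp
      rw [hB₀, mem_closedBall_zero_iff] at hp ⊢
      rw [norm_rF]; exact hp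
    calc B₀ = Φ k B₀ := h1.symm
      _ ⊆ _ := (hΦ k).mono _ _ hB₀c hB₀v hB₀n hKc hKv hKn hB₀K
  have hTn : (TT m).Nonempty := hKn.mono (KK_subset_TT m)
  have hTΦ : ∀ k, Φ k (KK m) ⊆ TT m := by
    intro k
    have h1 : Φ k (TT m) = TT m := by
      apply (hΦ k).fix _ (isCompact_TT m) (convex_TT m) hTn
      rintro ⟨t, ⟨⟨z, s⟩, y⟩⟩ ⟨g1, g2, g3, g4, g5⟩
      simp only [pf_cC, mem_ofPred_eq] at g1 g2 g3 g4 g5
      refine ⟨g1, ?_, ?_, ?_, g5⟩
      · simp only [rF, abs_neg]; exact g2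
      · simp only [rF, pf_cC]; exact g3
      · simp only [rF, pf_cC]; exact g4
    calc _ ⊆ Φ k (TT m) := (hΦ k).mono _ _ hKc hKv hKn (isCompact_TT m) (convex_TT m) hTn
          (KK_subset_TT m)
      _ = TT m := h1
  have h0Q : (0 : FF m) ∈ QQ m :=
    interior_subset (zero_mem_interior_body m (by norm_num [cC]) (by norm_num [cC]))
  -- the common part of the two cases
  have hpush : ∀ {k : ℕ} {L : Set (FF m)}, Φ k (KK m) ⊆ L → ∀ {θ : ℝ}, 0 < θ → θ < 1 →
      ∀ {p p' : FF m}, ‖θ • (p - p')‖ < (1 - θ) * (r / 2) → θ • p ∉ L → p' ∉ Φ k (KK m) := by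
    intro k L hL θ hθ0 hθ1 p p' hpp hpL hp'
    apply hpL
    apply hL
    have hθ' : 0 < 1 - θ := by linarith
    have h1 : (1 - θ)⁻¹ • (θ • (p - p')) ∈ Φ k (KK m) := by
      apply hB₀Φ k
      rw [hB₀, mem_closedBall_zero_iff, norm_smul, norm_inv, Real.norm_of_nonneg hθ'.le]
      rw [inv_mul_le_iff₀ hθ']
      exact hpp.le
    have h2 := (hΦ k).convex _ hKc hKv hKn hp' h1 hθ0.le hθ'.le (by ring)
    convert h2 using 1
    rw [smul_smul, mul_inv_cancel₀ hθ'.ne', one_smul, ← smul_add]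
    congr 1
    abel
  have key : ∀ δ : ℝ, 0 < δ → ∀ᶠ k in atTop, Φ k (KK m) ⊆ (1 + δ) • UU m := by
    intro δ hδ
    set C := TT m \ interior ((1 + δ) • UU m) with hC
    have hCc : IsCompact C := (isCompact_TT m).diff isOpen_interior
    have hind : ∀ᶠ k in atTop, Disjoint (Φ k (KK m)) C := by
      refine hCc.induction_on (p := fun s => ∀ᶠ k in atTop, Disjoint (Φ k (KK m)) s)
        ?_ ?_ ?_ ?_
      · simp
      · intro s t hst ht
        exact ht.mono fun k hk => hk.mono_right hst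
      · intro s t hs ht
        filter_upwards [hs, ht] with k h1 h2
        exact h1.union_right h2
      · intro p hp
        have hpU : p ∉ UU m := fun hpU => hp.2 (subset_interior_smul m hδ hpU)
        have hor : p ∉ S1 m ∨ p ∉ S2 m := by
          by_contra hcon
          push Not at hcon
          exact hpU ⟨⟨hcon.1, hcon.2⟩, hp.1⟩
        have hgen : ∀ {L : ℕ → Set (FF m)}, (∀ k, Φ k (KK m) ⊆ L k) → ∀ {θ : ℝ}, 0 < θ → θ < 1 →
            (∀ᶠ k in atTop, θ • p ∉ L k) →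
            ∃ t ∈ 𝓝[C] p, ∀ᶠ k in atTop, Disjoint (Φ k (KK m)) t := by
          intro L hL θ hθ0 hθ1 hev
          refine ⟨{p' | ‖θ • (p - p')‖ < (1 - θ) * (r / 2)}, ?_, ?_⟩
          · apply mem_nhdsWithin_of_mem_nhds
            apply IsOpen.mem_nhds
            · exact isOpen_lt (by fun_prop) continuous_const
            · simp only [mem_ofPred_eq, sub_self, smul_zero, norm_zero]
              have : 0 < 1 - θ := by linarith
              positivity
          · filter_upwards [hev] with k hk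
            rw [disjoint_right]
            intro p' hp'
            exact hpush (hL k) hθ0 hθ1 hp' hk
        rcases hor with hpS | hpS
        · obtain ⟨θ, hθ0, hθ1, hθS⟩ := exists_shrink (isCompact_S1 m).isClosed hpS
          have hq : θ • p ∈ QQ m := (convex_QQ m).smul_mem_of_zero_mem h0Q hp.1.2
            ⟨hθ0.le, hθ1.le⟩
          refine hgen (L := fun k => Φ k (L1 m)) (fun k => (hΦ k).mono _ _ hKc hKv hKn
            (isCompact_L1 m) (convex_L1 m) (L1_nonempty m) (KK_subset_L1 m)) hθ0 hθ1 ?_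
          exact eventually_notMem h hm v hΦ hV (isCompact_L1 m) (convex_L1 m)
            (zero_mem_interior_body m (by norm_num [cA]) (by norm_num [cC]))
            (isCompact_S1 m) (convex_S1 m)
            (zero_mem_interior_body m (by norm_num [cB]) (by norm_num [cC]))
            (fun k => S1_subset (hΦ k)) (WW_L1 h hm v) (WW_S1_lt h hm v hq hθS)
        · obtain ⟨θ, hθ0, hθ1, hθS⟩ := exists_shrink (isCompact_S2 m).isClosed hpS
          have hq : θ • p ∈ QQ m := (convex_QQ m).smul_mem_of_zero_mem h0Q hp.1.2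
            ⟨hθ0.le, hθ1.le⟩
          refine hgen (L := fun k => Φ k (L2 m)) (fun k => (hΦ k).mono _ _ hKc hKv hKn
            (isCompact_L2 m) (convex_L2 m) (L2_nonempty m) (KK_subset_L2 m)) hθ0 hθ1 ?_
          exact eventually_notMem h hm v hΦ hV (isCompact_L2 m) (convex_L2 m)
            (zero_mem_interior_body m (by norm_num [cC]) (by norm_num [cA']))
            (isCompact_S2 m) (convex_S2 m)
            (zero_mem_interior_body m (by norm_num [cC]) (by norm_num [cB]))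
            (fun k => S2_subset (hΦ k)) (WW_L2 h hm v) (WW_S2_lt h hm v hq hθS)
    filter_upwards [hind] with k hk
    intro p hp
    by_contra hcon
    exact (disjoint_left.1 hk) hp ⟨hTΦ k hp, fun h' => hcon (interior_subset h')⟩
  have hle : ∀ δ : ℝ, 0 < δ →
      WW h hm v (KK m) ≤ ENNReal.ofReal ((1 + δ) ^ (m + 2)) * WW h hm v (UU m) := by
    intro δ hδ
    rw [← WW_smul h hm v _ (by linarith : (0 : ℝ) ≤ 1 + δ)]
    have hne : (1 + δ) ≠ 0 := by linarith
    have t1 := tendsto_VV h hm v hKc hKv hK0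
    have t2 := tendsto_VV h hm v ((isCompact_UU m).smul (1 + δ)) ((convex_UU m).smul (1 + δ))
      (subset_interior_smul m hδ (interior_subset (zero_mem_interior_UU m)))
    apply le_of_tendsto_of_tendsto t1 t2
    filter_upwards [key δ hδ] with k hk
    rw [← hV k _ hKc hKv hKn]
    exact VV_mono h hm v k hk
  have hlim : Tendsto (fun δ : ℝ => ENNReal.ofReal ((1 + δ) ^ (m + 2)) * WW h hm v (UU m))
      (𝓝[>] 0) (𝓝 (WW h hm v (UU m))) := by
    have h1 : Tendsto (fun δ : ℝ => ENNReal.ofReal ((1 + δ) ^ (m + 2))) (𝓝[>] 0) (𝓝 1) := by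
      have hc : Continuous fun δ : ℝ => ENNReal.ofReal ((1 + δ) ^ (m + 2)) :=
        ENNReal.continuous_ofReal.comp (by fun_prop)
      have := (hc.tendsto 0).mono_left (nhdsWithin_le_nhds (s := Ioi 0))
      simpa using this
    have h2 := ENNReal.Tendsto.mul_const (b := WW h hm v (UU m)) h1 (Or.inl one_ne_zero)
    rwa [one_mul] at h2
  have hfin : WW h hm v (KK m) ≤ WW h hm v (UU m) := by
    apply ge_of_tendsto hlim
    filter_upwards [self_mem_nhdsWithin] with δ hδ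
    exact hle δ hδ
  exact absurd (WW_UU_lt h hm v) (not_lt.2 hfin)

end Pool.Agent.Lib.MP_b62b68_gt
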