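import Mathlib
import Pool.Agent.Lib.MP_b62b68_gt.Final
import Pool.Agent.Lib.MP_b62b68_gt.Seq

/-!
The hyperplane case: the operators in the coordinates, and the main theorem.
-/

namespace Pool.Agent.Lib.MP_b62b68_gt

open MeasureTheory Set Module Filter
open scoped ENNReal Topology Pointwise RealInnerProductSpace

variable {n m : ℕ}

theorem exists_basis_hyper (H : Submodule ℝ (E n)) (hH : finrank ℝ H + 1 = n) :
    ∃ (v : OrthonormalBasis (Fin n) ℝ (E n)),
      ∀ a : Fin n, rho H (v a) = (if a.val = 0 then (-1 : ℝ) else 1) • v a := by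
  have hn : finrank ℝ (E n) = n := by simp
  have hsum : finrank ℝ H + finrank ℝ Hᗮ = n := by
    rw [Submodule.finrank_add_finrank_orthogonal, hn]
  set i := finrank ℝ H with hi
  have hk : finrank ℝ Hᗮ = 1 := by omega
  let bH : OrthonormalBasis (Fin i) ℝ H := stdOrthonormalBasis ℝ H
  let bP : OrthonormalBasis (Fin 1) ℝ Hᗮ := (stdOrthonormalBasis ℝ Hᗮ).reindex (finCongr hk)
  let f : Fin 1 ⊕ Fin i → E n := Sum.elim (fun a => (bP a : E n)) (fun a => (bH a : E n))
  have hf : Orthonormal ℝ f := by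
    rw [orthonormal_iff_ite]
    rintro (a | a) (b | b)
    · have := orthonormal_iff_ite.1 bP.orthonormal a b
      simp only [f, Sum.elim_inl, Sum.inl.injEq]
      exact this
    · simp only [f, Sum.elim_inl, Sum.elim_inr, reduceCtorEq, if_false]
      exact Submodule.inner_left_of_mem_orthogonal (bH b).2 (bP a).2
    · simp only [f, Sum.elim_inl, Sum.elim_inr, reduceCtorEq, if_false]
      exact Submodule.inner_right_of_mem_orthogonal (bH a).2 (bP b).2
    · have := orthonormal_iff_ite.1 bH.orthonormal a b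
      simp only [f, Sum.elim_inr, Sum.inr.injEq]
      exact this
  have hspan : ⊤ ≤ Submodule.span ℝ (Set.range f) := by
    have hcard : Fintype.card (Fin 1 ⊕ Fin i) = finrank ℝ (E n) := by
      rw [Fintype.card_sum, Fintype.card_fin, Fintype.card_fin, hn]; omega
    exact (hf.linearIndependent.span_eq_top_of_card_eq_finrank' hcard).ge
  let u : OrthonormalBasis (Fin 1 ⊕ Fin i) ℝ (E n) := OrthonormalBasis.mk hf hspan
  let e : Fin 1 ⊕ Fin i ≃ Fin n := finSumFinEquiv.trans (finCongr (by omega))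
  refine ⟨u.reindex e, ?_⟩
  intro a
  obtain ⟨b, rfl⟩ := e.surjective a
  rw [OrthonormalBasis.reindex_apply, Equiv.symm_apply_apply]
  rw [OrthonormalBasis.coe_mk]
  rcases b with b | b
  · have hv : (e (Sum.inl b)).val = 0 := by simp [e]
    rw [if_pos hv, rho_eq_reflection]
    have : f (Sum.inl b) ∈ Hᗮ := (bP b).2
    rw [Submodule.reflection_mem_subspace_orthogonalComplement_eq_neg this]
    simp
  · have hv : ¬ (e (Sum.inr b)).val = 0 := by simp [e]
    rw [if_neg hv, rho_eq_reflection]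
    have : f (Sum.inr b) ∈ H := (bH b).2
    rw [Submodule.reflection_mem_subspace_eq_self this, one_smul]

variable {H : Submodule ℝ (E n)}

theorem rho_iota (h : m + 2 ≤ n) (hm : m + 3 ≤ n) {v : OrthonormalBasis (Fin n) ℝ (E n)}
    (hv : ∀ a : Fin n, rho H (v a) = (if a.val = 0 then (-1 : ℝ) else 1) • v a) (ε : ℝ)
    (p : FF m) : rho H (iota h hm v ε p) = iota h hm v ε (rF p) := by
  rw [iota_apply, iota_apply, map_add, map_smul, hv]
  have hj : ¬ (jx hm).val = 0 := by simp [jx]
  rw [if_neg hj, one_smul]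
  congr 1
  change rho H (∑ a, coord m ((p.2.1.1, ε * p.2.1.2), p.2.2) a • v (Fin.castLE h a)) =
    ∑ a, coord m (((rF p).2.1.1, ε * (rF p).2.1.2), (rF p).2.2) a • v (Fin.castLE h a)
  rw [map_sum]
  refine Finset.sum_congr rfl fun a _ => ?_
  rw [map_smul, hv, smul_smul]
  congr 1
  refine Fin.cases ?_ (fun k => ?_) a
  · simp [coord, rF]
  · rw [if_neg (by simp)]
    refine Fin.cases ?_ (fun k => ?_) k
    · simp [coord, rF]
    · simp [coord, rF]

theorem inner_emb (h : m + 2 ≤ n) (hm : m + 3 ≤ n) (v : OrthonormalBasis (Fin n) ℝ (E n))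
    (c : Fin (m + 2) → ℝ) : ⟪v (jx hm), emb h v c⟫ = 0 := by
  change ⟪v (jx hm), ∑ a, c a • v (Fin.castLE h a)⟫ = 0
  rw [inner_sum]
  apply Finset.sum_eq_zero
  intro a _
  have hne : jx hm ≠ Fin.castLE h a := by
    intro h'
    have := congrArg Fin.val h'
    simp [jx] at this
    omega
  rw [inner_smul_right, orthonormal_iff_ite.1 v.orthonormal, if_neg hne, mul_zero]

theorem iota_injective (h : m + 2 ≤ n) (hm : m + 3 ≤ n) (v : OrthonormalBasis (Fin n) ℝ (E n))
    {ε : ℝ} (hε : ε ≠ 0) : Function.Injective (iota h hm v ε) := by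
  rw [← LinearMap.ker_eq_bot, LinearMap.ker_eq_bot']
  intro p hp
  rw [iota_apply] at hp
  have h1 : ε * p.1 = 0 := by
    have h2 : ⟪v (jx hm), emb h v (coord m ((p.2.1.1, ε * p.2.1.2), p.2.2)) +
        (ε * p.1) • v (jx hm)⟫ = 0 := by rw [hp, inner_zero_right]
    rw [inner_add_right, inner_emb, zero_add, inner_smul_right,
      orthonormal_iff_ite.1 v.orthonormal, if_pos rfl, mul_one] at h2
    exact h2
  rw [h1, zero_smul, add_zero] at hp
  have h3 : coord m ((p.2.1.1, ε * p.2.1.2), p.2.2) = 0 := by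
    apply emb_injective h v
    rw [hp, map_zero]
  have h4 : (((p.2.1.1, ε * p.2.1.2), p.2.2) : GG m) = 0 := by
    apply (coord m).injective
    rw [h3, map_zero]
  obtain ⟨t, ⟨⟨z, s⟩, y⟩⟩ := p
  simp only [Prod.mk_eq_zero, mul_eq_zero, hε, false_or] at h1 h4 ⊢
  exact ⟨h1, h4⟩

theorem intrinsicVolume_translate {j : ℕ} (h : j ≤ n) (x₀ : E n) (A : Set (E n)) :
    intrinsicVolume h ((fun x => x₀ + x) '' A) = intrinsicVolume h A := by
  unfold intrinsicVolume
  congr 1
  apply lintegral_congr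
  intro g
  rw [shadow_eq, shadow_eq]
  have : proj h g '' ((fun x => x₀ + x) '' A) = (fun y => proj h g x₀ + y) '' (proj h g '' A) := by
    rw [← image_comp, ← image_comp]
    apply image_congr
    intro x _
    simp [map_add]
  rw [this, image_add_left, measure_preimage_add]

theorem intrinsicVolume_slice (h : m + 2 ≤ n) (hm : m + 3 ≤ n)
    (v : OrthonormalBasis (Fin n) ℝ (E n)) (ε t : ℝ) (A : Set (GG m)) :
    intrinsicVolume h (iota h hm v ε '' ({t} ×ˢ A)) =
      kappa h v * (ENNReal.ofReal |ε| * volume (coord m '' A)) := by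
  have h1 : iota h hm v ε '' ({t} ×ˢ A) =
      (fun x => (ε * t) • v (jx hm) + x) '' (emb h v ''
        (Matrix.toLin' (dg m ε) '' (coord m '' A))) := by
    rw [← image_comp, ← image_comp, ← image_comp]
    ext x
    constructor
    · rintro ⟨⟨t', q⟩, ⟨h1, h2⟩, rfl⟩
      have h1' : t' = t := h1
      subst h1'
      refine ⟨q, h2, ?_⟩
      obtain ⟨⟨z, s⟩, y⟩ := q
      simp only [Function.comp_apply, Matrix.toLin'_apply, dg_coord, iota_apply]
      rw [add_comm]
    · rintro ⟨q, h2, rfl⟩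
      refine ⟨(t, q), ⟨rfl, h2⟩, ?_⟩
      obtain ⟨⟨z, s⟩, y⟩ := q
      simp only [Function.comp_apply, Matrix.toLin'_apply, dg_coord, iota_apply]
      rw [add_comm]
  rw [h1, intrinsicVolume_translate, intrinsicVolume_emb, Measure.addHaar_image_linearMap,
    LinearMap.det_toLin', det_dg]

/-- The operator in the coordinates. -/
noncomputable def PhiK (h : m + 2 ≤ n) (hm : m + 3 ≤ n) (v : OrthonormalBasis (Fin n) ℝ (E n))
    (D : Set (E n) → Set (E n)) (ε : ℝ) (A : Set (FF m)) : Set (FF m) :=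
  iota h hm v ε ⁻¹' (D (iota h hm v ε '' A))

theorem rF_rF (p : FF m) : rF (rF p) = p := by
  simp [rF]

section

variable {D : Set (E n) → Set (E n)} {ε : ℝ}

theorem symm_iota (h : m + 2 ≤ n) (hm : m + 3 ≤ n) {v : OrthonormalBasis (Fin n) ℝ (E n)}
    (hv : ∀ a : Fin n, rho H (v a) = (if a.val = 0 then (-1 : ℝ) else 1) • v a)
    {A : Set (FF m)} (hA : ∀ p ∈ A, rF p ∈ A) : IsSymmetricIn H (iota h hm v ε '' A) := by
  change rho H '' (iota h hm v ε '' A) = iota h hm v ε '' A
  rw [← image_comp]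
  ext x
  constructor
  · rintro ⟨p, hp, rfl⟩
    rw [Function.comp_apply, rho_iota h hm hv]
    exact ⟨rF p, hA p hp, rfl⟩
  · rintro ⟨p, hp, rfl⟩
    refine ⟨rF p, hA p hp, ?_⟩
    rw [Function.comp_apply, rho_iota h hm hv, rF_rF]

theorem exists_ball (h : m + 2 ≤ n) (hm : m + 3 ≤ n) {v : OrthonormalBasis (Fin n) ℝ (E n)}
    (hv : ∀ a : Fin n, rho H (v a) = (if a.val = 0 then (-1 : ℝ) else 1) • v a)
    (hD : Good h H D) {A : Set (FF m)} (hc : IsCompact A) (hA : Convex ℝ A)
    (hn : A.Nonempty) : ∃ R : ℝ, D (iota h hm v ε '' A) ⊆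
      iota h hm v ε '' Metric.closedBall 0 R := by
  have hιc : Continuous (iota h hm v ε) := (iota h hm v ε).continuous_of_finiteDimensional
  obtain ⟨R, hR⟩ := hc.isBounded.subset_closedBall 0
  have b1 : IsCompact (Metric.closedBall (0 : FF m) R) := isCompact_closedBall _ _
  have b2 : Convex ℝ (Metric.closedBall (0 : FF m) R) := convex_closedBall _ _
  have b3 : (Metric.closedBall (0 : FF m) R).Nonempty := hn.mono hR
  refine ⟨R, ?_⟩
  calc D (iota h hm v ε '' A) ⊆ D (iota h hm v ε '' Metric.closedBall 0 R) :=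
        hD.mono _ _ (hc.image hιc) (hA.linear_image _) (hn.image _) (b1.image hιc)
          (b2.linear_image _) (b3.image _) (image_mono hR)
    _ = iota h hm v ε '' Metric.closedBall 0 R := by
        apply hD.invariant _ (b1.image hιc) (b2.linear_image _) (b3.image _)
        apply symm_iota h hm hv
        intro p hp
        rw [mem_closedBall_zero_iff] at hp ⊢
        rw [norm_rF]; exact hp

theorem iota_PhiK (h : m + 2 ≤ n) (hm : m + 3 ≤ n) {v : OrthonormalBasis (Fin n) ℝ (E n)}
    (hv : ∀ a : Fin n, rho H (v a) = (if a.val = 0 then (-1 : ℝ) else 1) • v a)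
    (hD : Good h H D) {A : Set (FF m)} (hc : IsCompact A) (hA : Convex ℝ A)
    (hn : A.Nonempty) : iota h hm v ε '' (PhiK h hm v D ε A) = D (iota h hm v ε '' A) := by
  obtain ⟨R, hR⟩ := exists_ball (ε := ε) h hm hv hD hc hA hn
  apply image_preimage_eq_of_subset
  exact hR.trans (image_subset_range _ _)

theorem hop_PhiK (h : m + 2 ≤ n) (hm : m + 3 ≤ n) {v : OrthonormalBasis (Fin n) ℝ (E n)}
    (hv : ∀ a : Fin n, rho H (v a) = (if a.val = 0 then (-1 : ℝ) else 1) • v a)
    (hD : Good h H D) (hε : ε ≠ 0) : HOp m (PhiK h hm v D ε) := by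
  have hιc : Continuous (iota h hm v ε) := (iota h hm v ε).continuous_of_finiteDimensional
  have hinj := iota_injective h hm v hε
  constructor
  · intro A hc hA hn
    obtain ⟨R, hR⟩ := exists_ball (ε := ε) h hm hv hD hc hA hn
    have hcl : IsClosed (PhiK h hm v D ε A) :=
      (hD.compact _ (hc.image hιc) (hA.linear_image _) (hn.image _)).isClosed.preimage hιc
    refine (isCompact_closedBall (0 : FF m) R).of_isClosed_subset hcl ?_
    intro x hx
    obtain ⟨y, hy, hyx⟩ := hR hx
    rwa [← hinj hyx]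
  · intro A hc hA hn
    exact (hD.convex _ (hc.image hιc) (hA.linear_image _) (hn.image _)).linear_preimage _
  · intro A hc hA hn p hp
    change iota h hm v ε (rF p) ∈ D (iota h hm v ε '' A)
    rw [← rho_iota h hm hv]
    have := hD.symm _ (hc.image hιc) (hA.linear_image (iota h hm v ε)) (hn.image _)
    have h2 : rho H '' (D (iota h hm v ε '' A)) = D (iota h hm v ε '' A) := this
    rw [← h2]
    exact ⟨_, hp, rfl⟩
  · intro A B hc hA hn hc' hA' hn' hAB
    exact preimage_mono (hD.mono _ _ (hc.image hιc) (hA.linear_image _) (hn.image _)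
      (hc'.image hιc) (hA'.linear_image _) (hn'.image _) (image_mono hAB))
  · intro A hc hA hn hs
    change iota h hm v ε ⁻¹' (D (iota h hm v ε '' A)) = A
    rw [hD.invariant _ (hc.image hιc) (hA.linear_image _) (hn.image _) (symm_iota h hm hv hs)]
    exact preimage_image_eq _ hinj
  · intro t A B hc hA hn hcB hB
    have hsc : IsCompact (({t} : Set ℝ) ×ˢ A) := isCompact_singleton.prod hc
    have hsv : Convex ℝ (({t} : Set ℝ) ×ˢ A) := (convex_singleton t).prod hA
    have hsn : (({t} : Set ℝ) ×ˢ A).Nonempty := (singleton_nonempty t).prod hn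
    have h1 := hD.preserving _ (hsc.image hιc) (hsv.linear_image _) (hsn.image _)
    rw [← iota_PhiK h hm hv hD hsc hsv hsn, hB, intrinsicVolume_slice,
      intrinsicVolume_slice] at h1
    obtain ⟨c, hc0, hctop, hcv⟩ := exists_scalar m
    obtain ⟨hκ0, hκtop⟩ := kappa_ne h v
    have hε0 : ENNReal.ofReal |ε| ≠ 0 := by
      rw [Ne, ENNReal.ofReal_eq_zero]
      exact not_le.2 (abs_pos.2 hε)
    rw [ENNReal.mul_right_inj hκ0 hκtop, ENNReal.mul_right_inj hε0 ENNReal.ofReal_ne_top,
      hcv _ hc, hcv _ hcB, ENNReal.mul_right_inj hc0 hctop] at h1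
    exact h1

end

theorem no_good_hyper {D : Set (E n) → Set (E n)} (h : m + 2 ≤ n) (hm : m + 3 ≤ n)
    (hH : finrank ℝ H + 1 = n) (hD : Good h H D) : False := by
  obtain ⟨v, hv⟩ := exists_basis_hyper H hH
  have hk : ∀ k : ℕ, (1 / ((k : ℝ) + 1)) ≠ 0 := fun k => by positivity
  refine no_seq h hm v (Φ := fun k => PhiK h hm v D (1 / ((k : ℝ) + 1)))
    (fun k => hop_PhiK h hm hv hD (hk k)) ?_
  intro k A hc hA hn
  have hιc : Continuous (iota h hm v (1 / ((k : ℝ) + 1))) :=
    (iota h hm v (1 / ((k : ℝ) + 1))).continuous_of_finiteDimensional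
  unfold VV
  rw [iota_PhiK h hm hv hD hc hA hn,
    hD.preserving _ (hc.image hιc) (hA.linear_image _) (hn.image _)]

/-- The main theorem: in the remaining cases there is no good symmetrization. -/
theorem main_all {𝓑 : Set (Set (E n))} {j : ℕ} (h : j ≤ n) (hj : 2 ≤ j)
    (hH : finrank ℝ H + 2 ≤ n ∨ (finrank ℝ H + 1 = n ∧ j + 1 ≤ n))
    (h1 : convexBodies n ⊆ 𝓑) (h2 : 𝓑 ⊆ compactConvex n) :
    ¬ ∃ D, IsGoodSymmetrization h 𝓑 H D := by
  rcases hH with hH | ⟨hH, hjn⟩
  · exact main h hj hH h1 h2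
  · rintro ⟨D, hD⟩
    obtain ⟨m, rfl⟩ : ∃ m, j = m + 2 := ⟨j - 2, by omega⟩
    exact no_good_hyper h (by omega) hH (good_ext h1 h2 hD)

end Pool.Agent.Lib.MP_b62b68_gt
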